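import Pool.Agent.H450Z.GLDefs

set_option autoImplicit false

namespace Pool.Agent.H450Z.GL

abbrev V : Type 1 := ZFSet.{0}
abbrev On : Type 1 := Ordinal.{0}

theorem mem_Df {M Y : V} : Y ∈ Df M ↔ ∃ (n : ℕ) (φ : PF (n + 1)) (v : Fin n → V),
    (∀ i, v i ∈ M) ∧ ∀ x, x ∈ Y ↔ x ∈ M ∧ PF.Sat M φ (Fin.cons x v) := by
  unfold Df
  rw [ZFSet.mem_sep, ZFSet.mem_powerset]
  refine ⟨fun h => h.2, fun h => ⟨?_, h⟩⟩
  obtain ⟨n, φ, v, _, h⟩ := h
  exact fun x hx => ((h x).1 hx).1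

theorem Df_sub {M Y : V} (h : Y ∈ Df M) {x : V} (hx : x ∈ Y) : x ∈ M := by
  obtain ⟨n, φ, v, _, h⟩ := mem_Df.1 h
  exact ((h x).1 hx).1

theorem self_mem_Df (M : V) : M ∈ Df M :=
  mem_Df.2 ⟨0, .eq 0 0, Fin.elim0, fun i => i.elim0, fun _ => ⟨fun h => ⟨h, rfl⟩, fun h => h.1⟩⟩

theorem mem_Lev {x : V} {o : On} : x ∈ Lev o ↔ ∃ a < o, x ∈ Df (Lev a) := by
  rw [Lev, ZFSet.mem_iUnion]
  exact ⟨fun ⟨a, h⟩ => ⟨a.1, a.2, h⟩, fun ⟨a, h1, h2⟩ => ⟨⟨a, h1⟩, h2⟩⟩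

theorem Lev_mono {a b : On} (h : a ≤ b) {x : V} (hx : x ∈ Lev a) : x ∈ Lev b := by
  obtain ⟨c, hc, hx⟩ := mem_Lev.1 hx
  exact mem_Lev.2 ⟨c, hc.trans_le h, hx⟩

theorem Lev_trans {a : On} {x y : V} (hx : x ∈ Lev a) (hy : y ∈ x) : y ∈ Lev a := by
  obtain ⟨c, hc, hx⟩ := mem_Lev.1 hx
  exact Lev_mono hc.le (Df_sub hx hy)

theorem Lev_mem_Lev {a b : On} : Lev a ∈ Lev b ↔ a < b := by
  refine ⟨fun h => ?_, fun h => mem_Lev.2 ⟨a, h, self_mem_Df _⟩⟩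
  by_contra hab
  exact ZFSet.mem_irrefl _ (Lev_mono (not_lt.1 hab) h)

theorem Lev_inj : Function.Injective Lev := by
  intro a b h
  rcases lt_trichotomy a b with h1 | h1 | h1
  · have := Lev_mem_Lev.2 h1
    rw [h] at this
    exact (ZFSet.mem_irrefl _ this).elim
  · exact h1
  · have := Lev_mem_Lev.2 h1
    rw [h] at this
    exact (ZFSet.mem_irrefl _ this).elim

/-- formulas of the language with a predicate for the levels -/
inductive Fm : Type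
  | mem (i j : ℕ) : Fm
  | eq (i j : ℕ) : Fm
  | lv (i : ℕ) : Fm
  | neg (φ : Fm) : Fm
  | and (φ ψ : Fm) : Fm
  | ex (φ : Fm) : Fm

def Fm.enc : Fm → ℕ
  | .mem i j => Nat.pair 0 (Nat.pair i j)
  | .eq i j => Nat.pair 1 (Nat.pair i j)
  | .lv i => Nat.pair 2 i
  | .neg φ => Nat.pair 3 φ.enc
  | .and φ ψ => Nat.pair 4 (Nat.pair φ.enc ψ.enc)
  | .ex φ => Nat.pair 5 φ.enc

theorem Fm.enc_inj : ∀ φ ψ : Fm, φ.enc = ψ.enc → φ = ψ := by
  intro φ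
  induction φ with
  | mem i j => intro ψ h; cases ψ <;> simp_all [Fm.enc, Nat.pair_eq_pair]
  | eq i j => intro ψ h; cases ψ <;> simp_all [Fm.enc, Nat.pair_eq_pair]
  | lv i => intro ψ h; cases ψ <;> simp_all [Fm.enc, Nat.pair_eq_pair]
  | neg φ ih =>
    intro ψ h
    cases ψ <;> simp [Fm.enc, Nat.pair_eq_pair] at h
    rw [ih _ h]
  | and φ φ' ih ih' =>
    intro ψ h
    cases ψ <;> simp [Fm.enc, Nat.pair_eq_pair] at h
    rw [ih _ h.1, ih' _ h.2]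
  | ex φ ih =>
    intro ψ h
    cases ψ <;> simp [Fm.enc, Nat.pair_eq_pair] at h
    rw [ih _ h]

instance : Countable Fm := ⟨⟨Fm.enc, fun _ _ h => Fm.enc_inj _ _ h⟩⟩

instance : Nonempty Fm := ⟨.lv 0⟩

/-- a new first entry -/
def sc {α : Type*} (z : α) (v : ℕ → α) : ℕ → α
  | 0 => z
  | n + 1 => v n

@[simp] theorem sc_zero {α : Type*} (z : α) (v : ℕ → α) : sc z v 0 = z := rfl
@[simp] theorem sc_succ {α : Type*} (z : α) (v : ℕ → α) (n : ℕ) : sc z v (n + 1) = v n := rfl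

theorem comp_sc {α β : Type*} (f : α → β) (z : α) (v : ℕ → α) :
    (fun i => f (sc z v i)) = sc (f z) (fun i => f (v i)) := by
  funext i; cases i <;> rfl

def Fm.Sat (θ : On) : Fm → (ℕ → V) → Prop
  | .mem i j, v => v i ∈ v j
  | .eq i j, v => v i = v j
  | .lv i, v => ∃ a, v i = Lev a
  | .neg φ, v => ¬ Fm.Sat θ φ v
  | .and φ ψ, v => Fm.Sat θ φ v ∧ Fm.Sat θ ψ v
  | .ex φ, v => ∃ z ∈ Lev θ, Fm.Sat θ φ (sc z v)

def Fm.ren : Fm → (ℕ → ℕ) → Fm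
  | .mem i j, f => .mem (f i) (f j)
  | .eq i j, f => .eq (f i) (f j)
  | .lv i, f => .lv (f i)
  | .neg φ, f => .neg (φ.ren f)
  | .and φ ψ, f => .and (φ.ren f) (ψ.ren f)
  | .ex φ, f => .ex (φ.ren (sc 0 fun i => f i + 1))

theorem Fm.sat_ren (θ : On) (φ : Fm) : ∀ (f : ℕ → ℕ) (v : ℕ → V),
    Fm.Sat θ (φ.ren f) v ↔ Fm.Sat θ φ (fun i => v (f i)) := by
  induction φ with
  | mem i j => intro f v; rfl
  | eq i j => intro f v; rfl
  | lv i => intro f v; rfl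
  | neg φ ih => intro f v; simp only [Fm.ren, Fm.Sat, ih]
  | and φ ψ ih ih' => intro f v; simp only [Fm.ren, Fm.Sat, ih, ih']
  | ex φ ih =>
    intro f v
    simp only [Fm.ren, Fm.Sat, ih]
    refine exists_congr fun z => and_congr_right fun _ => ?_
    rw [comp_sc (sc z v)]
    rfl

/-- all values lie in the level `θ` -/
def Good (θ : On) (v : ℕ → V) : Prop := ∀ i, v i ∈ Lev θ

theorem Good.sc {θ : On} {v : ℕ → V} (h : Good θ v) {z : V} (hz : z ∈ Lev θ) :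
    Good θ (sc z v) := fun i => by
  cases i with
  | zero => exact hz
  | succ i => exact h i

/-- uniformly definable predicates -/
def D (Q : On → (ℕ → V) → Prop) : Prop :=
  ∃ φ : Fm, ∀ θ v, Good θ v → (Fm.Sat θ φ v ↔ Q θ v)

theorem D.congr {Q Q' : On → (ℕ → V) → Prop} (h : D Q)
    (h' : ∀ θ v, Good θ v → (Q θ v ↔ Q' θ v)) : D Q' := by
  obtain ⟨φ, h⟩ := h
  exact ⟨φ, fun θ v hv => (h θ v hv).trans (h' θ v hv)⟩

theorem D.sat (φ : Fm) (f : ℕ → ℕ) : D fun θ v => Fm.Sat θ φ fun i => v (f i) :=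
  ⟨φ.ren f, fun θ v _ => Fm.sat_ren θ φ f v⟩

theorem D.ren {Q : On → (ℕ → V) → Prop} (h : D Q) (f : ℕ → ℕ) :
    D fun θ v => Q θ fun i => v (f i) := by
  obtain ⟨φ, h⟩ := h
  exact (D.sat φ f).congr fun θ v hv => h θ _ fun i => hv (f i)

theorem D.mem (i j : ℕ) : D fun _ v => v i ∈ v j := ⟨.mem i j, fun _ _ _ => Iff.rfl⟩
theorem D.eq (i j : ℕ) : D fun _ v => v i = v j := ⟨.eq i j, fun _ _ _ => Iff.rfl⟩
theorem D.lv (i : ℕ) : D fun _ v => ∃ a, v i = Lev a := ⟨.lv i, fun _ _ _ => Iff.rfl⟩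

theorem D.not {Q : On → (ℕ → V) → Prop} (h : D Q) : D fun θ v => ¬ Q θ v := by
  obtain ⟨φ, h⟩ := h
  exact ⟨.neg φ, fun θ v hv => not_congr (h θ v hv)⟩

theorem D.and {Q Q' : On → (ℕ → V) → Prop} (h : D Q) (h' : D Q') :
    D fun θ v => Q θ v ∧ Q' θ v := by
  obtain ⟨φ, h⟩ := h
  obtain ⟨φ', h'⟩ := h'
  exact ⟨.and φ φ', fun θ v hv => and_congr (h θ v hv) (h' θ v hv)⟩

theorem D.ex {Q : On → (ℕ → V) → Prop} (h : D Q) :
    D fun θ v => ∃ z ∈ Lev θ, Q θ (sc z v) := by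
  obtain ⟨φ, h⟩ := h
  exact ⟨.ex φ, fun θ v hv => exists_congr fun z => and_congr_right fun hz => h θ _ (hv.sc hz)⟩

theorem D.imp {Q Q' : On → (ℕ → V) → Prop} (h : D Q) (h' : D Q') :
    D fun θ v => Q θ v → Q' θ v :=
  (h.and h'.not).not.congr fun _ _ _ => by tauto

theorem D.or {Q Q' : On → (ℕ → V) → Prop} (h : D Q) (h' : D Q') :
    D fun θ v => Q θ v ∨ Q' θ v :=
  (h.not.and h'.not).not.congr fun _ _ _ => by tauto

theorem D.iff {Q Q' : On → (ℕ → V) → Prop} (h : D Q) (h' : D Q') :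
    D fun θ v => Q θ v ↔ Q' θ v :=
  ((h.imp h').and (h'.imp h)).congr fun _ _ _ => by tauto

theorem D.all {Q : On → (ℕ → V) → Prop} (h : D Q) :
    D fun θ v => ∀ z ∈ Lev θ, Q θ (sc z v) :=
  h.not.ex.not.congr fun _ _ _ => by push Not; rfl

theorem D.bex {Q : On → (ℕ → V) → Prop} (h : D Q) (i : ℕ) :
    D fun θ v => ∃ z ∈ v i, Q θ (sc z v) :=
  ((D.mem 0 (i + 1)).and h).ex.congr fun _ _ hv =>
    ⟨fun ⟨z, _, h1, h2⟩ => ⟨z, h1, h2⟩, fun ⟨z, h1, h2⟩ => ⟨z, Lev_trans (hv i) h1, h1, h2⟩⟩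

theorem D.ball {Q : On → (ℕ → V) → Prop} (h : D Q) (i : ℕ) :
    D fun θ v => ∀ z ∈ v i, Q θ (sc z v) :=
  (h.not.bex i).not.congr fun _ _ _ => by push Not; rfl

theorem D.pure {n : ℕ} (φ : PF n) : ∀ (f : Fin n → ℕ) (m : ℕ),
    D fun _ v => PF.Sat (v m) φ fun i => v (f i) := by
  induction φ with
  | mem i j => intro f m; exact D.mem _ _
  | eq i j => intro f m; exact D.eq _ _
  | neg φ ih => intro f m; exact (ih f m).not
  | and φ ψ ih ih' => intro f m; exact (ih f m).and (ih' f m)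
  | ex φ ih =>
    intro f m
    refine ((ih (Fin.cons 0 fun i => f i + 1) (m + 1)).bex m).congr fun θ v _ => ?_
    refine exists_congr fun z => and_congr_right fun _ => ?_
    have : (fun i => sc z v ((Fin.cons 0 fun i => f i + 1 : Fin _ → ℕ) i)) =
        Fin.cons z fun i => v (f i) := by
      funext i
      refine Fin.cases rfl (fun _ => rfl) i
    rw [this]
    rfl

/-- `v k` is the subset of `v m` defined by `φ` -/
theorem D.dfn {n : ℕ} (φ : PF (n + 1)) (f : Fin n → ℕ) (m k : ℕ) :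
    D fun _ v => ∀ x, x ∈ v k ↔ x ∈ v m ∧ PF.Sat (v m) φ (Fin.cons x fun i => v (f i)) := by
  refine ((D.mem 0 (k + 1)).iff ((D.mem 0 (m + 1)).and
    (D.pure φ (Fin.cons 0 fun i => f i + 1) (m + 1)))).all.congr fun θ v hv => ?_
  have : ∀ z : V, (fun i => sc z v ((Fin.cons 0 fun i => f i + 1 : Fin _ → ℕ) i)) =
      Fin.cons z fun i => v (f i) := by
    intro z
    funext i
    refine Fin.cases rfl (fun _ => rfl) i
  simp only [this, sc_zero, sc_succ]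
  refine ⟨fun h x => ⟨fun hx => (h x (Lev_trans (hv k) hx)).1 hx,
    fun hx => (h x (Lev_trans (hv m) hx.1)).2 hx⟩, fun h x _ => h x⟩

theorem D.upair (k i j : ℕ) : D fun _ v => v k = {v i, v j} := by
  refine ((((D.eq 0 (i + 1)).or (D.eq 0 (j + 1))).ball k).and
    ((D.mem i k).and (D.mem j k))).congr fun θ v _ => ?_
  simp only [sc_zero, sc_succ]
  constructor
  · rintro ⟨h1, h2, h3⟩
    ext z
    rw [ZFSet.mem_pair]
    exact ⟨h1 z, fun h => h.elim (fun h => h ▸ h2) (fun h => h ▸ h3)⟩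
  · intro h
    rw [h]
    simp [ZFSet.mem_pair]

theorem D.pair (k i j : ℕ) : D fun _ v => v k = ZFSet.pair (v i) (v j) := by
  refine ((((D.upair 0 (i + 1) (i + 1)).or (D.upair 0 (i + 1) (j + 1))).ball k).and
    (((D.upair 0 (i + 1) (i + 1)).bex k).and ((D.upair 0 (i + 1) (j + 1)).bex k))).congr
    fun θ v _ => ?_
  simp only [sc_zero, sc_succ]
  have e : ({v i, v i} : V) = {v i} := by ext; simp
  rw [e]
  constructor
  · rintro ⟨h1, ⟨a, h2, rfl⟩, ⟨b, h3, rfl⟩⟩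
    ext z
    rw [ZFSet.pair, ZFSet.mem_pair]
    exact ⟨h1 z, fun h => h.elim (fun h => h ▸ h2) (fun h => h ▸ h3)⟩
  · intro h
    rw [h, ZFSet.pair]
    simp [ZFSet.mem_pair]

end Pool.Agent.H450Z.GL
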