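import Pool.Agent.H450Z.GLHull

set_option autoImplicit false

namespace Pool.Agent.H450Z.GL

instance small_sub (z : V) (X : Set V) : Small.{0} {w : V // w ∈ z ∧ w ∈ X} :=
  small_of_injective (f := fun w => (⟨w.1, w.2.1⟩ : z)) fun _ _ h =>
    Subtype.ext (congrArg (fun t : z => t.1) h)

/-- the Mostowski collapse of `X` -/
noncomputable def col (X : Set V) : V → V :=
  ZFSet.mem_wf.fix fun z f => ZFSet.range fun w : {w : V // w ∈ z ∧ w ∈ X} => f w.1 w.2.1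

theorem mem_col {X : Set V} {z y : V} : y ∈ col X z ↔ ∃ w ∈ z, w ∈ X ∧ col X w = y := by
  unfold col
  rw [WellFounded.fix_eq, ZFSet.mem_range]
  exact ⟨fun ⟨w, h⟩ => ⟨w.1, w.2.1, w.2.2, h⟩, fun ⟨w, h1, h2, h⟩ => ⟨⟨w, h1, h2⟩, h⟩⟩

variable {θ : On} {p : ℕ → V}

theorem hull_ext (hp : Good θ p) {z z' : V} (hz : z ∈ Hull θ p) (hz' : z' ∈ Hull θ p)
    (h : ∀ w ∈ Hull θ p, w ∈ z ↔ w ∈ z') : z = z' := by
  by_contra hne
  have : ∃ w ∈ Lev θ, ¬ (w ∈ z ↔ w ∈ z') := by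
    by_contra h1
    push Not at h1
    refine hne (ZFSet.ext fun w => ⟨fun hw => ?_, fun hw => ?_⟩)
    · exact (h1 w (Lev_trans (Hull.lev hz) hw)).1 hw
    · exact (h1 w (Lev_trans (Hull.lev hz') hw)).2 hw
  obtain ⟨w, hw, h1⟩ := tv hp θ le_rfl _ ((XV.base.cons hz').cons hz) _
    ((D.mem 0 1).iff (D.mem 0 2)).not this
  exact h1 (h w hw)

theorem col_inj (hp : Good θ p) (z : V) : z ∈ Hull θ p → ∀ z' ∈ Hull θ p,
    col (Hull θ p) z = col (Hull θ p) z' → z = z' := by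
  induction z using ZFSet.inductionOn with
  | _ z ih =>
  intro hz z' hz' h
  refine hull_ext hp hz hz' fun w hw => ⟨fun h1 => ?_, fun h1 => ?_⟩
  · obtain ⟨w', h2, h3, h4⟩ := mem_col.1 (h ▸ mem_col.2 ⟨w, h1, hw, rfl⟩)
    rwa [ih w h1 hw w' h3 h4.symm]
  · obtain ⟨w', h2, h3, h4⟩ := mem_col.1 (h.symm ▸ mem_col.2 ⟨w, h1, hw, rfl⟩)
    rwa [← ih w' h2 h3 w hw h4]

theorem col_mem (hp : Good θ p) {w z : V} (hw : w ∈ Hull θ p) :
    col (Hull θ p) w ∈ col (Hull θ p) z ↔ w ∈ z := by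
  refine ⟨fun h => ?_, fun h => mem_col.2 ⟨w, h, hw, rfl⟩⟩
  obtain ⟨w', h2, h3, h4⟩ := mem_col.1 h
  rwa [← col_inj hp w' h3 w hw h4]

theorem app_mid {n : ℕ} (u : Fin n → V) (M : V) (v : ℕ → V) : app u (sc M v) n = M := by
  have := app_right u (sc M v) 0
  rwa [zero_add] at this

theorem comp_cons {n : ℕ} (f : V → V) (z : V) (u : Fin n → V) :
    (fun i => f ((Fin.cons z u : Fin (n + 1) → V) i)) = Fin.cons (f z) fun i => f (u i) := by
  funext i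
  refine Fin.cases rfl (fun _ => rfl) i

theorem pure_col (hp : Good θ p) {M : V} (hM : M ∈ Hull θ p) {n : ℕ} (φ : PF n) :
    ∀ u : Fin n → V, (∀ i, u i ∈ Hull θ p) →
      (PF.Sat M φ u ↔ PF.Sat (col (Hull θ p) M) φ fun i => col (Hull θ p) (u i)) := by
  induction φ with
  | mem i j => intro u hu; exact (col_mem hp (hu i)).symm
  | eq i j => intro u hu; exact ⟨fun h => congrArg _ h, col_inj hp _ (hu i) _ (hu j)⟩
  | neg φ ih => intro u hu; exact not_congr (ih u hu)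
  | and φ ψ ih ih' => intro u hu; exact and_congr (ih u hu) (ih' u hu)
  | @ex n φ ih =>
    intro u hu
    constructor
    · rintro ⟨z, hz, h⟩
      have e : ∀ z : V, (fun i => sc z (app u (sc M p))
          ((Fin.cons 0 fun i : Fin n => i.1 + 1 : Fin _ → ℕ) i)) = Fin.cons z u := by
        intro z
        funext i
        refine Fin.cases rfl (fun j => ?_) i
        exact app_left u _ j
      obtain ⟨z', h1, h2, h3⟩ := tv hp θ le_rfl _ ((XV.base.cons hM).app hu) _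
        ((D.mem 0 (n + 1)).and (D.pure φ (Fin.cons 0 fun i : Fin n => i.1 + 1) (n + 1)))
        ⟨z, Lev_trans (Hull.lev hM) hz, by
          simp only [sc_zero, sc_succ, app_mid, e]
          exact ⟨hz, h⟩⟩
      simp only [sc_zero, sc_succ, app_mid, e] at h2 h3
      refine ⟨_, (col_mem hp h1).2 h2, ?_⟩
      rw [← comp_cons]
      exact (ih _ fun i => Fin.cases h1 hu i).1 h3
    · rintro ⟨y, hy, h⟩
      obtain ⟨w, h1, h2, rfl⟩ := mem_col.1 hy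
      rw [← comp_cons] at h
      exact ⟨w, h1, (ih _ fun i => Fin.cases h2 hu i).2 h⟩

theorem dfn_col (hp : Good θ p) {M z : V} (hM : M ∈ Hull θ p) {n : ℕ} (φ : PF (n + 1))
    {u : Fin n → V} (hu : ∀ i, u i ∈ Hull θ p)
    (h : ∀ x, x ∈ z ↔ x ∈ M ∧ PF.Sat M φ (Fin.cons x u)) (y : V) :
    y ∈ col (Hull θ p) z ↔ y ∈ col (Hull θ p) M ∧
      PF.Sat (col (Hull θ p) M) φ (Fin.cons y fun i => col (Hull θ p) (u i)) := by
  constructor
  · intro hy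
    obtain ⟨w, h1, h2, rfl⟩ := mem_col.1 hy
    refine ⟨(col_mem hp h2).2 ((h w).1 h1).1, ?_⟩
    rw [← comp_cons]
    exact (pure_col hp hM φ _ fun i => Fin.cases h2 hu i).1 ((h w).1 h1).2
  · rintro ⟨hy, h3⟩
    obtain ⟨w, h1, h2, rfl⟩ := mem_col.1 hy
    rw [← comp_cons] at h3
    exact (col_mem hp h2).2
      ((h w).2 ⟨h1, (pure_col hp hM φ _ fun i => Fin.cases h2 hu i).2 h3⟩)

theorem tv_below (hp : Good θ p) {δ : On} (hδ : δ = θ ∨ Lev δ ∈ Hull θ p) {v : ℕ → V}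
    (hv : XV θ p v) {Q : On → (ℕ → V) → Prop} (hQ : D Q) (h : ∃ z ∈ Lev δ, Q θ (sc z v)) :
    ∃ z ∈ Hull θ p, z ∈ Lev δ ∧ Q θ (sc z v) := by
  rcases hδ with rfl | hδ
  · obtain ⟨z, h1, h2⟩ := tv hp δ le_rfl v hv Q hQ h
    exact ⟨z, h1, Hull.lev h1, h2⟩
  · obtain ⟨z, hz, h⟩ := h
    have e : ∀ z : V, (fun i => sc z (sc (Lev δ) v) (sc 0 (fun i => i + 2) i)) = sc z v := by
      intro z
      funext i
      cases i <;> rfl
    obtain ⟨z', h1, h2⟩ := tv hp θ le_rfl _ (hv.cons hδ) _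
      ((D.mem 0 1).and (hQ.ren (sc 0 fun i => i + 2)))
      ⟨z, Lev_trans (Hull.lev hδ) hz, by simp only [e]; exact ⟨hz, h⟩⟩
    simp only [e] at h2
    exact ⟨z', h1, h2⟩

theorem cond (hp : Good θ p) (δ : On) : δ ≤ θ → (δ = θ ∨ Lev δ ∈ Hull θ p) →
    ∃ δ' : On, (∀ y, y ∈ Lev δ' ↔ ∃ z ∈ Lev δ, z ∈ Hull θ p ∧ col (Hull θ p) z = y) ∧
      ∀ β' < δ', ∃ β < δ, Lev β ∈ Hull θ p ∧ col (Hull θ p) (Lev β) = Lev β' := by
  induction δ using WellFoundedLT.induction with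
  | _ δ ih =>
  intro hδ hδ'
  have ih' : ∀ β < δ, Lev β ∈ Hull θ p → ∃ β' : On, col (Hull θ p) (Lev β) = Lev β' ∧
      ∀ β'' < β', ∃ β1 < β, Lev β1 ∈ Hull θ p ∧ col (Hull θ p) (Lev β1) = Lev β'' := by
    intro β hβ hβ'
    obtain ⟨β', h1, h2⟩ := ih β hβ (hβ.le.trans hδ) (Or.inr hβ')
    exact ⟨β', ZFSet.ext fun y => mem_col.trans (h1 y).symm, h2⟩
  let B : Set On := {β' | ∃ β < δ, Lev β ∈ Hull θ p ∧ col (Hull θ p) (Lev β) = Lev β'}
  have hB : B.Countable := by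
    refine (((Hull.countable θ p).image (col (Hull θ p))).preimage_of_injOn
      (f := Lev) Lev_inj.injOn).mono ?_
    rintro β' ⟨β, _, h1, h2⟩
    exact ⟨_, h1, h2⟩
  have hne : ({β' | β' ∉ B} : Set On).Nonempty := by
    have := hB.to_subtype
    obtain ⟨b, hb⟩ := Ordinal.bddAbove_of_small (s := B)
    exact ⟨Order.succ b, fun h => (Order.lt_succ b).not_ge (hb h)⟩
  obtain ⟨δ', h0, hmin⟩ := Ordinal.lt_wf.has_min _ hne
  have hlt : ∀ β', β' < δ' ↔ β' ∈ B := by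
    intro β'
    refine ⟨fun h => by_contra fun h1 => hmin β' h1 h, fun h => ?_⟩
    by_contra h1
    rcases (not_lt.1 h1).eq_or_lt with h2 | h2
    · exact h0 (h2 ▸ h)
    · obtain ⟨β, h3, h4, h5⟩ := h
      obtain ⟨β1, h6, h7⟩ := ih' β h3 h4
      rw [h5] at h6
      obtain ⟨β2, h8, h9⟩ := h7 δ' (Lev_inj h6 ▸ h2)
      exact h0 ⟨β2, h8.trans h3, h9⟩
  refine ⟨δ', fun y => ⟨fun hy => ?_, ?_⟩, fun β' h => (hlt β').1 h⟩
  · obtain ⟨β', h1, h2⟩ := mem_Lev.1 hy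
    obtain ⟨β, h3, h4, h5⟩ := (hlt β').1 h1
    obtain ⟨n, φ, u', hu', hdef⟩ := mem_Df.1 h2
    have : ∀ i, ∃ w ∈ Lev β, w ∈ Hull θ p ∧ col (Hull θ p) w = u' i := fun i =>
      mem_col.1 (h5 ▸ hu' i)
    choose u hu1 hu2 hu3 using this
    let z := ZFSet.sep (fun x => PF.Sat (Lev β) φ (Fin.cons x u)) (Lev β)
    have hz : ∀ x, x ∈ z ↔ x ∈ Lev β ∧ PF.Sat (Lev β) φ (Fin.cons x u) := fun x => ZFSet.mem_sep
    have hz1 : z ∈ Lev δ := mem_Lev.2 ⟨β, h3, mem_Df.2 ⟨n, φ, u, hu1, hz⟩⟩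
    refine ⟨z, hz1, ?_, ZFSet.ext fun x => ?_⟩
    · refine ((XV.base.cons h4).app hu2).mem_hull hp (D.dfn φ (fun i => i.1 + 1) (n + 1) 0)
        (Lev_mono hδ hz1) fun w _ => ?_
      simp only [sc_zero, sc_succ, app_mid, app_left]
      constructor
      · intro h
        ext x
        rw [h x, hz x]
      · rintro rfl
        exact hz
    · rw [dfn_col hp h4 φ hu2 hz, hdef, h5]
      simp only [hu3]
  · rintro ⟨z, hz, hz', rfl⟩
    obtain ⟨α, hα, h1⟩ := mem_Lev.1 hz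
    obtain ⟨n, φ, u, hu, hdef⟩ := mem_Df.1 h1
    have hR0 := D.dfn φ (fun i => i.1) n (1 + n)
    have e : ∀ (M : V) (u : Fin n → V), app u (sc M (sc z p)) (1 + n) = z := fun M u =>
      app_right u _ 1
    obtain ⟨M, h2, h3, ⟨β, h4⟩, h5⟩ := tv_below hp hδ' (XV.base.cons hz')
      ((D.lv 0).and (D.bexn 0 n hR0)) ⟨Lev α, Lev_mem_Lev.2 hα, ⟨α, rfl⟩, u, hu, by
        simp only [app_mid, app_left, e]
        exact hdef⟩
    simp only [sc_zero] at h4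
    subst h4
    have hβ := Lev_mem_Lev.1 h3
    obtain ⟨u', hu', h6⟩ := (tv hp β (hβ.le.trans hδ)).tuple ((XV.base.cons hz').cons h2)
      (m := 0) rfl n _ hR0 h5
    simp only [app_mid, app_left, e] at h6
    obtain ⟨β', h7, _⟩ := ih' β hβ h2
    refine mem_Lev.2 ⟨β', (hlt β').2 ⟨β, hβ, h2, h7⟩, mem_Df.2 ⟨n, φ,
      fun i => col (Hull θ p) (u' i), fun i => ?_, fun x => ?_⟩⟩
    · rw [← h7]
      exact (col_mem hp (hu' i).1).2 (hu' i).2
    · rw [← h7]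
      exact dfn_col hp h2 φ (fun i => (hu' i).1) h6 x

theorem condense (hp : Good θ p) : ∃ (γ : On) (π : V → V),
    (∀ Q : On → (ℕ → V) → Prop, D Q → (Q θ p ↔ Q γ fun i => π (p i))) ∧
    (Good γ fun i => π (p i)) ∧ ({y | y ∈ Lev γ} : Set V).Countable ∧
    ∃ g : On → Fm, ∀ β1 β2, β1 < β2 → β2 < γ →
      ∃ w1 w2, Defines θ p (g β1) w1 ∧ Defines θ p (g β2) w2 ∧ w1 ∈ w2 := by
  obtain ⟨γ, h1, h2⟩ := cond hp θ le_rfl (Or.inl rfl)
  have hg : ∀ {z}, z ∈ Hull θ p → col (Hull θ p) z ∈ Lev γ := fun hz =>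
    (h1 _).2 ⟨_, Hull.lev hz, hz, rfl⟩
  have tr : ∀ (φ : Fm) (v : ℕ → V), XV θ p v →
      (Fm.Sat θ φ v ↔ Fm.Sat γ φ fun i => col (Hull θ p) (v i)) := by
    intro φ
    induction φ with
    | mem i j => intro v hv; exact (col_mem hp (hv.mem hp i)).symm
    | eq i j =>
      intro v hv
      exact ⟨fun h => congrArg _ h, col_inj hp _ (hv.mem hp i) _ (hv.mem hp j)⟩
    | lv i =>
      intro v hv
      have hi := hv.mem hp i
      constructor
      · rintro ⟨a, ha⟩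
        rw [ha] at hi
        obtain ⟨a', h3, _⟩ := cond hp a (Lev_mem_Lev.1 (Hull.lev hi)).le (Or.inr hi)
        refine ⟨a', ?_⟩
        show col (Hull θ p) (v i) = _
        rw [ha]
        exact ZFSet.ext fun y => mem_col.trans (h3 y).symm
      · rintro ⟨a', ha⟩
        have h3 := hg hi
        have ha' : col (Hull θ p) (v i) = Lev a' := ha
        rw [ha'] at h3
        obtain ⟨β, _, h4, h5⟩ := h2 a' (Lev_mem_Lev.1 h3)
        exact ⟨β, col_inj hp _ hi _ h4 (ha'.trans h5.symm)⟩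
    | neg φ ih => intro v hv; exact not_congr (ih v hv)
    | and φ ψ ih ih' => intro v hv; exact and_congr (ih v hv) (ih' v hv)
    | ex φ ih =>
      intro v hv
      constructor
      · intro h
        obtain ⟨z, hz, h3⟩ := tv hp θ le_rfl v hv _ (D.sat φ id) h
        refine ⟨_, hg hz, ?_⟩
        rw [← comp_sc]
        exact (ih _ (hv.cons hz)).1 h3
      · rintro ⟨y, hy, h⟩
        obtain ⟨z, h3, h4, rfl⟩ := (h1 y).1 hy
        rw [← comp_sc] at h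
        exact ⟨z, h3, (ih _ (hv.cons h4)).2 h⟩
  have hgood : Good γ fun i => col (Hull θ p) (p i) := fun i => hg (XV.base.mem hp i)
  refine ⟨γ, col (Hull θ p), ?_, hgood, ?_, ?_⟩
  · rintro Q ⟨φ, hφ⟩
    rw [← hφ θ p hp, ← hφ γ _ hgood]
    exact tr φ p XV.base
  · refine ((Hull.countable θ p).image (col (Hull θ p))).mono fun y hy => ?_
    obtain ⟨z, _, h3, h4⟩ := (h1 y).1 hy
    exact ⟨z, h3, h4⟩
  · have : ∀ β' : On, ∃ φ : Fm, β' < γ →
        ∃ w, Defines θ p φ w ∧ col (Hull θ p) w = Lev β' := by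
      intro β'
      by_cases h : β' < γ
      · obtain ⟨β, _, ⟨φ, h3⟩, h4⟩ := h2 β' h
        exact ⟨φ, fun _ => ⟨_, h3, h4⟩⟩
      · exact ⟨.lv 0, fun h' => (h h').elim⟩
    choose g hg' using this
    refine ⟨g, fun β1 β2 h3 h4 => ?_⟩
    obtain ⟨w1, h5, h6⟩ := hg' β1 (h3.trans h4)
    obtain ⟨w2, h7, h8⟩ := hg' β2 h4
    refine ⟨w1, w2, h5, h7, (col_mem hp ⟨_, h5⟩).1 ?_⟩
    rw [h6, h8]
    exact Lev_mem_Lev.2 h3

end Pool.Agent.H450Z.GL
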