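import Mathlib

set_option autoImplicit false

/-!
# The constructible hierarchy
-/

namespace Pool.Agent.H450Z.GL

/-- First order formulas of the language of set theory with `n` free variables. -/
inductive PF : ℕ → Type
  | mem {n : ℕ} (i j : Fin n) : PF n
  | eq {n : ℕ} (i j : Fin n) : PF n
  | neg {n : ℕ} (φ : PF n) : PF n
  | and {n : ℕ} (φ ψ : PF n) : PF n
  | ex {n : ℕ} (φ : PF (n + 1)) : PF n

/-- Satisfaction in the structure `(M, ∈)`. -/
def PF.Sat (M : ZFSet.{0}) : {n : ℕ} → PF n → (Fin n → ZFSet.{0}) → Prop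
  | _, .mem i j, v => v i ∈ v j
  | _, .eq i j, v => v i = v j
  | _, .neg φ, v => ¬ PF.Sat M φ v
  | _, .and φ ψ, v => PF.Sat M φ v ∧ PF.Sat M ψ v
  | _, .ex φ, v => ∃ z ∈ M, PF.Sat M φ (Fin.cons z v)

/-- The subsets of `M` which are definable in `(M, ∈)` with parameters from `M`. -/
noncomputable def Df (M : ZFSet.{0}) : ZFSet.{0} :=
  ZFSet.sep (fun Y => ∃ (n : ℕ) (φ : PF (n + 1)) (v : Fin n → ZFSet.{0}), (∀ i, v i ∈ M) ∧
    ∀ x, x ∈ Y ↔ x ∈ M ∧ PF.Sat M φ (Fin.cons x v)) M.powerset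

/-- The levels of the constructible hierarchy: `Lev o` is the union of the sets `Df (Lev a)`,
`a < o`. -/
noncomputable def Lev (o : Ordinal.{0}) : ZFSet.{0} :=
  ZFSet.iUnion fun a : Set.Iio o => Df (Lev a)
termination_by o
decreasing_by exact a.2

/-- Constructibility of the universe: every set belongs to a level of the constructible
hierarchy. -/
def VeqL : Prop := ∀ x : ZFSet.{0}, ∃ o : Ordinal.{0}, x ∈ Lev o

end Pool.Agent.H450Z.GL
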