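import Pool.Agent.H450Z.GLCol

set_option autoImplicit false
set_option maxHeartbeats 400000

namespace Pool.Agent.H450Z.GL

open Cardinal

variable {θ : On} {p q : ℕ → V}

theorem Fm.bound (φ : Fm) : ∃ n : ℕ, ∀ (θ : On) (v v' : ℕ → V), (∀ i < n, v i = v' i) →
    (Fm.Sat θ φ v ↔ Fm.Sat θ φ v') := by
  induction φ with
  | mem i j =>
    refine ⟨i + j + 1, fun θ v v' h => ?_⟩
    show v i ∈ v j ↔ v' i ∈ v' j
    rw [h i (by omega), h j (by omega)]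
  | eq i j =>
    refine ⟨i + j + 1, fun θ v v' h => ?_⟩
    show v i = v j ↔ v' i = v' j
    rw [h i (by omega), h j (by omega)]
  | lv i =>
    refine ⟨i + 1, fun θ v v' h => ?_⟩
    show (∃ a, v i = Lev a) ↔ ∃ a, v' i = Lev a
    rw [h i (by omega)]
  | neg φ ih =>
    obtain ⟨n, h⟩ := ih
    exact ⟨n, fun θ v v' h' => not_congr (h θ v v' h')⟩
  | and φ ψ ih ih' =>
    obtain ⟨n, h⟩ := ih
    obtain ⟨m, h2⟩ := ih'
    exact ⟨n + m, fun θ v v' h' => and_congr (h θ v v' fun i hi => h' i (by omega))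
      (h2 θ v v' fun i hi => h' i (by omega))⟩
  | ex φ ih =>
    obtain ⟨n, h⟩ := ih
    refine ⟨n, fun θ v v' h' => exists_congr fun z => and_congr_right fun _ => h θ _ _ ?_⟩
    intro i hi
    cases i with
    | zero => rfl
    | succ i => exact h' i (by omega)

theorem hull_supp {z : V} (hz : z ∈ Hull θ p) : ∃ n : ℕ, ∀ p' : ℕ → V, (∀ i < n, p i = p' i) →
    z ∈ Hull θ p' := by
  obtain ⟨φ, h1, h2⟩ := hz
  obtain ⟨n, hn⟩ := φ.bound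
  refine ⟨n, fun p' hp' => ⟨φ, h1, fun w hw => (hn θ _ _ ?_).trans (h2 w hw)⟩⟩
  intro i hi
  cases i with
  | zero => rfl
  | succ i => exact (hp' i (by omega)).symm

theorem hull_sub (hp : Good θ p) (h : ∀ i, q i ∈ Hull θ p) {z : V} (hz : z ∈ Hull θ q) :
    z ∈ Hull θ p := by
  obtain ⟨n, hn⟩ := hull_supp hz
  obtain ⟨φ, h1, h2⟩ := hn (app (fun i : Fin n => q i) p) fun i hi =>
    (app_left (fun i : Fin n => q i) p ⟨i, hi⟩).symm
  exact (XV.base.app fun i : Fin n => h i).mem_hull hp (D.sat φ id) h1 h2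

theorem elem (hp : Good θ p) {γ : On}
    (h1 : ∀ y, y ∈ Lev γ ↔ ∃ z ∈ Lev θ, z ∈ Hull θ p ∧ col (Hull θ p) z = y)
    (h2 : ∀ β' < γ, ∃ β < θ, Lev β ∈ Hull θ p ∧ col (Hull θ p) (Lev β) = Lev β')
    {Q : On → (ℕ → V) → Prop} (hQ : D Q) {v : ℕ → V} (hv : XV θ p v) :
    Q θ v ↔ Q γ fun i => col (Hull θ p) (v i) := by
  have hg : ∀ {z}, z ∈ Hull θ p → col (Hull θ p) z ∈ Lev γ := fun hz =>
    (h1 _).2 ⟨_, Hull.lev hz, hz, rfl⟩
  have tr : ∀ (φ : Fm) (v : ℕ → V), XV θ p v →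
      (Fm.Sat θ φ v ↔ Fm.Sat γ φ fun i => col (Hull θ p) (v i)) := by
    intro φ
    induction φ with
    | mem i j => intro v hv; exact (col_mem hp (hv.mem hp i)).symm
    | eq i j =>
      intro v hv
      exact ⟨fun h => congrArg _ h, col_inj hp _ (hv.mem hp i) _ (hv.mem hp j)⟩
    | lv i =>
      intro v hv
      have hi := hv.mem hp i
      constructor
      · rintro ⟨a, ha⟩
        rw [ha] at hi
        obtain ⟨a', h3, _⟩ := cond hp a (Lev_mem_Lev.1 (Hull.lev hi)).le (Or.inr hi)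
        refine ⟨a', ?_⟩
        show col (Hull θ p) (v i) = _
        rw [ha]
        exact ZFSet.ext fun y => mem_col.trans (h3 y).symm
      · rintro ⟨a', ha⟩
        have h3 := hg hi
        have ha' : col (Hull θ p) (v i) = Lev a' := ha
        rw [ha'] at h3
        obtain ⟨β, _, h4, h5⟩ := h2 a' (Lev_mem_Lev.1 h3)
        exact ⟨β, col_inj hp _ hi _ h4 (ha'.trans h5.symm)⟩
    | neg φ ih => intro v hv; exact not_congr (ih v hv)
    | and φ ψ ih ih' => intro v hv; exact and_congr (ih v hv) (ih' v hv)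
    | ex φ ih =>
      intro v hv
      constructor
      · intro h
        obtain ⟨z, hz, h3⟩ := tv hp θ le_rfl v hv _ (D.sat φ id) h
        refine ⟨_, hg hz, ?_⟩
        rw [← comp_sc]
        exact (ih _ (hv.cons hz)).1 h3
      · rintro ⟨y, hy, h⟩
        obtain ⟨z, h3, h4, rfl⟩ := (h1 y).1 hy
        rw [← comp_sc] at h
        exact ⟨z, h3, (ih _ (hv.cons h4)).2 h⟩
  obtain ⟨φ, hφ⟩ := hQ
  rw [← hφ θ v (hv.good hp), ← hφ γ _ fun i => hg (hv.mem hp i)]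
  exact tr φ v hv

/-- the collapse of a level -/
theorem col_lev (hp : Good θ p) {β : On} (hβ : Lev β ∈ Hull θ p) : ∃ β' : On,
    col (Hull θ p) (Lev β) = Lev β' ∧
      ∀ α', α' < β' ↔ ∃ α < β, Lev α ∈ Hull θ p ∧ col (Hull θ p) (Lev α) = Lev α' := by
  obtain ⟨β', h1, h2⟩ := cond hp β (Lev_mem_Lev.1 (Hull.lev hβ)).le (Or.inr hβ)
  have e : col (Hull θ p) (Lev β) = Lev β' := ZFSet.ext fun y => mem_col.trans (h1 y).symm
  refine ⟨β', e, fun α' => ⟨h2 α', ?_⟩⟩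
  rintro ⟨α, h3, h4, h5⟩
  rw [← Lev_mem_Lev, ← h5, ← e]
  exact (col_mem hp h4).2 (Lev_mem_Lev.2 h3)

/-- `f` has the value `b` at `a` -/
def Val (f a b : V) : Prop := ZFSet.pair a b ∈ f ∧ ∀ b', ZFSet.pair a b' ∈ f → b' = b

theorem pair_lev {a b : V} (h : ZFSet.pair a b ∈ Lev θ) : b ∈ Lev θ :=
  Lev_trans (Lev_trans h (show ({a, b} : V) ∈ ZFSet.pair a b by simp [ZFSet.pair])) (by simp)

theorem D.pmem (i j k : ℕ) : D fun _ v => ZFSet.pair (v i) (v j) ∈ v k :=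
  ((D.pair 0 (i + 1) (j + 1)).bex k).congr fun _ _ _ =>
    ⟨fun ⟨_, h1, h2⟩ => (show _ = _ from h2) ▸ h1, fun h => ⟨_, h, rfl⟩⟩

theorem D.val (k i j : ℕ) : D fun _ v => Val (v k) (v i) (v j) :=
  ((D.pmem i j k).and (((D.pmem (i + 1) 0 (k + 1)).imp (D.eq 0 (j + 1))).all)).congr
    fun _ _ hv => and_congr_right fun _ =>
      ⟨fun h b' hb => h b' (pair_lev (Lev_trans (hv k) hb)) hb, fun h b' _ hb => h b' hb⟩

/-- `f` maps the levels in `m` onto the levels in `d` -/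
def Sur (f m d : V) : Prop := ∀ b ∈ d, (∃ o, b = Lev o) → ∃ a ∈ m, (∃ o, a = Lev o) ∧ Val f a b

theorem D.sur (k i j : ℕ) : D fun _ v => Sur (v k) (v i) (v j) :=
  ((D.lv 0).imp (((D.lv 0).and (D.val (k + 2) 0 1)).bex (i + 1))).ball j

/-- `f` maps some level in `m` to a level in `d` above `b` -/
def Abv (f m d b : V) : Prop :=
  ∃ a ∈ m, (∃ o, a = Lev o) ∧ ∃ c ∈ d, (∃ o, c = Lev o) ∧ Val f a c ∧ (b ∈ c ∨ b = c)

theorem D.abv (k i j l : ℕ) : D fun _ v => Abv (v k) (v i) (v j) (v l) :=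
  ((D.lv 0).and (((D.lv 0).and ((D.val (k + 2) 1 0).and
    ((D.mem (l + 2) 0).or (D.eq (l + 2) 0)))).bex (j + 1))).bex i

def Cof (f m d : V) : Prop := ∀ b ∈ d, (∃ o, b = Lev o) → Abv f m d b

theorem D.cof (k i j : ℕ) : D fun _ v => Cof (v k) (v i) (v j) :=
  ((D.lv 0).imp (D.abv (k + 1) (i + 1) (j + 1) 0)).ball j

theorem Sur.cof {f m d : V} (h : Sur f m d) : Cof f m d := fun b hb hb' =>
  let ⟨a, h1, h2, h3⟩ := h b hb hb'
  ⟨a, h1, h2, b, hb, hb', h3, Or.inr rfl⟩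

theorem code (hL : VeqL) (k : On) : ∃ θ : On, k < θ ∧ ∀ μ ≤ k, ∀ F : On → On,
    (∀ a < μ, F a < k) → ∃ f ∈ Lev θ, ∀ a < μ, Val f (Lev a) (Lev (F a)) := by
  obtain ⟨θ, hθ⟩ := hL {Lev k, ((Lev k).prod (Lev k)).powerset}
  refine ⟨θ, Lev_mem_Lev.1 (Lev_trans hθ (by simp)), fun μ hμ F hF => ?_⟩
  refine ⟨ZFSet.sep (fun z => ∃ a < μ, z = ZFSet.pair (Lev a) (Lev (F a))) ((Lev k).prod (Lev k)),
    Lev_trans (Lev_trans hθ (y := ((Lev k).prod (Lev k)).powerset) (by simp)) ?_, fun a ha => ?_⟩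
  · rw [ZFSet.mem_powerset]
    intro z hz
    exact (ZFSet.mem_sep.1 hz).1
  · refine ⟨ZFSet.mem_sep.2 ⟨ZFSet.pair_mem_prod.2 ⟨Lev_mem_Lev.2 (ha.trans_le hμ),
      Lev_mem_Lev.2 (hF a ha)⟩, a, ha, rfl⟩, fun b' hb => ?_⟩
    obtain ⟨_, a', _, h⟩ := ZFSet.mem_sep.1 hb
    obtain ⟨h1, h2⟩ := ZFSet.pair_inj.1 h
    rw [h2, Lev_inj h1]

theorem nat_hull (hp : Good θ p) (n : ℕ) : (n : On) < θ → Lev n ∈ Hull θ p := by
  induction n with
  | zero =>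
    intro h
    refine XV.base.mem_hull hp ((D.lv 0).and (((D.lv 0).not).ball 0)) (Lev_mem_Lev.2 h)
      fun w _ => ⟨?_, ?_⟩
    · rintro ⟨⟨o, ho⟩, h2⟩
      have ho' : w = Lev o := ho
      subst ho'
      rcases (zero_le : 0 ≤ o).eq_or_lt with h3 | h3
      · rw [← h3]; simp
      · exact (h2 (Lev 0) (Lev_mem_Lev.2 h3) ⟨0, rfl⟩).elim
    · rintro rfl
      refine ⟨⟨_, rfl⟩, ?_⟩
      rintro z hz ⟨o, ho⟩
      have ho' : z = Lev o := ho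
      subst ho'
      have := Lev_mem_Lev.1 (show Lev o ∈ Lev ((0 : ℕ) : On) from hz)
      simp at this
  | succ n ih =>
    intro h
    have h0 : (n : On) < ((n + 1 : ℕ) : On) := by exact_mod_cast Nat.lt_succ_self n
    refine (XV.base.cons (ih (h0.trans h))).mem_hull hp ((D.lv 0).and ((D.mem 1 0).and
      (((D.lv 0).imp (D.mem 2 0).not).ball 0))) (Lev_mem_Lev.2 h) fun w _ => ⟨?_, ?_⟩
    · rintro ⟨⟨o, ho⟩, h2, h3⟩
      have ho' : w = Lev o := ho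
      subst ho'
      have h4 : (n : On) < o := Lev_mem_Lev.1 h2
      have h5 : ((n + 1 : ℕ) : On) ≤ o := by
        rw [Nat.cast_succ]; exact Order.add_one_le_of_lt h4
      rcases h5.eq_or_lt with h6 | h6
      · rw [h6]
      · exact (h3 _ (Lev_mem_Lev.2 h6) ⟨_, rfl⟩ (Lev_mem_Lev.2 h0)).elim
    · rintro rfl
      refine ⟨⟨_, rfl⟩, Lev_mem_Lev.2 h0, ?_⟩
      rintro z hz ⟨o, ho⟩ h2
      have ho' : z = Lev o := ho
      subst ho'
      have h3 : o < ((n + 1 : ℕ) : On) := Lev_mem_Lev.1 hz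
      have h4 : (n : On) < o := Lev_mem_Lev.1 h2
      rw [Nat.cast_succ] at h3
      exact (Order.add_one_le_of_lt h4).not_gt h3

theorem crit (hI : ∀ c : Cardinal.{0}, ℵ₀ < c → c.IsRegular → ∃ d, c = Order.succ d)
    {k : On} (hc : ∀ μ ≤ k, ∀ F : On → On,
      (∀ a < μ, F a < k) → ∃ f ∈ Lev θ, ∀ a < μ, Val f (Lev a) (Lev (F a)))
    (hp : Good θ p) (hq : Good θ q) (hqp : ∀ i, q i ∈ Hull θ p) (hk : Lev k ∈ Hull θ q)
    {γ γ' : On} (hγ : γ ≤ γ')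
    (p1 : ∀ y, y ∈ Lev γ ↔ ∃ z ∈ Lev θ, z ∈ Hull θ p ∧ col (Hull θ p) z = y)
    (p2 : ∀ β' < γ, ∃ β < θ, Lev β ∈ Hull θ p ∧ col (Hull θ p) (Lev β) = Lev β')
    (q1 : ∀ y, y ∈ Lev γ' ↔ ∃ z ∈ Lev θ, z ∈ Hull θ q ∧ col (Hull θ q) z = y)
    (q2 : ∀ β' < γ', ∃ β < θ, Lev β ∈ Hull θ q ∧ col (Hull θ q) (Lev β) = Lev β')
    {e0 : On} (he0 : e0 < k) (he1 : Lev e0 ∈ Hull θ p) : Lev e0 ∈ Hull θ q := by
  classical
  by_contra he2
  have sub : ∀ {z}, z ∈ Hull θ q → z ∈ Hull θ p := hull_sub hp hqp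
  obtain ⟨ε, ⟨e1, e2⟩, emin⟩ := Ordinal.lt_wf.has_min
    {e | Lev e ∈ Hull θ p ∧ Lev e ∉ Hull θ q} ⟨e0, he1, he2⟩
  have e3 : ε < k := (not_lt.1 (emin e0 ⟨he1, he2⟩)).trans_lt he0
  have e4 : ∀ a < ε, Lev a ∈ Hull θ p → Lev a ∈ Hull θ q := fun a ha h =>
    by_contra fun h' => emin a ⟨h, h'⟩ ha
  obtain ⟨δ, ⟨d1, d2⟩, dmin⟩ := Ordinal.lt_wf.has_min
    {e | ε < e ∧ Lev e ∈ Hull θ q} ⟨k, e3, hk⟩
  have d3 : δ ≤ k := not_lt.1 (dmin k ⟨e3, hk⟩)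
  have d4 : ∀ a < δ, Lev a ∈ Hull θ q → a < ε := fun a ha h => by
    rcases lt_trichotomy a ε with h1 | h1 | h1
    · exact h1
    · exact (e2 (h1 ▸ h)).elim
    · exact (dmin a ⟨h1, h⟩ ha).elim
  have reg : ∀ μ < δ, ∀ f ∈ Lev θ, ¬ Cof f (Lev μ) (Lev δ) := by
    intro μ hμ f hf hcof
    obtain ⟨m, m1, m2, ⟨μ', m3⟩, m4⟩ := tv_below hq (Or.inr d2) (XV.base.cons d2)
      ((D.lv 0).and (D.cof 0 1 2).ex) ⟨Lev μ, Lev_mem_Lev.2 hμ, ⟨μ, rfl⟩, f, hf, hcof⟩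
    have m3' : m = Lev μ' := m3
    subst m3'
    obtain ⟨g, g1, g2⟩ := tv hq θ le_rfl _ ((XV.base.cons d2).cons m1) _ (D.cof 0 1 2) m4
    have g2' : Cof g (Lev μ') (Lev δ) := g2
    have h1 := d4 μ' (Lev_mem_Lev.1 m2) m1
    obtain ⟨a, a1, a2⟩ := g2' (Lev ε) (Lev_mem_Lev.2 d1) ⟨ε, rfl⟩
    obtain ⟨a', b1, b2, ⟨α, b3⟩, c, c1, ⟨ζ, c2⟩, c3, c4⟩ := tv_below hp (Or.inr (sub m1))
      (((XV.base.cons (sub d2)).cons (sub g1)).cons e1)
      ((D.lv 0).and (((D.lv 0).and ((D.val 3 1 0).and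
        ((D.mem 2 0).or (D.eq 2 0)))).bex 3)) ⟨a, a1, a2⟩
    have b3' : a' = Lev α := b3
    have c2' : c = Lev ζ := c2
    subst b3' c2'
    have c1' : ζ < δ := Lev_mem_Lev.1 c1
    have c3' : Val g (Lev α) (Lev ζ) := c3
    have h2 := e4 α ((Lev_mem_Lev.1 b2).trans h1) b1
    have h3 : Lev ζ ∈ Hull θ q := ((XV.base.cons g1).cons h2).mem_hull hq (D.pmem 1 0 2)
      (Lev_trans (Hull.lev d2) c1) fun w _ => ⟨fun h => c3'.2 w h, fun h => h ▸ c3'.1⟩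
    have h4 := d4 ζ c1' h3
    rcases c4 with h5 | h5
    · exact (Lev_mem_Lev.1 h5).not_gt h4
    · exact (Lev_inj (show Lev ε = Lev ζ from h5)).not_gt h4
  have hω : Ordinal.omega0 ≤ ε := by
    by_contra h
    obtain ⟨n, rfl⟩ := Ordinal.lt_omega0.1 (not_le.1 h)
    exact e2 (nat_hull hq n (Lev_mem_Lev.1 (Hull.lev e1)))
  have hcof : δ.cof.ord = δ := by
    refine (Ordinal.ord_cof_le δ).eq_or_lt.resolve_right fun h => ?_
    obtain ⟨F, hF⟩ := Ordinal.exists_isFundamentalSeq (o := δ) rfl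
    obtain ⟨f, f1, f2⟩ := hc δ.cof.ord (h.le.trans d3)
      (fun a => if ha : a < δ.cof.ord then (F ⟨a, ha⟩).1 else 0)
      (fun a ha => by rw [dif_pos ha]; exact (F ⟨a, ha⟩).2.trans_le d3)
    refine reg _ h f f1 ?_
    rintro _ hb ⟨b, rfl⟩
    obtain ⟨_, ⟨a, rfl⟩, h2⟩ := hF.isCofinal_range ⟨b, Lev_mem_Lev.1 hb⟩
    have h3 := f2 a.1 a.2
    rw [dif_pos (show a.1 < δ.cof.ord from a.2)] at h3
    refine ⟨_, Lev_mem_Lev.2 a.2, ⟨_, rfl⟩, _, Lev_mem_Lev.2 (F a).2, ⟨_, rfl⟩, h3, ?_⟩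
    rcases (show b ≤ (F a).1 from h2).eq_or_lt with h4 | h4
    · exact Or.inr (congrArg Lev h4)
    · exact Or.inl (Lev_mem_Lev.2 h4)
  have hal : ℵ₀ < δ.cof := by
    rw [← Cardinal.ord_lt_ord, hcof, Cardinal.ord_aleph0]
    exact hω.trans_lt d1
  obtain ⟨d, hd⟩ := hI δ.cof hal ⟨hal.le, by rw [hcof]⟩
  have hd1 : d.ord < δ := by
    rw [← hcof, Cardinal.ord_lt_ord, hd]; exact Order.lt_succ d
  have hsur : ∀ b ∈ Lev δ, (∃ o, b = Lev o) → ∃ f ∈ Lev θ, Sur f (Lev d.ord) b := by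
    rintro _ hb ⟨β, rfl⟩
    have hβ := Lev_mem_Lev.1 hb
    have h1 : β.card ≤ d := by
      rw [← Order.lt_succ_iff, ← hd, ← Cardinal.lt_ord, hcof]; exact hβ
    have h2 : #(Set.Iio β) ≤ #(Set.Iio d.ord) := by
      rw [Cardinal.mk_Iio_ordinal, Cardinal.mk_Iio_ordinal, Cardinal.lift_le, Cardinal.card_ord]
      exact h1
    obtain ⟨j⟩ := h2
    obtain ⟨f, f1, f2⟩ := hc d.ord (hd1.le.trans d3)
      (fun a => if ha : ∃ x : Set.Iio β, (j x).1 = a then ha.choose.1 else 0)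
      (fun a _ => by
        split_ifs with ha
        · exact (ha.choose.2.trans hβ).trans_le d3
        · exact (zero_le : 0 ≤ ε).trans_lt e3)
    refine ⟨f, f1, ?_⟩
    rintro _ hx ⟨x, rfl⟩
    have hx' : x < β := Lev_mem_Lev.1 hx
    have h3 := f2 (j ⟨x, hx'⟩).1 (j ⟨x, hx'⟩).2
    have ha : ∃ y : Set.Iio β, (j y).1 = (j ⟨x, hx'⟩).1 := ⟨_, rfl⟩
    rw [dif_pos ha, j.injective (Subtype.ext ha.choose_spec)] at h3
    exact ⟨_, Lev_mem_Lev.2 (j ⟨x, hx'⟩).2, ⟨_, rfl⟩, h3⟩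
  obtain ⟨m, m1, m2, ⟨μ, m3⟩, m4⟩ := tv_below hq (Or.inr d2) (XV.base.cons d2)
    ((D.lv 0).and (((D.lv 0).imp (D.sur 0 2 1).ex).ball 1))
    ⟨Lev d.ord, Lev_mem_Lev.2 hd1, ⟨_, rfl⟩, hsur⟩
  have m3' : m = Lev μ := m3
  subst m3'
  have hμ := Lev_mem_Lev.1 m2
  obtain ⟨f, f1, f2⟩ := tv hp θ le_rfl _ ((XV.base.cons (sub m1)).cons e1) _ (D.sur 0 2 1)
    (m4 (Lev ε) (Lev_mem_Lev.2 d1) ⟨ε, rfl⟩)
  have f3 : Sur (col (Hull θ p) f) (col (Hull θ p) (Lev μ)) (col (Hull θ p) (Lev ε)) :=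
    (elem hp p1 p2 (D.sur 0 2 1) (((XV.base.cons (sub m1)).cons e1).cons f1)).1 f2
  obtain ⟨g, _, g1, g2⟩ := (q1 _).1 (Lev_mono hγ ((p1 _).2 ⟨f, Hull.lev f1, f1, rfl⟩))
  have same : ∀ a, a < ε → Lev a ∈ Hull θ q → col (Hull θ p) (Lev a) = col (Hull θ q) (Lev a) := by
    intro a
    induction a using WellFoundedLT.induction with
    | _ a ih =>
    intro ha h
    obtain ⟨a1, h1, h2⟩ := col_lev hp (sub h)
    obtain ⟨a2, h3, h4⟩ := col_lev hq h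
    rw [h1, h3]
    congr 1
    refine eq_of_forall_lt_iff fun c => ?_
    rw [h2, h4]
    constructor
    · rintro ⟨b, h5, h6, h7⟩
      have h8 := e4 b (h5.trans ha) h6
      exact ⟨b, h5, h8, (ih b h5 (h5.trans ha) h8).symm.trans h7⟩
    · rintro ⟨b, h5, h6, h7⟩
      exact ⟨b, h5, sub h6, (ih b h5 (h5.trans ha) h6).trans h7⟩
  have g3 : Sur (col (Hull θ q) g) (col (Hull θ q) (Lev μ)) (col (Hull θ q) (Lev δ)) := by
    rw [g2, ← same μ (d4 μ hμ m1) m1]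
    rintro _ hb ⟨b, rfl⟩
    refine f3 _ ?_ ⟨b, rfl⟩
    obtain ⟨δ', h1, h2⟩ := col_lev hq d2
    rw [h1] at hb
    obtain ⟨a, h3, h4, h5⟩ := (h2 b).1 (Lev_mem_Lev.1 hb)
    rw [← h5, ← same a (d4 a h3 h4) h4]
    exact (col_mem hp (sub h4)).2 (Lev_mem_Lev.2 (d4 a h3 h4))
  have g4 : Sur g (Lev μ) (Lev δ) :=
    (elem hq q1 q2 (D.sur 0 2 1) (((XV.base.cons m1).cons d2).cons g1)).2 g3
  exact reg μ hμ g (Hull.lev g1) g4.cof

theorem no_free (hL : VeqL)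
    (hI : ∀ c : Cardinal.{0}, ℵ₀ < c → c.IsRegular → ∃ d, c = Order.succ d) (κ : Type) :
    ∃ F : Finset κ → Set κ, (∀ G, (F G).Countable) ∧ ∀ a : ℕ → κ, Function.Injective a →
      ∃ k, ∃ G : Finset κ, (G : Set κ) ⊆ a '' {j | j ≠ k} ∧ a k ∈ F G := by
  classical
  obtain ⟨r, wo, -⟩ := Cardinal.exists_ord_eq κ
  let o : κ → On := fun a => Ordinal.typein r a
  have ho : Function.Injective o := (Ordinal.typein r).injective
  have hk : ∀ a, o a < Ordinal.type r := fun a => Ordinal.typein_lt_type r a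
  obtain ⟨θ, hθ, hc⟩ := code hL (Ordinal.type r)
  let K : V := Lev (Ordinal.type r)
  refine ⟨fun G => ⋃ n : ℕ, ⋃ u ∈ {u : Fin n → κ | ∀ i, u i ∈ (G : Set κ)},
    {a | Lev (o a) ∈ Hull θ (sc K (app (fun i => Lev (o (u i))) fun _ => K))}, fun G => ?_,
    fun a ha => ?_⟩
  · refine Set.countable_iUnion fun n => (Set.countable_pi fun _ => G.countable_toSet).biUnion
      fun u _ => ?_
    exact (Hull.countable θ _).preimage (Lev_inj.comp ho)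
  let P : ℕ → ℕ → V := fun n => sc K fun i => Lev (o (a (i + n)))
  have hP : ∀ n, Good θ (P n) := fun n =>
    Good.sc (fun i => Lev_mem_Lev.2 ((hk _).trans hθ)) (Lev_mem_Lev.2 hθ)
  choose γ h1 h2 using fun n => cond (hP n) θ le_rfl (Or.inl rfl)
  obtain ⟨_, ⟨n, rfl⟩, hmin⟩ := Ordinal.lt_wf.has_min (Set.range γ) ⟨_, 0, rfl⟩
  have h3 : Lev (o (a n)) ∈ Hull θ (P (n + 1)) := by
    refine crit hI hc (hP n) (hP (n + 1)) (fun i => ?_) (XV.base.mem (hP _) 0)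
      (not_lt.1 (hmin _ ⟨n + 1, rfl⟩)) (h1 n) (h2 n) (h1 _) (h2 _) (hk _) ?_
    · cases i with
      | zero => exact XV.base.mem (hP n) 0
      | succ i =>
        have := XV.base.mem (hP n) (i + 2)
        have e : i + (n + 1) = i + 1 + n := by omega
        show Lev (o (a (i + (n + 1)))) ∈ _
        rw [e]
        exact this
    · have := XV.base.mem (hP n) 1
      have e : n = 0 + n := by omega
      rw [e]
      rw [e] at this
      simpa [P] using this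
  obtain ⟨m, hm⟩ := hull_supp h3
  refine ⟨n, Finset.univ.image fun i : Fin m => a (i + (n + 1)), ?_, Set.mem_iUnion.2 ⟨m,
    Set.mem_iUnion₂.2 ⟨fun i => a (i + (n + 1)), fun i => by simp, hm _ fun i hi => ?_⟩⟩⟩
  · intro x hx
    obtain ⟨i, _, rfl⟩ := Finset.mem_image.1 hx
    exact ⟨i + (n + 1), by show _ ≠ _; omega, rfl⟩
  · cases i with
    | zero => rfl
    | succ i =>
      exact (app_left (fun i : Fin m => Lev (o (a (i + (n + 1))))) _ ⟨i, by omega⟩).symm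

end Pool.Agent.H450Z.GL
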