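import Pool.Agent.H450Z.GLCol

set_option autoImplicit false

namespace Pool.Agent.H450Z.GL

noncomputable def en : ℕ → Fm := (exists_surjective_nat Fm).choose

theorem en_surj : Function.Surjective en := (exists_surjective_nat Fm).choose_spec

def st {α : Type*} (a b c : α) : ℕ → α := sc a (sc b fun _ => c)

/-- the two formulas coded by `n` define elements, the first belongs to the second -/
def Bit (n : ℕ) (θ : On) (p : ℕ → V) : Prop :=
  ∃ w1 w2, Defines θ p (en n.unpair.1) w1 ∧ Defines θ p (en n.unpair.2) w2 ∧ w1 ∈ w2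

theorem D.defines (φ : Fm) (k : ℕ) :
    D fun θ r => ∀ w ∈ Lev θ, Fm.Sat θ φ (sc w fun i => r (i + 2)) ↔ w = r k := by
  refine ((D.sat φ (sc 0 fun i => i + 3)).iff (D.eq 0 (k + 1))).all.congr fun θ r _ => ?_
  refine forall_congr' fun w => forall_congr' fun _ => ?_
  rw [comp_sc (sc w r)]
  rfl

theorem D.bit (n : ℕ) : D (Bit n) := by
  refine ((D.defines (en n.unpair.1) 1).and ((D.defines (en n.unpair.2) 0).and
    (D.mem 1 0))).ex.ex.congr fun θ p _ => ?_
  exact ⟨fun ⟨w1, h1, w2, h2, h3, h4, h5⟩ => ⟨w1, w2, ⟨h1, h3⟩, ⟨h2, h4⟩, h5⟩,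
    fun ⟨w1, w2, ⟨h1, h3⟩, ⟨h2, h4⟩, h5⟩ => ⟨w1, h1, w2, h2, h3, h4, h5⟩⟩

/-- `r 0` is the code of the first `n` moves of TWO -/
def Cd : ℕ → On → (ℕ → V) → Prop
  | 0, _, r => ∀ z ∈ r 0, ¬ z = z
  | n + 1, θ, r => ∃ u ∈ Lev θ, ∃ f ∈ Lev θ, Cd n θ (st u (r 1) (r 2)) ∧
      (∀ z ∈ Lev θ, z ∈ f ↔ z ∈ r 2 ∧ Bit n θ (st (r 1) (r 2) z)) ∧ r 0 = ZFSet.pair u f

theorem comp_st {α β : Type*} (f : α → β) (a b c : α) :
    (fun i => f (st a b c i)) = st (f a) (f b) (f c) := by
  funext i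
  rcases i with _ | _ | i <;> rfl

theorem D.cd : ∀ n, D (Cd n)
  | 0 => (D.eq 0 0).not.ball 0
  | n + 1 => by
    refine (((D.cd n).ren (st 1 3 4)).and ((((D.mem 0 1).iff ((D.mem 0 5).and
      ((D.bit n).ren (st 4 5 0)))).all).and (D.pair 2 1 0))).ex.ex.congr fun θ r _ => ?_
    simp only [comp_st]
    rfl

/-- the move of ONE -/
def XB (n : ℕ) (θ : On) (p : ℕ → V) : Prop :=
  ∃ c ∈ Lev θ, ∃ q ∈ Lev θ, Cd n θ (st c (p 0) (p 1)) ∧ q = ZFSet.pair c (p 2) ∧ q ∈ p 0

theorem D.xb (n : ℕ) : D (XB n) := by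
  refine (((D.cd n).ren (st 1 2 3)).and ((D.pair 0 1 4).and (D.mem 0 2))).ex.ex.congr
    fun θ r _ => ?_
  simp only [comp_st]
  rfl

def Phi (γ : On) : Set (ℕ → Prop) :=
  {x | ({y | y ∈ Lev γ} : Set V).Countable ∧ ∃ a ∈ Lev γ, ∃ b ∈ Lev γ, ∃ c ∈ Lev γ,
    x = fun n => XB n γ (st a b c)}

theorem Phi_countable (γ : On) : (Phi γ).Countable := by
  by_cases h : ({y | y ∈ Lev γ} : Set V).Countable
  · refine ((h.prod (h.prod h)).image
      fun t : V × V × V => fun n => XB n γ (st t.1 t.2.1 t.2.2)).mono ?_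
    rintro x ⟨_, a, ha, b, hb, c, hc, rfl⟩
    exact ⟨(a, b, c), ⟨ha, hb, hc⟩, rfl⟩
  · refine Set.countable_empty.mono ?_
    rintro x ⟨h1, _⟩
    exact h h1

/-- the plays won by TWO -/
def NN (x y : ℕ → Prop) : Prop :=
  WellFounded (fun i j => y (Nat.pair i j)) ∧ ∃ γ, x ∈ Phi γ ∧ ∃ g : On → ℕ,
    ∀ β1 β2, β1 < β2 → β2 < γ → y (Nat.pair (g β1) (g β2))

theorem no_two (τ : ℕ → (ℕ → Prop) → Prop)
    (hτ : ∀ n x x', (∀ i ≤ n, x i ↔ x' i) → τ n x → τ n x') : ∃ x, ¬ NN x fun n => τ n x := by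
  classical
  by_contra hall
  push Not at hall
  let T : Finset ℕ × ℕ × ℕ → Finset ℕ × ℕ × ℕ → Prop := fun a b =>
    b.2.1 < a.2.1 ∧ (∀ i < b.2.1, i ∈ a.1 ↔ i ∈ b.1) ∧ Nat.pair a.2.2 b.2.2 < a.2.1 ∧
      τ (Nat.pair a.2.2 b.2.2) (· ∈ a.1)
  have hT : WellFounded T := by
    rw [wellFounded_iff_isEmpty_descending_chain]
    refine ⟨fun ⟨c, hc⟩ => ?_⟩
    have hmono : StrictMono fun n => (c n).2.1 := strictMono_nat_of_lt_succ fun n => (hc n).1
    have hag : ∀ n n', n ≤ n' → ∀ i < (c n).2.1, i ∈ (c n').1 ↔ i ∈ (c n).1 := by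
      intro n n' h i hi
      induction n', h using Nat.le_induction with
      | base => rfl
      | succ m hm ih => exact ((hc m).2.1 i (hi.trans_le (hmono.monotone hm))).trans ih
    let x : ℕ → Prop := fun i => i ∈ (c (i + 1)).1
    have hx : ∀ n, ∀ i < (c n).2.1, i ∈ (c n).1 ↔ x i := by
      intro n i hi
      have h1 : i < (c (i + 1)).2.1 := (Nat.lt_succ_self i).trans_le (hmono.le_apply (x := i + 1))
      exact (hag n _ (le_max_left n (i + 1)) i hi).symm.trans
        (hag (i + 1) _ (le_max_right n (i + 1)) i h1)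
    have := wellFounded_iff_isEmpty_descending_chain.1 (hall x).1
    exact this.false ⟨fun n => (c n).2.2, fun n => hτ _ _ _
      (fun i hi => hx (n + 1) i (hi.trans_lt (hc n).2.2.1)) (hc n).2.2.2⟩
  have : IsWellFounded _ T := ⟨hT⟩
  let Rg : Set On := Set.range (IsWellFounded.rank T)
  have hRg : Rg.Countable := Set.countable_range _
  let Γ : Set On := {γ | ∀ β < γ, β ∈ Rg}
  have hΓ : Γ.Countable := by
    refine (hRg.union (Set.Subsingleton.countable (s := {γ | γ ∈ Γ ∧ γ ∉ Rg}) ?_)).mono ?_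
    · rintro a ⟨h1, h2⟩ b ⟨h3, h4⟩
      rcases lt_trichotomy a b with h | h | h
      · exact (h2 (h3 a h)).elim
      · exact h
      · exact (h4 (h1 b h)).elim
    · intro γ h
      by_cases h1 : γ ∈ Rg
      · exact Or.inl h1
      · exact Or.inr ⟨h, h1⟩
  have hU : (Set.univ : Set (ℕ → Prop)).Countable := by
    refine (hΓ.biUnion fun γ _ => Phi_countable γ).mono fun x _ => ?_
    obtain ⟨_, γ, h1, g, hg⟩ := hall x
    refine Set.mem_biUnion (x := γ) ?_ h1
    have key : ∀ β < γ, ∀ k,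
        β ≤ IsWellFounded.rank T ((Finset.range k).filter x, k, g β) := by
      intro β
      induction β using WellFoundedLT.induction with
      | _ β ih =>
      intro hβ k
      by_contra h2
      have h3 := not_le.1 h2
      set β1 := IsWellFounded.rank T ((Finset.range k).filter x, k, g β) with hβ1
      let k' := max k (Nat.pair (g β1) (g β)) + 1
      have h4 : T ((Finset.range k').filter x, k', g β1) ((Finset.range k).filter x, k, g β) := by
        refine ⟨Nat.lt_succ_of_le (le_max_left _ _), fun i hi => ?_,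
          Nat.lt_succ_of_le (le_max_right _ _), hτ _ x _ (fun i hi => ?_) (hg β1 β h3 hβ)⟩
        · have : i < k' := hi.trans (Nat.lt_succ_of_le (le_max_left _ _))
          simp only [Finset.mem_filter, Finset.mem_range]
          exact ⟨fun h => ⟨hi, h.2⟩, fun h => ⟨this, h.2⟩⟩
        · have : i < k' := Nat.lt_succ_of_le (hi.trans (le_max_right _ _))
          simp only [Finset.mem_filter, Finset.mem_range]
          exact ⟨fun h => ⟨this, h⟩, fun h => h.2⟩
      exact (IsWellFounded.rank_lt_of_rel h4).not_ge (ih β1 h3 (h3.trans hβ) k')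
    exact fun β hβ => IsWellFounded.mem_range_rank_of_le (key β hβ 0)
  obtain ⟨f, hf⟩ := hU.exists_eq_range ⟨fun _ => True, trivial⟩
  exact Function.cantor_surjective (α := ℕ) f (Set.range_eq_univ.1 hf.symm)

theorem pair_lev {θ : On} {x y : V} (h : ZFSet.pair x y ∈ Lev θ) : x ∈ Lev θ ∧ y ∈ Lev θ := by
  have : ({x, y} : V) ∈ Lev θ := Lev_trans h (by simp [ZFSet.pair])
  exact ⟨Lev_trans this (by simp), Lev_trans this (by simp)⟩

section code

variable {K : Type} (k : K → V)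

noncomputable def hat (f : K → Prop) : V :=
  ZFSet.sep (fun z => ∃ a, k a = z ∧ f a) (ZFSet.range k)

theorem mem_hat {f : K → Prop} {z : V} : z ∈ hat k f ↔ ∃ a, k a = z ∧ f a := by
  rw [hat, ZFSet.mem_sep, ZFSet.mem_range]
  exact ⟨fun h => h.2, fun ⟨a, h1, h2⟩ => ⟨⟨a, h1⟩, a, h1, h2⟩⟩

theorem hat_inj (hk : Function.Injective k) {f g : K → Prop} (h : hat k f = hat k g) :
    f = g := by
  have : ∀ f g : K → Prop, hat k f = hat k g → ∀ a, f a → g a := by
    intro f g h a ha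
    obtain ⟨b, h1, h2⟩ := (mem_hat k).1 (h ▸ (mem_hat k).2 ⟨a, rfl, ha⟩)
    rwa [← hk h1]
  exact funext fun a => propext ⟨this f g h a, this g f h.symm a⟩

noncomputable def code (F : ℕ → K → Prop) : ℕ → V
  | 0 => ∅
  | n + 1 => ZFSet.pair (code F n) (hat k (F n))

theorem pair_ne (x y : V) : ZFSet.pair x y ≠ ∅ := fun h => by
  have : ({x} : V) ∈ ZFSet.pair x y := by simp [ZFSet.pair]
  rw [h] at this
  exact ZFSet.notMem_empty _ this

theorem code_inj (hk : Function.Injective k) {F G : ℕ → K → Prop} :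
    ∀ n m, code k F n = code k G m → n = m ∧ ∀ i < n, F i = G i
  | 0, 0, _ => ⟨rfl, fun _ h => (Nat.not_lt_zero _ h).elim⟩
  | 0, _ + 1, h => (pair_ne _ _ h.symm).elim
  | _ + 1, 0, h => (pair_ne _ _ h).elim
  | n + 1, m + 1, h => by
    obtain ⟨h1, h2⟩ := ZFSet.pair_inj.1 h
    obtain ⟨rfl, h3⟩ := code_inj hk n m h1
    refine ⟨rfl, fun i hi => ?_⟩
    rcases (Nat.lt_succ_iff.1 hi).eq_or_lt with rfl | h4
    · exact hat_inj k hk h2
    · exact h3 i h4

end code

theorem two_beats (hL : VeqL) (K : Type) (σ : ℕ → (ℕ → K → Prop) → K → Prop)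
    (hσ : ∀ n F G, (∀ i < n, F i = G i) → σ n F = σ n G) :
    ∃ F : ℕ → K → Prop, ∀ a, NN (fun n => σ n F a) fun n => F n a := by
  classical
  let k : K → V := fun a => Lev (embeddingToCardinal a).ord
  have hk : Function.Injective k := fun a b h =>
    embeddingToCardinal.injective (Cardinal.ord_injective (Lev_inj h))
  let Kh := ZFSet.range k
  let sh : V := ZFSet.range fun t : {t : ℕ × (ℕ → K → Prop) × K // σ t.1 t.2.1 t.2.2} =>
    ZFSet.pair (code k t.1.2.1 t.1.1) (k t.1.2.2)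
  have hsh : ∀ F n a, ZFSet.pair (code k F n) (k a) ∈ sh ↔ σ n F a := by
    intro F n a
    rw [ZFSet.mem_range]
    refine ⟨?_, fun h => ⟨⟨(n, F, a), h⟩, rfl⟩⟩
    rintro ⟨⟨⟨m, G, b⟩, h1⟩, h2⟩
    obtain ⟨h3, h4⟩ := ZFSet.pair_inj.1 h2
    obtain ⟨h5, h6⟩ := code_inj k hk _ _ h3
    have h7 : b = a := hk h4
    have h8 : m = n := h5
    subst h7 h8
    rwa [← hσ m G F h6]
  let W : V := ZFSet.range fun t : ℕ × (ℕ → K → Prop) × K =>
    ZFSet.pair (code k t.2.1 t.1) (k t.2.2)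
  obtain ⟨θ1, h1⟩ := hL sh
  obtain ⟨θ2, h2⟩ := hL Kh
  obtain ⟨θ3, h3⟩ := hL W
  let θ := max θ1 (max θ2 θ3)
  have hs : sh ∈ Lev θ := Lev_mono (le_max_left _ _) h1
  have hK : Kh ∈ Lev θ := Lev_mono ((le_max_left _ _).trans (le_max_right _ _)) h2
  have hW : ∀ F n a, ZFSet.pair (code k F n) (k a) ∈ Lev θ := fun F n a =>
    Lev_trans (Lev_mono ((le_max_right _ _).trans (le_max_right _ _)) h3)
      (ZFSet.mem_range.2 ⟨(n, F, a), rfl⟩)
  let F : ℕ → K → Prop := fun n a => Bit n θ (st sh Kh (k a))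
  refine ⟨F, fun a => ?_⟩
  have hp : Good θ (st sh Kh (k a)) := fun i => by
    rcases i with _ | _ | i
    · exact hs
    · exact hK
    · exact (pair_lev (hW F 0 a)).2
  have hhat : ∀ n, ∀ z, z ∈ hat k (F n) ↔ z ∈ Kh ∧ Bit n θ (st sh Kh z) := by
    intro n z
    rw [mem_hat, ZFSet.mem_range]
    constructor
    · rintro ⟨b, rfl, h⟩
      exact ⟨⟨b, rfl⟩, h⟩
    · rintro ⟨⟨b, rfl⟩, h⟩
      exact ⟨b, rfl, h⟩
  have hCd : ∀ n c, Cd n θ (st c sh Kh) ↔ c = code k F n := by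
    intro n
    induction n with
    | zero =>
      intro c
      refine ⟨fun h => (ZFSet.eq_empty c).2 fun z hz => h z hz rfl, ?_⟩
      rintro rfl z hz
      exact (ZFSet.notMem_empty _ hz).elim
    | succ n ih =>
      intro c
      constructor
      · rintro ⟨u, _, f, hf, h4, h5, h6⟩
        have h7 : f = hat k (F n) := ZFSet.ext fun z => Iff.trans
          ⟨fun hz => (h5 z (Lev_trans hf hz)).1 hz, fun hz => (h5 z (Lev_trans hK hz.1)).2 hz⟩
          (hhat n z).symm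
        rw [(ih u).1 h4, h7] at h6
        exact h6
      · rintro rfl
        have h4 := pair_lev (pair_lev (hW F (n + 1) a)).1
        exact ⟨_, h4.1, _, h4.2, (ih _).2 rfl, fun z _ => hhat n z, rfl⟩
  have hXB : ∀ n, XB n θ (st sh Kh (k a)) ↔ σ n F a := by
    intro n
    constructor
    · rintro ⟨c, _, q, _, h4, h5, h6⟩
      rw [h5, (hCd n c).1 h4] at h6
      exact (hsh F n a).1 h6
    · intro h
      exact ⟨_, (pair_lev (hW F n a)).1, _, hW F n a, (hCd n _).2 rfl, rfl, (hsh F n a).2 h⟩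
  obtain ⟨γ, π, h4, h5, h6, g, hg⟩ := condense hp
  refine ⟨?_, γ, ⟨h6, _, h5 0, _, h5 1, _, h5 2, funext fun n => propext ?_⟩,
    fun β => Function.surjInv en_surj (g β), fun β1 β2 h7 h8 => ?_⟩
  · let val : ℕ → V := fun i =>
      if h : ∃ w, Defines θ (st sh Kh (k a)) (en i) w then h.choose else ∅
    have hval : ∀ i w, Defines θ (st sh Kh (k a)) (en i) w → val i = w := by
      intro i w h
      have h' : ∃ w, Defines θ (st sh Kh (k a)) (en i) w := ⟨w, h⟩
      simp only [val, dif_pos h']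
      exact h'.choose_spec.unique h
    refine Subrelation.wf ?_ (InvImage.wf val ZFSet.mem_wf)
    rintro i j ⟨w1, w2, h7, h8, h9⟩
    rw [Nat.unpair_pair] at h7 h8
    show val i ∈ val j
    rwa [hval i _ h7, hval j _ h8]
  · rw [← hXB, h4 _ (D.xb n), comp_st]
    rfl
  · obtain ⟨w1, w2, h9⟩ := hg β1 β2 h7 h8
    refine ⟨w1, w2, ?_⟩
    simp only [Nat.unpair_pair, Function.surjInv_eq]
    exact h9

/-- the history of a play -/
def hist {α : Type} (mv : ℕ → List α → α) : ℕ → List α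
  | 0 => []
  | n + 1 => hist mv n ++ [mv n (hist mv n)]

theorem hist_eq {α : Type} (mv : ℕ → List α → α) :
    ∀ n, hist mv n = List.ofFn fun i : Fin n => mv i (hist mv i)
  | 0 => rfl
  | n + 1 => by
    rw [List.ofFn_succ_last, hist]
    congr 1
    exact hist_eq mv n

theorem hist_congr {α : Type} {mv mv' : ℕ → List α → α} :
    ∀ n, (∀ i < n, mv i = mv' i) → hist mv n = hist mv' n
  | 0, _ => rfl
  | n + 1, h => by
    rw [hist, hist, hist_congr n fun i hi => h i (hi.trans (Nat.lt_succ_self n)),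
      h n (Nat.lt_succ_self n)]

theorem undetermined (hL : VeqL) (L : Type) [Nontrivial L] : ∃ A : Set (ℕ → L),
    ∀ K : Type, Nonempty K →
      ¬ (∃ σ : List (K → L) → (K → L), ∀ f : ℕ → K → L,
          (∀ n : ℕ, f (2 * n) = σ (List.ofFn (fun i : Fin (2 * n) => f i.val))) →
            ∃ α : K, (fun n : ℕ => f n α) ∈ A) ∧
      ¬ (∃ τ : List (K → L) → (K → L), ∀ f : ℕ → K → L,
          (∀ n : ℕ, f (2 * n + 1) = τ (List.ofFn (fun i : Fin (2 * n + 1) => f i.val))) →
            ∀ α : K, (fun n : ℕ => f n α) ∉ A) := by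
  classical
  obtain ⟨l0, l1, hl⟩ := exists_pair_ne L
  let s : Prop → L := fun P => if P then l1 else l0
  have hs : ∀ P, (s P = l1) = P := fun P => by
    by_cases h : P <;> simp [s, h, hl]
  have e1 : ∀ n, Even (2 * n) := fun n => even_two_mul n
  have e2 : ∀ n, ¬ Even (2 * n + 1) := fun n => Nat.not_even_iff_odd.2 (odd_two_mul_add_one n)
  refine ⟨{z | ¬ NN (fun n => z (2 * n) = l1) fun n => z (2 * n + 1) = l1}, fun K ⟨a0⟩ =>
    ⟨?_, ?_⟩⟩
  · rintro ⟨σ, hσ⟩
    let mv : (ℕ → K → Prop) → ℕ → List (K → L) → K → L := fun F k l =>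
      if Even k then σ l else fun a => s (F (k / 2) a)
    obtain ⟨F, hF⟩ := two_beats hL K (fun n F a => σ (hist (mv F) (2 * n)) a = l1) (by
      intro n F G h
      rw [hist_congr (mv' := mv G) (2 * n) fun i hi => ?_]
      simp only [mv, h (i / 2) (by omega)])
    obtain ⟨a, ha⟩ := hσ (fun k => mv F k (hist (mv F) k)) fun n => by
      rw [← hist_eq]
      simp only [mv, if_pos (e1 n)]
    refine ha ?_
    have := hF a
    simp only [mv, if_pos (e1 _), if_neg (e2 _), hs, Nat.mul_add_div (show 2 > 0 by omega),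
      Nat.reduceDiv, add_zero] at this ⊢
    exact this
  · rintro ⟨τ, hτ⟩
    let mv : (ℕ → Prop) → ℕ → List (K → L) → K → L := fun x k l =>
      if Even k then fun _ => s (x (k / 2)) else τ l
    obtain ⟨x, hx⟩ := no_two (fun n x => τ (hist (mv x) (2 * n + 1)) a0 = l1) (by
      intro n x x' h
      rw [hist_congr (mv' := mv x') (2 * n + 1) fun i hi => ?_]
      · exact id
      · simp only [mv, h (i / 2) (by omega)])
    refine hτ (fun k => mv x k (hist (mv x) k)) (fun n => ?_) a0 ?_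
    · rw [← hist_eq]
      simp only [mv, if_neg (e2 n)]
    · simp only [mv, if_pos (e1 _), if_neg (e2 _), hs, Set.mem_setOf_eq,
        Nat.mul_div_cancel_left _ (show 0 < 2 by omega)] at hx ⊢
      exact hx

end Pool.Agent.H450Z.GL
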