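import Pool.Agent.H450Z.GLBasic

set_option autoImplicit false

namespace Pool.Agent.H450Z.GL

/-- prepend a finite tuple -/
def app : {n : ℕ} → (Fin n → V) → (ℕ → V) → ℕ → V
  | 0, _, v => v
  | _ + 1, u, v => sc (u 0) (app (fun i => u i.succ) v)

theorem app_left : ∀ {n : ℕ} (u : Fin n → V) (v : ℕ → V) (i : Fin n), app u v i = u i
  | 0, _, _, i => i.elim0
  | _ + 1, u, v, i => by
    refine Fin.cases rfl (fun j => ?_) i
    exact app_left (fun i => u i.succ) v j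

theorem app_right : ∀ {n : ℕ} (u : Fin n → V) (v : ℕ → V) (i : ℕ), app u v (i + n) = v i
  | 0, _, _, _ => rfl
  | _ + 1, u, v, i => app_right (fun i => u i.succ) v i

theorem D.bexn (m : ℕ) : ∀ (n : ℕ) {Q : On → (ℕ → V) → Prop}, D Q →
    D fun θ v => ∃ u : Fin n → V, (∀ i, u i ∈ v m) ∧ Q θ (app u v)
  | 0, Q, h => h.congr fun _ _ _ =>
      ⟨fun h => ⟨Fin.elim0, fun i => i.elim0, h⟩, fun ⟨_, _, h⟩ => h⟩
  | n + 1, Q, h => by
    refine (D.bexn m n (h.bex (m + n))).congr fun θ v _ => ?_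
    simp only [app_right]
    constructor
    · rintro ⟨u, hu, z, hz, h⟩
      exact ⟨Fin.cons z u, fun i => Fin.cases hz hu i, h⟩
    · rintro ⟨u, hu, h⟩
      exact ⟨fun i => u i.succ, fun i => hu _, u 0, hu 0, h⟩

variable {θ : On} {p : ℕ → V}

def Defines (θ : On) (p : ℕ → V) (φ : Fm) (z : V) : Prop :=
  z ∈ Lev θ ∧ ∀ w ∈ Lev θ, Fm.Sat θ φ (sc w p) ↔ w = z

def Hull (θ : On) (p : ℕ → V) : Set V := {z | ∃ φ, Defines θ p φ z}

theorem Hull.lev {z : V} (h : z ∈ Hull θ p) : z ∈ Lev θ := h.choose_spec.1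

theorem Defines.unique {φ : Fm} {z z' : V} (h : Defines θ p φ z) (h' : Defines θ p φ z') :
    z = z' := (h'.2 z h.1).1 ((h.2 z h.1).2 rfl)

theorem Hull.countable (θ : On) (p : ℕ → V) : (Hull θ p).Countable := by
  have : Hull θ p = ⋃ φ, {z | Defines θ p φ z} := by
    ext z; simp [Hull]
  rw [this]
  exact Set.countable_iUnion fun φ =>
    Set.Subsingleton.countable fun _ h _ h' => Defines.unique h h'

inductive XV (θ : On) (p : ℕ → V) : (ℕ → V) → Prop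
  | base : XV θ p p
  | cons {v : ℕ → V} {z : V} : XV θ p v → z ∈ Hull θ p → XV θ p (sc z v)

theorem XV.good (hp : Good θ p) {v : ℕ → V} (h : XV θ p v) : Good θ v := by
  induction h with
  | base => exact hp
  | cons _ hz ih => exact ih.sc (Hull.lev hz)

theorem XV.shift {v : ℕ → V} (h : XV θ p v) : ∃ f : ℕ → ℕ, ∀ i, v (f i) = p i := by
  induction h with
  | base => exact ⟨id, fun _ => rfl⟩
  | cons _ _ ih =>
    obtain ⟨f, hf⟩ := ih
    exact ⟨fun i => f i + 1, hf⟩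

theorem XV.app : ∀ {n : ℕ} {u : Fin n → V} {v : ℕ → V}, XV θ p v → (∀ i, u i ∈ Hull θ p) →
    XV θ p (app u v)
  | 0, _, _, h, _ => h
  | _ + 1, _, _, h, hu => XV.cons (XV.app h fun _ => hu _) (hu 0)

theorem XV.subst (hp : Good θ p) {v : ℕ → V} (h : XV θ p v) : ∀ {Q : On → (ℕ → V) → Prop}, D Q →
    ∃ φ : Fm, ∀ w ∈ Lev θ, Fm.Sat θ φ (sc w p) ↔ Q θ (sc w v) := by
  induction h with
  | base =>
    rintro Q ⟨φ, hφ⟩
    exact ⟨φ, fun w hw => hφ θ _ (hp.sc hw)⟩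
  | @cons v u hv hu ih =>
    intro Q hQ
    obtain ⟨f, hf⟩ := hv.shift
    obtain ⟨χ, hu1, hu2⟩ := hu
    obtain ⟨φ, hφ⟩ := ih ((D.sat χ (sc 0 fun i => f i + 2)).and
      (hQ.ren (sc 1 (sc 0 fun i => i + 2)))).ex
    refine ⟨φ, fun w hw => (hφ w hw).trans ?_⟩
    have e1 : ∀ z : V, (fun i => sc z (sc w v) (sc 0 (fun i => f i + 2) i)) = sc z p := by
      intro z
      funext i
      cases i with
      | zero => rfl
      | succ i => exact hf i
    have e2 : ∀ z : V, (fun i => sc z (sc w v) (sc 1 (sc 0 fun i => i + 2) i)) =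
        sc w (sc z v) := by
      intro z
      funext i
      rcases i with _ | _ | i <;> rfl
    simp only [e1, e2]
    constructor
    · rintro ⟨z, hz, h1, h2⟩
      rwa [(hu2 z hz).1 h1] at h2
    · intro h
      exact ⟨u, hu1, (hu2 u hu1).2 rfl, h⟩

theorem XV.mem_hull (hp : Good θ p) {v : ℕ → V} (h : XV θ p v) {Q : On → (ℕ → V) → Prop}
    (hQ : D Q) {z : V} (hz : z ∈ Lev θ) (hu : ∀ w ∈ Lev θ, Q θ (sc w v) ↔ w = z) :
    z ∈ Hull θ p := by
  obtain ⟨φ, hφ⟩ := h.subst hp hQ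
  exact ⟨φ, hz, fun w hw => (hφ w hw).trans (hu w hw)⟩

theorem XV.mem (hp : Good θ p) {v : ℕ → V} (h : XV θ p v) (i : ℕ) : v i ∈ Hull θ p :=
  h.mem_hull hp (D.eq 0 (i + 1)) (h.good hp i) fun _ _ => Iff.rfl

/-- witnesses from the level `β` can be found in the hull -/
def TV (θ : On) (p : ℕ → V) (β : On) : Prop :=
  ∀ v, XV θ p v → ∀ Q : On → (ℕ → V) → Prop, D Q → (∃ z ∈ Lev β, Q θ (sc z v)) →
    ∃ z ∈ Hull θ p, Q θ (sc z v)

theorem TV.tuple {β : On} (h : TV θ p β) {v : ℕ → V} (hv : XV θ p v) {m : ℕ} (hm : v m = Lev β) :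
    ∀ (n : ℕ) (Q : On → (ℕ → V) → Prop), D Q →
      (∃ u : Fin n → V, (∀ i, u i ∈ Lev β) ∧ Q θ (app u v)) →
      ∃ u : Fin n → V, (∀ i, u i ∈ Hull θ p ∧ u i ∈ Lev β) ∧ Q θ (app u v)
  | 0, _, _, ⟨u, _, h⟩ => ⟨u, fun i => i.elim0, h⟩
  | n + 1, Q, hQ, ⟨u, hu, h1⟩ => by
    obtain ⟨u', hu', z, hz, h2⟩ := h.tuple hv hm n _ (hQ.bex (m + n))
      ⟨fun i => u i.succ, fun i => hu _, u 0, by rw [app_right, hm]; exact hu 0, h1⟩
    rw [app_right, hm] at hz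
    obtain ⟨z', hz', h3, h4⟩ := h _ (hv.app fun i => (hu' i).1) _ ((D.mem 0 (m + n + 1)).and hQ)
      ⟨z, hz, by simp only [sc_zero, sc_succ]; rw [app_right, hm]; exact hz, h2⟩
    simp only [sc_zero, sc_succ] at h3
    rw [app_right, hm] at h3
    exact ⟨Fin.cons z' u', fun i => Fin.cases ⟨hz', h3⟩ hu' i, h4⟩

theorem tv (hp : Good θ p) (β : On) : β ≤ θ → TV θ p β := by
  induction β using WellFoundedLT.induction with
  | _ β ih =>
  intro hβ v hv Q hQ ⟨z, hz, hQz⟩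
  obtain ⟨α, hα, hz'⟩ := mem_Lev.1 hz
  obtain ⟨n, φ, u, hu, hdef⟩ := mem_Df.1 hz'
  let R0 : On → (ℕ → V) → Prop := fun θ r => ∃ z ∈ Lev θ,
    (∀ x, x ∈ z ↔ x ∈ r n ∧ PF.Sat (r n) φ (Fin.cons x fun i : Fin n => r i)) ∧
      Q θ (sc z fun i => r (i + 1 + n))
  have hR0 : D R0 := by
    refine ((D.dfn φ (fun i => i.1 + 1) (n + 1) 0).and
      (hQ.ren (sc 0 fun i => i + 1 + n + 1))).ex.congr fun θ r _ => ?_
    refine exists_congr fun z => and_congr_right fun _ => and_congr Iff.rfl ?_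
    rw [comp_sc (sc z r)]
    rfl
  have eR0 : ∀ (M : V) (u : Fin n → V), R0 θ (app u (sc M v)) ↔ ∃ z ∈ Lev θ,
      (∀ x, x ∈ z ↔ x ∈ M ∧ PF.Sat M φ (Fin.cons x u)) ∧ Q θ (sc z v) := by
    intro M u
    have e : app u (sc M v) n = M := by
      have := app_right u (sc M v) 0
      rwa [zero_add] at this
    simp only [R0, e, app_left, app_right, sc_succ]
  let R : On → (ℕ → V) → Prop := fun θ r => (∃ a, r 0 = Lev a) ∧
    ∃ u : Fin n → V, (∀ i, u i ∈ r 0) ∧ R0 θ (app u r)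
  have hR : D R := (D.lv 0).and (D.bexn 0 n hR0)
  have hα' : R θ (sc (Lev α) v) :=
    ⟨⟨α, rfl⟩, u, hu, (eR0 _ _).2 ⟨z, Lev_mono hβ hz, hdef, hQz⟩⟩
  obtain ⟨α0, h0, hmin⟩ := Ordinal.lt_wf.has_min {a | R θ (sc (Lev a) v)} ⟨α, hα'⟩
  have hle : α0 ≤ α := not_lt.1 (hmin α hα')
  have hlt : α0 < θ := (hle.trans_lt hα).trans_le hβ
  have hM : Lev α0 ∈ Hull θ p := by
    refine hv.mem_hull hp (hR.and ((hR.ren (sc 0 fun i => i + 2)).not.ball 0))
      (Lev_mem_Lev.2 hlt) fun w _ => ?_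
    have e : ∀ y : V, (fun i => sc y (sc w v) (sc 0 (fun i => i + 2) i)) = sc y v := by
      intro y
      funext i
      cases i <;> rfl
    simp only [e, sc_zero]
    constructor
    · rintro ⟨h1, h2⟩
      obtain ⟨a, ha⟩ := h1.1
      simp only [sc_zero] at ha
      subst ha
      rcases (not_lt.1 (hmin a h1)).eq_or_lt with h3 | h3
      · rw [h3]
      · exact (h2 _ (Lev_mem_Lev.2 h3) h0).elim
    · rintro rfl
      refine ⟨h0, fun y hy h1 => ?_⟩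
      obtain ⟨a, ha⟩ := h1.1
      simp only [sc_zero] at ha
      subst ha
      exact hmin a h1 (Lev_mem_Lev.1 hy)
  have hv1 : XV θ p (sc (Lev α0) v) := hv.cons hM
  obtain ⟨u', hu', h1⟩ := (ih α0 (hle.trans_lt hα) hlt.le).tuple hv1 (m := 0) rfl n R0 hR0 h0.2
  obtain ⟨z', hz1, hz2, hz3⟩ := (eR0 _ _).1 h1
  refine ⟨z', ?_, hz3⟩
  refine (hv1.app fun i => (hu' i).1).mem_hull hp (D.dfn φ (fun i => i.1 + 1) (n + 1) 0) hz1
    fun w _ => ?_
  have e : app u' (sc (Lev α0) v) n = Lev α0 := by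
    have := app_right u' (sc (Lev α0) v) 0
    rwa [zero_add] at this
  simp only [sc_zero, sc_succ, e, app_left]
  constructor
  · intro h
    ext x
    rw [h x, hz2 x]
  · rintro rfl
    exact hz2

end Pool.Agent.H450Z.GL
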