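import Pool.Agent.H450Z.GSDefs

set_option autoImplicit false

namespace Pool.Agent.H450Z.GS

variable {P : Type} [Preorder P]

theorem mem_fnot {φ : Set P} {p : P} : p ∈ fnot φ ↔ ∀ q ≤ p, q ∉ φ := Iff.rfl

theorem mem_fex {ι : Type} {φ : ι → Set P} {p : P} :
    p ∈ fex φ ↔ ∀ q ≤ p, ∃ r ≤ q, ∃ i, r ∈ φ i := by
  simp only [fex, fnot, Set.mem_ofPred_eq, Set.mem_iInter, not_forall, not_not]
  constructor
  · intro h q hq
    obtain ⟨i, r, hr, h'⟩ := h q hq
    exact ⟨r, hr, i, h'⟩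
  · intro h q hq
    obtain ⟨r, hr, i, h'⟩ := h q hq
    exact ⟨i, r, hr, h'⟩

theorem mem_fimp {φ ψ : Set P} {p : P} :
    p ∈ fimp φ ψ ↔ ∀ q ≤ p, q ∈ φ → ∃ r ≤ q, r ∈ ψ := by
  simp only [fimp, fnot, Set.mem_ofPred_eq, Set.mem_inter_iff, not_and, not_forall, not_not]
  constructor
  · intro h q hq h'
    obtain ⟨r, hr, h''⟩ := h q hq h'
    exact ⟨r, hr, h''⟩
  · intro h q hq h'
    obtain ⟨r, hr, h''⟩ := h q hq h'
    exact ⟨r, hr, h''⟩

theorem not_mem_fnot {φ : Set P} {p : P} (h : p ∉ fnot φ) : ∃ q ≤ p, q ∈ φ := by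
  by_contra hc
  exact h fun q hq hφ => hc ⟨q, hq, hφ⟩

/-- The statement `φ` is preserved by passing to stronger conditions. -/
def Down (φ : Set P) : Prop := ∀ p ∈ φ, ∀ q ≤ p, q ∈ φ

theorem down_fnot (φ : Set P) : Down (fnot φ) :=
  fun _ hp _ hq r hr => hp r (hr.trans hq)

theorem down_inter {φ ψ : Set P} (h : Down φ) (h' : Down ψ) : Down (φ ∩ ψ) :=
  fun _ hp _ hq => ⟨h _ hp.1 _ hq, h' _ hp.2 _ hq⟩

theorem down_iInter {ι : Sort _} {φ : ι → Set P} (h : ∀ i, Down (φ i)) : Down (⋂ i, φ i) :=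
  fun _ hp _ hq => Set.mem_iInter.2 fun i => h i _ (Set.mem_iInter.1 hp i) _ hq

theorem down_fex {ι : Type} (φ : ι → Set P) : Down (fex φ) := down_fnot _

theorem down_fimp (φ ψ : Set P) : Down (fimp φ ψ) := down_fnot _

theorem down_meets (N : Set P) : Down (meets N) :=
  fun _ hp _ hq r hr => hp r (hr.trans hq)

theorem down_IsFun {X L : Type} (F : X → L → Set P) : Down (IsFun F) :=
  down_iInter fun _ => down_inter (down_fex _)
    (down_iInter fun _ => down_iInter fun _ => down_fimp _ _)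

theorem down_Same {X L : Type} (F G : X → L → Set P) : Down (Same F G) :=
  down_iInter fun _ => down_iInter fun _ => down_inter (down_fimp _ _) (down_fimp _ _)

theorem down_Mem {L : Type} (z : ℕ → L → Set P) (S : (ℕ → L → Set P) → Set P) :
    Down (Mem z S) := down_fex _

theorem down_IsStrat {K L : Type} (σ : Strat P K L) : Down (IsStrat σ) :=
  down_iInter fun _ => down_iInter fun _ => down_inter (down_fimp _ _)
    (down_iInter fun _ => down_fimp _ _)

theorem down_OneWins {K L : Type} (S : (ℕ → L → Set P) → Set P) (σ : Strat P K L) :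
    Down (OneWins S σ) := down_inter (down_IsStrat σ) (down_iInter fun _ => down_fimp _ _)

theorem down_TwoWins {K L : Type} (S : (ℕ → L → Set P) → Set P) (σ : Strat P K L) :
    Down (TwoWins S σ) := down_inter (down_IsStrat σ) (down_iInter fun _ => down_fimp _ _)

theorem mem_fex_of_mem {ι : Type} {φ : ι → Set P} {p : P} (i : ι) (hd : Down (φ i))
    (h : p ∈ φ i) : p ∈ fex φ :=
  mem_fex.2 fun q hq => ⟨q, le_rfl, i, hd _ h _ hq⟩

theorem meets_of_mem {N : Set P} {p : P} (h : p ∈ N) : p ∈ meets N :=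
  fun q hq => ⟨q, le_rfl, p, h, hq⟩

theorem exists_of_meets {N : Set P} (hN : Down N) {p : P} (h : p ∈ meets N) :
    ∃ q ≤ p, q ∈ N := by
  obtain ⟨r, hr, s, hs, hle⟩ := h p le_rfl
  exact ⟨r, hr, hN s hs r hle⟩

theorem meets_of_dense {N : Set P} {p : P} (h : ∀ q ≤ p, ∃ r ≤ q, r ∈ meets N) : p ∈ meets N := by
  intro q hq
  obtain ⟨r, hr, hr'⟩ := h q hq
  obtain ⟨s, hs, t, ht, hst⟩ := hr' r le_rfl
  exact ⟨s, hs.trans hr, t, ht, hst⟩

theorem mem_IsFun {X L : Type} {F : X → L → Set P} {p : P} :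
    p ∈ IsFun F ↔ (∀ x, ∀ q ≤ p, ∃ r ≤ q, ∃ m, r ∈ meets (F x m)) ∧
      ∀ x m m', ∀ q ≤ p, q ∈ meets (F x m) → q ∈ meets (F x m') → m = m' := by
  simp only [IsFun, Set.mem_iInter, Set.mem_inter_iff, mem_fex, mem_fimp, Set.mem_ofPred_eq]
  constructor
  · intro h
    refine ⟨fun x => (h x).1, fun x m m' q hq h1 h2 => ?_⟩
    obtain ⟨_, _, h3⟩ := (h x).2 m m' q hq ⟨h1, h2⟩
    exact h3
  · rintro ⟨h1, h2⟩ x
    exact ⟨h1 x, fun m m' q hq h => ⟨q, le_rfl, h2 x m m' q hq h.1 h.2⟩⟩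

theorem mem_Same {X L : Type} {F G : X → L → Set P} {p : P} :
    p ∈ Same F G ↔ ∀ x m, ∀ q ≤ p, q ∈ meets (F x m) ↔ q ∈ meets (G x m) := by
  simp only [Same, Set.mem_iInter, Set.mem_inter_iff, mem_fimp]
  constructor
  · intro h x m q hq
    constructor
    · intro h1
      exact meets_of_dense fun r hr => (h x m).1 r (hr.trans hq) (down_meets _ _ h1 _ hr)
    · intro h1
      exact meets_of_dense fun r hr => (h x m).2 r (hr.trans hq) (down_meets _ _ h1 _ hr)
  · intro h x m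
    exact ⟨fun q hq h1 => ⟨q, le_rfl, (h x m q hq).1 h1⟩,
      fun q hq h1 => ⟨q, le_rfl, (h x m q hq).2 h1⟩⟩

theorem same_refl {X L : Type} (F : X → L → Set P) (p : P) : p ∈ Same F F :=
  mem_Same.2 fun _ _ _ _ => Iff.rfl

theorem same_symm {X L : Type} {F G : X → L → Set P} {p : P} (h : p ∈ Same F G) : p ∈ Same G F :=
  mem_Same.2 fun x m q hq => (mem_Same.1 h x m q hq).symm

theorem same_trans {X L : Type} {F G H : X → L → Set P} {p : P} (h : p ∈ Same F G)
    (h' : p ∈ Same G H) : p ∈ Same F H :=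
  mem_Same.2 fun x m q hq => (mem_Same.1 h x m q hq).trans (mem_Same.1 h' x m q hq)

theorem mem_congr {L : Type} {z z' : ℕ → L → Set P} {S : (ℕ → L → Set P) → Set P} {p : P}
    (h : p ∈ Same z z') (hz : p ∈ Mem z S) : p ∈ Mem z' S := by
  refine mem_fex.2 fun q hq => ?_
  obtain ⟨r, hr, y, h1, h2⟩ := mem_fex.1 hz q hq
  exact ⟨r, hr, y, h1, same_trans (same_symm (down_Same _ _ _ h _ (hr.trans hq))) h2⟩

/-- The canonical name of a ground model function. -/
def check {X L : Type} (P : Type) (z : X → L) : X → L → Set P := fun n m => {_p | z n = m}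

theorem meets_check {X L : Type} {z : X → L} {n : X} {m : L} {p : P} :
    p ∈ meets (check P z n m) ↔ z n = m := by
  constructor
  · intro h
    obtain ⟨_, _, _, hs, _⟩ := h p le_rfl
    exact hs
  · intro h
    exact meets_of_mem h

theorem isFun_check {X L : Type} (z : X → L) (p : P) : p ∈ IsFun (check P z) :=
  mem_IsFun.2 ⟨fun x q _ => ⟨q, le_rfl, z x, meets_check.2 rfl⟩,
    fun _ _ _ _ _ h1 h2 => (meets_check.1 h1).symm.trans (meets_check.1 h2)⟩

/-- values are unique below `p` -/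
def Uniq {L : Type} (N : L → Set P) (p : P) : Prop :=
  ∀ m m', ∀ q ≤ p, q ∈ meets (N m) → q ∈ meets (N m') → m = m'

theorem same_check {X L : Type} {F : X → L → Set P} {z : X → L} {p : P}
    (h1 : ∀ n, p ∈ meets (F n (z n))) (h2 : ∀ n, Uniq (F n) p) : p ∈ Same F (check P z) := by
  refine mem_Same.2 fun n m q hq => ⟨fun h => ?_, fun h => ?_⟩
  · exact meets_check.2 (h2 n _ _ q hq (down_meets _ _ (h1 n) _ hq) h)
  · rw [← meets_check.1 h]
    exact down_meets _ _ (h1 n) _ hq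

theorem mem_IsStrat {K L : Type} {σ : Strat P K L} {p : P} :
    p ∈ IsStrat σ ↔
      (∀ n (l : Fin n → K → L → Set P), ∀ q ≤ p, (∀ i, q ∈ IsFun (l i)) →
        ∃ r ≤ q, r ∈ IsFun (σ n l)) ∧
      ∀ n (l l' : Fin n → K → L → Set P), ∀ q ≤ p, (∀ i, q ∈ Same (l i) (l' i)) →
        ∃ r ≤ q, r ∈ Same (σ n l) (σ n l') := by
  simp only [IsStrat, Set.mem_iInter, Set.mem_inter_iff, mem_fimp]
  constructor
  · intro h
    exact ⟨fun n l => (h n l).1, fun n l l' => (h n l).2 l'⟩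
  · rintro ⟨h1, h2⟩ n l
    exact ⟨h1 n l, fun l' => h2 n l l'⟩

theorem isFun_of_dense {X L : Type} {F : X → L → Set P} {p : P}
    (h : ∀ q ≤ p, ∃ r ≤ q, r ∈ IsFun F) : p ∈ IsFun F := by
  refine mem_IsFun.2 ⟨fun x q hq => ?_, fun x m m' q hq h1 h2 => ?_⟩
  · obtain ⟨r, hr, hr'⟩ := h q hq
    obtain ⟨s, hs, m, hm⟩ := (mem_IsFun.1 hr').1 x r le_rfl
    exact ⟨s, hs.trans hr, m, hm⟩
  · obtain ⟨r, hr, hr'⟩ := h q hq
    exact (mem_IsFun.1 hr').2 x m m' r le_rfl (down_meets _ _ h1 _ hr) (down_meets _ _ h2 _ hr)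

theorem IsStrat.isFun {K L : Type} {σ : Strat P K L} {p : P} (h : p ∈ IsStrat σ) {n : ℕ}
    {l : Fin n → K → L → Set P} (hl : ∀ i, p ∈ IsFun (l i)) : p ∈ IsFun (σ n l) :=
  isFun_of_dense fun q hq => (mem_IsStrat.1 h).1 n l q hq fun i => down_IsFun _ _ (hl i) _ hq

/-- finitely many dense open sets -/
theorem dense_fin {n : ℕ} (D : Fin n → Set P) (hD : ∀ i, Down (D i)) (p : P)
    (h : ∀ i, ∀ q ≤ p, ∃ r ≤ q, r ∈ D i) : ∃ q ≤ p, ∀ i, q ∈ D i := by
  induction n with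
  | zero => exact ⟨p, le_rfl, fun i => i.elim0⟩
  | succ n ih =>
    obtain ⟨q, hq, hq'⟩ := ih (fun i => D i.succ) (fun i => hD _) (fun i => h _)
    obtain ⟨r, hr, hr'⟩ := h 0 q hq
    refine ⟨r, hr.trans hq, fun i => ?_⟩
    refine Fin.cases hr' (fun j => hD _ _ (hq' j) _ hr) i

/-! ### least names -/

section least

variable {X L : Type}

/-- `τ` is the least name equal to `F` in a fixed well-ordering of the names -/
def Least (τ F : X → L → Set P) : Set P :=
  Same τ F ∩ ⋂ τ', ⋂ _ : WellOrderingRel τ' τ, fnot (Same τ' F)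

theorem down_Least (τ F : X → L → Set P) : Down (Least τ F) :=
  down_inter (down_Same _ _) (down_iInter fun _ => down_iInter fun _ => down_fnot _)

theorem exists_least (F : X → L → Set P) (p : P) : ∃ q ≤ p, ∃ τ, q ∈ Least τ F := by
  have hwf : WellFounded (WellOrderingRel (α := X → L → Set P)) := IsWellFounded.wf
  have hne : ({τ | ∃ q ≤ p, q ∈ Same τ F} : Set (X → L → Set P)).Nonempty :=
    ⟨F, p, le_rfl, same_refl F p⟩
  obtain ⟨q, hq, hq'⟩ := hwf.min_mem _ hne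
  refine ⟨q, hq, hwf.min _ hne, hq', ?_⟩
  simp only [Set.mem_iInter]
  intro τ' hτ' r hr hr'
  exact hwf.not_lt_min {τ | ∃ q ≤ p, q ∈ Same τ F} (x := τ') ⟨r, hr.trans hq, hr'⟩ hτ'

theorem least_congr {τ F F' : X → L → Set P} {p : P} (h : p ∈ Least τ F) (h' : p ∈ Same F F') :
    p ∈ Least τ F' := by
  refine ⟨same_trans h.1 h', ?_⟩
  have h2 := h.2
  simp only [Set.mem_iInter] at h2 ⊢
  intro τ' hτ' r hr hr'
  exact h2 τ' hτ' r hr (same_trans hr' (same_symm (down_Same _ _ _ h' _ hr)))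

theorem least_unique {τ τ' F : X → L → Set P} {p : P} (h : p ∈ Least τ F) (h' : p ∈ Least τ' F) :
    τ = τ' := by
  have h2 := h.2
  have h3 := h'.2
  simp only [Set.mem_iInter] at h2 h3
  rcases trichotomous_of WellOrderingRel τ τ' with h4 | h4 | h4
  · exact absurd h.1 (h3 τ h4 p le_rfl)
  · exact h4
  · exact absurd h'.1 (h2 τ' h4 p le_rfl)

end least

/-! ### maximal antichains -/

theorem exists_antichain (D : Set P) (hD : ∀ p, ∃ q ≤ p, q ∈ D) :
    ∃ A ⊆ D, (∀ a ∈ A, ∀ b ∈ A, (∃ r, r ≤ a ∧ r ≤ b) → a = b) ∧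
      ∀ p, ∃ a ∈ A, ∃ r, r ≤ p ∧ r ≤ a := by
  let T : Set (Set P) := {A | A ⊆ D ∧ ∀ a ∈ A, ∀ b ∈ A, (∃ r, r ≤ a ∧ r ≤ b) → a = b}
  obtain ⟨A, hA⟩ : ∃ A, Maximal (· ∈ T) A := by
    refine zorn_subset T fun c hc hch => ⟨⋃₀ c, ⟨?_, ?_⟩, fun s hs => Set.subset_sUnion_of_mem hs⟩
    · rintro a ⟨s, hs, ha⟩
      exact (hc hs).1 ha
    · rintro a ⟨s, hs, ha⟩ b ⟨t, ht, hb⟩ hab
      rcases hch.total hs ht with h | h
      · exact (hc ht).2 a (h ha) b hb hab
      · exact (hc hs).2 a ha b (h hb) hab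
  refine ⟨A, hA.prop.1, hA.prop.2, fun p => ?_⟩
  by_contra hcon
  push Not at hcon
  obtain ⟨q, hq, hqD⟩ := hD p
  have hT : insert q A ∈ T := by
    refine ⟨Set.insert_subset hqD hA.prop.1, ?_⟩
    rintro a (rfl | ha) b (rfl | hb) ⟨r, h1, h2⟩
    · rfl
    · exact absurd h2 (hcon b hb r (h1.trans hq))
    · exact absurd h1 (hcon a ha r (h2.trans hq))
    · exact hA.prop.2 a ha b hb ⟨r, h1, h2⟩
  have := hA.le_of_ge hT (Set.subset_insert q A) (Set.mem_insert q A)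
  exact hcon q this q hq le_rfl

/-- conditions which decide the value of `N` or force that there is none -/
def Dec {L : Type} (N : L → Set P) : Set P :=
  {c | (∃ m, c ∈ meets (N m)) ∨ ∀ m, c ∈ fnot (meets (N m))}

theorem dec_dense {L : Type} (N : L → Set P) (p : P) : ∃ q ≤ p, q ∈ Dec N := by
  by_cases h : ∀ m, p ∈ fnot (meets (N m))
  · exact ⟨p, le_rfl, Or.inr h⟩
  · push Not at h
    obtain ⟨m, hm⟩ := h
    obtain ⟨q, hq, hq'⟩ := not_mem_fnot hm
    exact ⟨q, hq, Or.inl ⟨m, hq'⟩⟩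

/-- a fixed maximal antichain of deciding conditions -/
noncomputable def AC {L : Type} (N : L → Set P) : Set P :=
  (exists_antichain (Dec N) (dec_dense N)).choose

theorem AC_sub {L : Type} (N : L → Set P) : AC N ⊆ Dec N :=
  (exists_antichain (Dec N) (dec_dense N)).choose_spec.1

theorem AC_eq {L : Type} {N : L → Set P} {a b r : P} (ha : a ∈ AC N) (hb : b ∈ AC N)
    (h1 : r ≤ a) (h2 : r ≤ b) : a = b :=
  (exists_antichain (Dec N) (dec_dense N)).choose_spec.2.1 a ha b hb ⟨r, h1, h2⟩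

theorem AC_max {L : Type} (N : L → Set P) (p : P) : ∃ a ∈ AC N, ∃ r, r ≤ p ∧ r ≤ a :=
  (exists_antichain (Dec N) (dec_dense N)).choose_spec.2.2 p

/-! ### ground model strategies of TWO -/

/-- the play of the one-board game in which ONE plays `x` and TWO follows `t` -/
def playT {L : Type} (t : (n : ℕ) → (Fin n → L) → L) (x : ℕ → L) : ℕ → L :=
  fun k => if Even k then x (k / 2) else t (k / 2 + 1) (fun i => x i)

/-- the named strategy which follows `t` on every board -/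
def liftT {K L : Type} (t : (n : ℕ) → (Fin n → L) → L) : Strat P K L :=
  fun n l a m => {r | ∃ v : Fin n → L, (∀ i, r ∈ meets (l i a (v i))) ∧ t n v = m}

theorem down_liftT {K L : Type} (t : (n : ℕ) → (Fin n → L) → L) (n : ℕ)
    (l : Fin n → K → L → Set P) (a : K) (m : L) : Down (liftT t n l a m) := by
  rintro p ⟨v, hv, rfl⟩ q hq
  exact ⟨v, fun i => down_meets _ _ (hv i) _ hq, rfl⟩

theorem isStrat_liftT {K L : Type} (t : (n : ℕ) → (Fin n → L) → L) (p : P) :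
    p ∈ IsStrat (liftT (K := K) t) := by
  refine mem_IsStrat.2 ⟨fun n l q _ hl => ⟨q, le_rfl, mem_IsFun.2 ⟨fun a r hr => ?_, ?_⟩⟩,
    fun n l l' q _ hl => ⟨q, le_rfl, mem_Same.2 fun a m r hr => ⟨fun h => ?_, fun h => ?_⟩⟩⟩
  · obtain ⟨s, hs, hs'⟩ := dense_fin (fun i => {s | ∃ m, s ∈ meets (l i a m)})
      (fun i s ⟨m, hm⟩ s' hs' => ⟨m, down_meets _ _ hm _ hs'⟩) r
      (fun i s hs => (mem_IsFun.1 (hl i)).1 a s (hs.trans hr))
    choose v hv using hs'
    exact ⟨s, hs, t n v, meets_of_mem ⟨v, hv, rfl⟩⟩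
  · intro a m m' r hr h1 h2
    obtain ⟨s, hs, v, hv, rfl⟩ := exists_of_meets (down_liftT t n l a m) h1
    obtain ⟨s', hs', v', hv', rfl⟩ :=
      exists_of_meets (down_liftT t n l a m') (down_meets _ _ h2 _ hs)
    have : v = v' := funext fun i => (mem_IsFun.1 (hl i)).2 a _ _ s' ((hs'.trans hs).trans hr)
      (down_meets _ _ (hv i) _ hs') (hv' i)
    rw [this]
  · refine meets_of_dense fun s hs => ?_
    obtain ⟨s', hs', v, hv, rfl⟩ := exists_of_meets (down_liftT t n l a m) (down_meets _ _ h _ hs)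
    exact ⟨s', hs', meets_of_mem ⟨v, fun i =>
      (mem_Same.1 (hl i) a _ s' ((hs'.trans hs).trans hr)).1 (hv i), rfl⟩⟩
  · refine meets_of_dense fun s hs => ?_
    obtain ⟨s', hs', v, hv, rfl⟩ := exists_of_meets (down_liftT t n l' a m) (down_meets _ _ h _ hs)
    exact ⟨s', hs', meets_of_mem ⟨v, fun i =>
      (mem_Same.1 (hl i) a _ s' ((hs'.trans hs).trans hr)).2 (hv i), rfl⟩⟩

/-- countably many dense open sets have a dense intersection -/
def CountablyDistributive (P : Type) [Preorder P] : Prop :=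
  ∀ (D : ℕ → Set P), (∀ i, Down (D i)) → ∀ p, (∀ i, ∀ q ≤ p, ∃ r ≤ q, r ∈ D i) →
    ∃ q ≤ p, ∀ i, q ∈ D i

/-- If TWO is forced to have no winning strategy, no ground model strategy of the one-board game
is winning. -/
theorem not_two {K L : Type} (hP : CountablyDistributive P) {S : (ℕ → L → Set P) → Set P} {q : P}
    (hq : q ∈ fnot (fex fun σ : Strat P K L => TwoWins S σ)) (t : (n : ℕ) → (Fin n → L) → L)
    (r : P) (hr : r ≤ q) : ∃ r' ≤ r, ∃ x, r' ∈ Mem (check P (playT t x)) S := by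
  have h1 : r ∉ TwoWins S (liftT (K := K) t) := fun h =>
    hq r hr (mem_fex_of_mem _ (down_TwoWins _ _) h)
  have h2 : ∃ F : ℕ → K → L → Set P, r ∉ fimp (⋂ n, IsFun (F n)) (⋂ a : K, fnot
      (Mem (fun k => if Even k then F (k / 2) a else liftT t (k / 2 + 1) (fun i => F i) a) S)) := by
    by_contra hc
    push Not at hc
    exact h1 ⟨isStrat_liftT t r, Set.mem_iInter.2 hc⟩
  obtain ⟨F, hF⟩ := h2
  obtain ⟨r1, hr1, hF1, hF2⟩ := not_mem_fnot hF
  have h3 : r1 ∉ ⋂ a : K, fnot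
      (Mem (fun k => if Even k then F (k / 2) a else liftT t (k / 2 + 1) (fun i => F i) a) S) :=
    hF2 r1 le_rfl
  rw [Set.mem_iInter, not_forall] at h3
  obtain ⟨a, ha⟩ := h3
  obtain ⟨r2, hr2, hM⟩ := not_mem_fnot ha
  have hF3 : ∀ n, r2 ∈ IsFun (F n) := fun n => down_IsFun _ _ (Set.mem_iInter.1 hF1 n) _ hr2
  obtain ⟨r3, hr3, hx⟩ := hP (fun n => {s | ∃ m, s ∈ meets (F n a m)})
    (fun i s ⟨m, hm⟩ s' hs' => ⟨m, down_meets _ _ hm _ hs'⟩) r2
    (fun i s hs => (mem_IsFun.1 (hF3 i)).1 a s hs)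
  choose x hx using hx
  refine ⟨r3, (hr3.trans hr2).trans hr1, x, mem_congr (same_check ?_ ?_) (down_Mem _ _ _ hM _ hr3)⟩
  · intro k
    by_cases hk : Even k
    · simp only [playT, if_pos hk]
      exact hx _
    · simp only [playT, if_neg hk]
      exact meets_of_mem ⟨fun i => x i, fun i => hx _, rfl⟩
  · intro k
    by_cases hk : Even k
    · simp only [if_pos hk]
      exact fun m m' s hs => (mem_IsFun.1 (hF3 _)).2 a m m' s (hs.trans hr3)
    · simp only [if_neg hk]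
      have := IsStrat.isFun (isStrat_liftT (K := K) t r2) (n := k / 2 + 1) (l := fun i => F i)
        (fun i => hF3 i)
      exact fun m m' s hs => (mem_IsFun.1 this).2 a m m' s (hs.trans hr3)

end Pool.Agent.H450Z.GS
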