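import Mathlib

set_option autoImplicit false

/-!
# The forcing language and multiboard Gale-Stewart games in the extension

A sentence of the forcing language of a preordered set `P` of conditions (`q ≤ p`: `q` is stronger)
is represented by the set of the conditions which force it. Conjunction is `∩`, universal
quantification (over ground model objects or over names) is `⋂`, a ground model fact `h` is
`{_p | h}`. A name for a subset of a ground model set `X` is a map `X → Set P`.
-/

namespace Pool.Agent.H450Z.GS

variable {P : Type} [Preorder P]

/-- `p` forces `not φ` iff no `q ≤ p` forces `φ`. -/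
def fnot (φ : Set P) : Set P := {p | ∀ q ≤ p, q ∉ φ}

/-- `φ or ψ` is `not (not φ and not ψ)`. -/
def fdis (φ ψ : Set P) : Set P := fnot (fnot φ ∩ fnot ψ)

/-- `φ implies ψ` is `not (φ and not ψ)`. -/
def fimp (φ ψ : Set P) : Set P := fnot (φ ∩ fnot ψ)

/-- `there is i with φ i` is `not for all i, not φ i`. -/
def fex {ι : Type} (φ : ι → Set P) : Set P := fnot (⋂ i, fnot (φ i))

/-- `p` forces that the generic filter meets `N`: conditions below members of `N` are dense
below `p`. -/
def meets (N : Set P) : Set P := {p | ∀ q ≤ p, ∃ r ≤ q, ∃ s ∈ N, r ≤ s}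

/-- The relation named by `F` is a function from `X` to `L`. -/
def IsFun {X L : Type} (F : X → L → Set P) : Set P :=
  ⋂ x, (fex fun m => meets (F x m)) ∩
    ⋂ m, ⋂ m', fimp (meets (F x m) ∩ meets (F x m')) {_p | m = m'}

/-- The relations named by `F` and `G` are equal. -/
def Same {X L : Type} (F G : X → L → Set P) : Set P :=
  ⋂ x, ⋂ m, fimp (meets (F x m)) (meets (G x m)) ∩ fimp (meets (G x m)) (meets (F x m))

/-- The sequence named by `z` belongs to the set of sequences named by `S`; the name `S` attaches
a set of conditions to every name for a sequence. -/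
def Mem {L : Type} (z : ℕ → L → Set P) (S : (ℕ → L → Set P) → Set P) : Set P :=
  fex fun y => meets (S y) ∩ Same z y

/-- A strategy of the extension, given on names: it sends the names of the `n` earlier moves
(functions from the boards `K` to `L`) of the opponent to a name for the next move. -/
abbrev Strat (P K L : Type) : Type := (n : ℕ) → (Fin n → K → L → Set P) → K → L → Set P

/-- `σ` sends moves to moves, and equal moves to equal moves. -/
def IsStrat {K L : Type} (σ : Strat P K L) : Set P :=
  ⋂ n, ⋂ l : Fin n → K → L → Set P, fimp (⋂ i, IsFun (l i)) (IsFun (σ n l)) ∩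
    ⋂ l' : Fin n → K → L → Set P, fimp (⋂ i, Same (l i) (l' i)) (Same (σ n l) (σ n l'))

/-- `σ` is a winning strategy of ONE: for every sequence `F` of moves of TWO there is a board on
which the play belongs to `S`. -/
def OneWins {K L : Type} (S : (ℕ → L → Set P) → Set P) (σ : Strat P K L) : Set P :=
  IsStrat σ ∩ ⋂ F : ℕ → K → L → Set P, fimp (⋂ n, IsFun (F n)) (fex fun a : K =>
    Mem (fun k => if Even k then σ (k / 2) (fun i => F i) a else F (k / 2) a) S)

/-- `σ` is a winning strategy of TWO: for every sequence `F` of moves of ONE and every board the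
play does not belong to `S`. -/
def TwoWins {K L : Type} (S : (ℕ → L → Set P) → Set P) (σ : Strat P K L) : Set P :=
  IsStrat σ ∩ ⋂ F : ℕ → K → L → Set P, fimp (⋂ n, IsFun (F n)) (⋂ a : K, fnot
    (Mem (fun k => if Even k then F (k / 2) a else σ (k / 2 + 1) (fun i => F i) a) S))

/-- The game with boards `K`, moves `L` and payoff set `S` is determined. -/
def Determined (K : Type) {L : Type} (S : (ℕ → L → Set P) → Set P) : Set P :=
  fdis (fex fun σ : Strat P K L => OneWins S σ) (fex fun σ : Strat P K L => TwoWins S σ)

/-- Every subset of `X` in the extension is a ground model set. -/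
def NoNewSubsets (P : Type) [Preorder P] (X : Type) : Set P :=
  ⋂ N : X → Set P, fex fun Y : Set X =>
    ⋂ x, fimp (meets (N x)) {_p | x ∈ Y} ∩ fimp {_p | x ∈ Y} (meets (N x))

end Pool.Agent.H450Z.GS
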