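import Pool.Agent.H450Z.GSPoset

set_option autoImplicit false

namespace Pool.Agent.H450Z.GS

open Cardinal

section strategy

variable {J L I K : Type} [Infinite I] [Nonempty K] (e : K × ℕ × K → J)

/-- a coordinate reserved for the board `a` and the inning `n` outside `U` -/
noncomputable def fr (a : K) (n : ℕ) (U : Set J) : J :=
  e (a, n, Classical.epsilon fun b => e (a, n, b) ∉ U)

omit [Infinite I] in
theorem fr_not_mem (he : Function.Injective e) (hK : Cardinal.mk I < Cardinal.mk K) (a : K)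
    (n : ℕ) {U : Set J} (hU : Cardinal.mk U ≤ Cardinal.mk I) : fr e a n U ∉ U := by
  have : ∃ b, e (a, n, b) ∉ U := by
    by_contra hc
    push Not at hc
    have h1 : Cardinal.mk K ≤ Cardinal.mk U :=
      mk_le_of_injective (f := fun b => (⟨e (a, n, b), hc b⟩ : U)) fun b b' h => by
        have := he (Subtype.ext_iff.1 h)
        simpa using this
    exact absurd (h1.trans hU) (not_le.2 hK)
  exact Classical.epsilon_spec this

/-- the union of the domains -/
def doms {n : ℕ} (c : Fin n → Cond J L I) : Set J := {j | ∃ i, ∃ m, (j, m) ∈ (c i).s}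

theorem doms_small {n : ℕ} (c : Fin n → Cond J L I) : Cardinal.mk (doms c) ≤ Cardinal.mk I := by
  have h : doms c = Prod.fst '' (⋃ i, (c i).s) := by
    ext j
    simp [doms]
    tauto
  rw [h]
  refine mk_image_le.trans (small_iUnion ?_ fun i => (c i).small)
  exact (Cardinal.mk_le_aleph0).trans (aleph0_le_mk I)

/-- the strategy of ONE -/
def sig : Strat (Cond J L I) K L := fun n l a m =>
  {p | ∃ (τ : Fin n → K → L → Set (Cond J L I)) (c : Fin n → Cond J L I),
    (∀ i, p ∈ Least (τ i) (l i)) ∧ (∀ i, c i ∈ AC (τ i a) ∧ p ≤ c i) ∧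
      (fr e a n (doms c), m) ∈ p.s}

omit [Infinite I] in
theorem down_sig (n : ℕ) (l : Fin n → K → L → Set (Cond J L I)) (a : K) (m : L) :
    Down (sig e n l a m) := by
  rintro p ⟨τ, c, h1, h2, h3⟩ q hq
  exact ⟨τ, c, fun i => down_Least _ _ _ (h1 i) _ hq, fun i => ⟨(h2 i).1, hq.trans (h2 i).2⟩, hq h3⟩

theorem isFun_sig [Nonempty L] (n : ℕ) (l : Fin n → K → L → Set (Cond J L I)) (p : Cond J L I) :
    p ∈ IsFun (sig e n l) := by
  refine mem_IsFun.2 ⟨fun a q _ => ?_, fun a m m' q _ h1 h2 => ?_⟩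
  · obtain ⟨q1, hq1, h1⟩ := dense_fin (fun i => {r | ∃ τ, r ∈ Least τ (l i)})
      (fun i r ⟨τ, hτ⟩ s hs => ⟨τ, down_Least _ _ _ hτ _ hs⟩) q
      (fun i r _ => exists_least (l i) r)
    choose τ hτ using h1
    obtain ⟨q2, hq2, h2⟩ := dense_fin (fun i => {r | ∃ c ∈ AC (τ i a), r ≤ c})
      (fun i r ⟨c, hc, hc'⟩ s hs => ⟨c, hc, hs.trans hc'⟩) q1
      (fun i r _ => by
        obtain ⟨c, hc, s, hs, hs'⟩ := AC_max (τ i a) r
        exact ⟨s, hs, c, hc, hs'⟩)
    choose c hc hc' using h2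
    by_cases h : ∃ m, (fr e a n (doms c), m) ∈ q2.s
    · obtain ⟨m, hm⟩ := h
      exact ⟨q2, hq2.trans hq1, m, meets_of_mem
        ⟨τ, c, fun i => down_Least _ _ _ (hτ i) _ hq2, fun i => ⟨hc i, hc' i⟩, hm⟩⟩
    · push Not at h
      obtain ⟨m0⟩ := ‹Nonempty L›
      let q3 : Cond J L I := ⟨q2.s ∪ {(fr e a n (doms c), m0)}, by
        rintro j m m' (h1 | h1) (h2 | h2)
        · exact q2.fn j m m' h1 h2
        · obtain ⟨rfl, rfl⟩ := Prod.mk.inj h2
          exact absurd h1 (h m)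
        · obtain ⟨rfl, rfl⟩ := Prod.mk.inj h1
          exact absurd h2 (h m')
        · exact (Prod.mk.inj h1).2.trans (Prod.mk.inj h2).2.symm,
        small_union q2.small (small_singleton _)⟩
      have hq3 : q3 ≤ q2 := Set.subset_union_left
      exact ⟨q3, hq3.trans (hq2.trans hq1), m0, meets_of_mem
        ⟨τ, c, fun i => down_Least _ _ _ (hτ i) _ (hq3.trans hq2),
          fun i => ⟨hc i, hq3.trans (hc' i)⟩, Or.inr rfl⟩⟩
  · obtain ⟨r, hr, τ, c, h3, h4, h5⟩ := exists_of_meets (down_sig e n l a m) h1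
    obtain ⟨r', hr', τ', c', h3', h4', h5'⟩ :=
      exists_of_meets (down_sig e n l a m') (down_meets _ _ h2 _ hr)
    have hτ : τ = τ' := funext fun i => least_unique (down_Least _ _ _ (h3 i) _ hr') (h3' i)
    subst hτ
    have hc : c = c' := funext fun i => AC_eq (h4 i).1 (h4' i).1 (hr'.trans (h4 i).2) (h4' i).2
    subst hc
    exact r'.fn _ _ _ (hr' h5) h5'

theorem isStrat_sig [Nonempty L] (p : Cond J L I) : p ∈ IsStrat (sig (L := L) e) := by
  have key : ∀ n (l l' : Fin n → K → L → Set (Cond J L I)) (q : Cond J L I),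
      (∀ i, q ∈ Same (l i) (l' i)) → ∀ a m, ∀ r ≤ q, r ∈ meets (sig e n l a m) →
        r ∈ meets (sig e n l' a m) := by
    intro n l l' q hl a m r hr h
    refine meets_of_dense fun s hs => ?_
    obtain ⟨s', hs', τ, c, h1, h2, h3⟩ :=
      exists_of_meets (down_sig e n l a m) (down_meets _ _ h _ hs)
    exact ⟨s', hs', meets_of_mem ⟨τ, c, fun i => least_congr (h1 i)
      (down_Same _ _ _ (hl i) _ ((hs'.trans hs).trans hr)), h2, h3⟩⟩
  refine mem_IsStrat.2 ⟨fun n l q _ _ => ⟨q, le_rfl, isFun_sig e n l q⟩,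
    fun n l l' q _ hl => ⟨q, le_rfl, mem_Same.2 fun a m r hr =>
      ⟨key n l l' q hl a m r hr, key n l' l q (fun i => same_symm (hl i)) a m r hr⟩⟩⟩

end strategy

section tree

variable {J L I K : Type} [Infinite I] [Nonempty K] [Inhabited L] (e : K × ℕ × K → J)
  (A : Set J) (a : K) (q : Cond J L I) (τ : ℕ → K → L → Set (Cond J L I))

/-- the coordinate read by ONE in the inning `n` -/
noncomputable def xi (C : ℕ → (ℕ → L) → Cond J L I) (n : ℕ) (x : ℕ → L) : J :=
  fr e a n (doms fun i : Fin n => C i x)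

/-- the condition along the branch `x` after `n` innings -/
def WW (C : ℕ → (ℕ → L) → Cond J L I) (n : ℕ) (x : ℕ → L) : Set (J × L) :=
  q.s ∪ ⋃ i : Fin n, ({(xi e a C i x, x i)} ∪ (C i x).s)

/-- the invariant of the construction -/
structure Inv (n : ℕ) (b : Cond J L I) (C : ℕ → (ℕ → L) → Cond J L I) : Prop where
  on : On A b
  fn : ∀ x, Fnl (WW e a q C n x)
  sub : ∀ x, ∀ y ∈ WW e a q C n x, y.1 ∈ A → y ∈ b.s
  ac : ∀ i < n, ∀ x, C i x ∈ AC (τ i a)
  dep : ∀ i < n, ∀ x x' : ℕ → L, (∀ j ≤ i, x j = x' j) → C i x = C i x'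

omit [Infinite I] [Inhabited L] in
theorem xi_congr {C C' : ℕ → (ℕ → L) → Cond J L I} {n : ℕ} {x x' : ℕ → L}
    (h : ∀ i < n, C i x = C' i x') : xi e a C n x = xi e a C' n x' := by
  unfold xi
  congr 2
  funext i
  exact h i i.2

omit [Infinite I] [Inhabited L] in
theorem WW_congr {C C' : ℕ → (ℕ → L) → Cond J L I} {n : ℕ} {x x' : ℕ → L}
    (h : ∀ i < n, C i x = C' i x') (hx : ∀ i < n, x i = x' i) :
    WW e a q C n x = WW e a q C' n x' := by
  unfold WW
  congr 2
  funext i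
  rw [h i i.2, hx i i.2, xi_congr e a (fun j hj => h j (hj.trans i.2))]

omit [Infinite I] [Inhabited L] in
theorem WW_succ (C : ℕ → (ℕ → L) → Cond J L I) (n : ℕ) (x : ℕ → L) :
    WW e a q C (n + 1) x = (WW e a q C n x ∪ {(xi e a C n x, x n)}) ∪ (C n x).s := by
  ext y
  simp only [WW, Set.mem_union, Set.mem_iUnion, Fin.exists_fin_succ', Fin.val_castSucc,
    Fin.val_last, or_assoc]

omit [Inhabited L] in
theorem WW_small (C : ℕ → (ℕ → L) → Cond J L I) (n : ℕ) (x : ℕ → L) :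
    Cardinal.mk (WW e a q C n x) ≤ Cardinal.mk I :=
  small_union q.small (small_iUnion ((Cardinal.mk_le_aleph0).trans (aleph0_le_mk I))
    fun i => small_union (small_singleton _) (C i x).small)

omit [Infinite I] [Inhabited L] in
theorem WW_mono (C : ℕ → (ℕ → L) → Cond J L I) (x : ℕ → L) {n m : ℕ} (h : n ≤ m) :
    WW e a q C n x ⊆ WW e a q C m x := by
  induction h with
  | refl => exact Set.Subset.refl _
  | step _ ih =>
    rw [WW_succ]
    exact ih.trans (Set.subset_union_left.trans Set.subset_union_left)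

omit [Infinite I] [Nonempty K] [Inhabited L] in
theorem fnl_union {b : Cond J L I} (hb : On A b) {W : Set (J × L)} (hW : Fnl W)
    (hs : ∀ y ∈ W, y.1 ∈ A → y ∈ b.s) : Fnl (b.s ∪ W) := by
  rintro j m m' (h1 | h1) (h2 | h2)
  · exact b.fn j m m' h1 h2
  · exact b.fn j m m' h1 (hs (j, m') h2 (hb (j, m) h1))
  · exact b.fn j m m' (hs (j, m) h1 (hb (j, m') h2)) h2
  · exact hW j m m' h1 h2

/-- extension of a finite sequence -/
def ext {n : ℕ} (s : Fin n → L) : ℕ → L := fun j => if h : j < n then s ⟨j, h⟩ else default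

theorem ext_restrict (n : ℕ) (x : ℕ → L) {j : ℕ} (hj : j < n) :
    ext (fun i : Fin n => x i) j = x j := by
  simp [ext, hj]

theorem step (he : Function.Injective e) (heA : ∀ y, e y ∉ A)
    (hK : Cardinal.mk I < Cardinal.mk K) (hL : ∀ n, Cardinal.mk (Fin n → L) ≤ Cardinal.mk I)
    (ha : ∀ n b m, (e (a, n, b), m) ∉ q.s) {n : ℕ} {b : Cond J L I}
    {C : ℕ → (ℕ → L) → Cond J L I} (h : Inv e A a q τ n b C) :
    ∃ b' C', Inv e A a q τ (n + 1) b' C' ∧ b' ≤ b ∧ ∀ i < n, C' i = C i := by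
  classical
  let V : (ℕ → L) → Set (J × L) := fun x => WW e a q C n x ∪ {(xi e a C n x, x n)}
  have hfresh : ∀ x m, (xi e a C n x, m) ∉ WW e a q C n x := by
    rintro x m (h1 | h1)
    · exact ha _ _ _ h1
    · obtain ⟨i, hi | hi⟩ := Set.mem_iUnion.1 h1
      · have h2 := he (Prod.mk.inj hi).1
        have h3 : n = i := (Prod.mk.inj (Prod.mk.inj h2).2).1
        exact absurd i.2 (by omega)
      · exact fr_not_mem e he hK a n (doms_small fun i : Fin n => C i x) ⟨i, m, hi⟩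
  have hV : ∀ x, Fnl (V x) := by
    rintro x j m m' (h1 | h1) (h2 | h2)
    · exact h.fn x j m m' h1 h2
    · obtain ⟨rfl, rfl⟩ := Prod.mk.inj h2
      exact absurd h1 (hfresh x m)
    · obtain ⟨rfl, rfl⟩ := Prod.mk.inj h1
      exact absurd h2 (hfresh x m')
    · exact (Prod.mk.inj h1).2.trans (Prod.mk.inj h2).2.symm
  have hVA : ∀ x, ∀ y ∈ V x, y.1 ∈ A → y ∈ b.s := by
    rintro x y (h1 | h1) hy
    · exact h.sub x y h1 hy
    · rw [h1] at hy
      exact absurd hy (heA _)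
  obtain ⟨b', hb', hb'A, hD⟩ := closure A (hL (n + 1)) b h.on
    (fun s => {b' | ∃ c ∈ AC (τ n a), (∀ y ∈ c.s, y.1 ∈ A → y ∈ b'.s) ∧ Fnl (V (ext s) ∪ c.s)})
    (fun s p ⟨c, h1, h2, h3⟩ r hr => ⟨c, h1, fun y hy hy' => hr (h2 y hy hy'), h3⟩)
    (fun s b1 hb1 hb1A => by
      let p : Cond J L I := ⟨b1.s ∪ V (ext s),
        fnl_union A hb1A (hV _) (fun y hy hy' => hb1 (hVA _ y hy hy')),
        small_union b1.small (small_union (WW_small e a q C n _) (small_singleton _))⟩
      obtain ⟨c, hc, r, hr1, hr2⟩ := AC_max (τ n a) p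
      have h1 : b1.s ⊆ r.s := Set.subset_union_left.trans hr1
      have h2 : V (ext s) ⊆ r.s := Set.subset_union_right.trans hr1
      refine ⟨⟨b1.s ∪ {y ∈ c.s | y.1 ∈ A},
        r.fn.mono (Set.union_subset h1 fun y hy => hr2 hy.1),
        small_union b1.small ((mk_le_mk_of_subset (Set.sep_subset _ _)).trans c.small)⟩,
        Set.subset_union_left, ?_, c, hc, fun y hy hy' => Or.inr ⟨hy, hy'⟩,
        r.fn.mono (Set.union_subset h2 hr2)⟩
      rintro y (hy | hy)
      · exact hb1A y hy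
      · exact hy.2)
  choose c hc1 hc2 hc3 using hD
  let C' : ℕ → (ℕ → L) → Cond J L I :=
    Function.update C n fun x => c fun j : Fin (n + 1) => x j
  have hC' : ∀ i < n, C' i = C i := fun i hi => Function.update_of_ne hi.ne _ _
  have hC'n : ∀ x, C' n x = c fun j : Fin (n + 1) => x j := fun x => by
    simp only [C', Function.update_self]
  have hW : ∀ x, WW e a q C' (n + 1) x =
      V (ext fun j : Fin (n + 1) => x j) ∪ (c fun j : Fin (n + 1) => x j).s := by
    intro x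
    have h1 : ∀ i < n, C' i x = C i (ext fun j : Fin (n + 1) => x j) := fun i hi => by
      rw [hC' i hi]
      exact h.dep i hi _ _ fun j hj => (ext_restrict (n + 1) x (by omega)).symm
    rw [WW_succ, hC'n, WW_congr e a q h1 (fun i hi => (ext_restrict (n + 1) x (by omega)).symm),
      xi_congr e a h1]
    simp only [V, ext_restrict (n + 1) x (Nat.lt_succ_self n)]
  refine ⟨b', C', ⟨hb'A, fun x => ?_, fun x y hy hyA => ?_, fun i hi x => ?_,
    fun i hi x x' hx => ?_⟩, hb', hC'⟩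
  · rw [hW]
    exact hc3 _
  · rw [hW] at hy
    rcases hy with hy | hy
    · exact hb' (hVA _ y hy hyA)
    · exact hc2 _ y hy hyA
  · rcases Nat.lt_succ_iff_lt_or_eq.1 hi with h1 | rfl
    · rw [hC' i h1]
      exact h.ac i h1 x
    · rw [hC'n]
      exact hc1 _
  · rcases Nat.lt_succ_iff_lt_or_eq.1 hi with h1 | rfl
    · rw [hC' i h1]
      exact h.dep i h1 x x' hx
    · rw [hC'n, hC'n]
      congr 1
      funext j
      exact hx j (Nat.lt_succ_iff.1 j.2)

theorem tree (he : Function.Injective e) (heA : ∀ y, e y ∉ A)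
    (hK : Cardinal.mk I < Cardinal.mk K) (hL : ∀ n, Cardinal.mk (Fin n → L) ≤ Cardinal.mk I)
    (ha : ∀ n b m, (e (a, n, b), m) ∉ q.s) :
    ∃ b C, ∀ n, Inv e A a q τ n b C := by
  let b0 : Cond J L I := ⟨{y ∈ q.s | y.1 ∈ A}, q.fn.mono (Set.sep_subset _ _),
    (mk_le_mk_of_subset (Set.sep_subset _ _)).trans q.small⟩
  have hW0 : ∀ (C : ℕ → (ℕ → L) → Cond J L I) x, WW e a q C 0 x = q.s := fun C x => by
    simp [WW]
  have h0 : Inv e A a q τ 0 b0 (fun _ _ => q) :=
    ⟨fun y hy => hy.2, fun x => by rw [hW0]; exact q.fn,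
      fun x y hy hy' => ⟨by rwa [hW0] at hy, hy'⟩, fun i hi => absurd hi (by omega),
      fun i hi => absurd hi (by omega)⟩
  let St : ℕ → Type := fun n =>
    {z : Cond J L I × (ℕ → (ℕ → L) → Cond J L I) // Inv e A a q τ n z.1 z.2}
  have hs : ∀ n (z : St n), ∃ z' : St (n + 1), z'.1.1 ≤ z.1.1 ∧ ∀ i < n, z'.1.2 i = z.1.2 i := by
    intro n z
    obtain ⟨b', C', h1, h2, h3⟩ := step e A a q τ he heA hK hL ha z.2
    exact ⟨⟨(b', C'), h1⟩, h2, h3⟩
  choose f hf1 hf2 using hs
  let z : (n : ℕ) → St n := fun n => Nat.rec (motive := St) ⟨(b0, fun _ _ => q), h0⟩ f n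
  have hz : ∀ n, z (n + 1) = f n (z n) := fun n => rfl
  have hmono : ∀ n m, n ≤ m → (z m).1.1 ≤ (z n).1.1 := by
    intro n m h
    induction h with
    | refl => exact le_rfl
    | step _ ih => exact (hf1 _ _).trans ih
  have hstab : ∀ i n, i < n → (z n).1.2 i = (z (i + 1)).1.2 i := by
    intro i n h
    induction h with
    | refl => rfl
    | step h ih => rw [hz, hf2 _ _ i h, ih]
  obtain ⟨b, -, hbA, hb⟩ := exists_lb A (κ := ℕ) (by rw [mk_nat]; exact aleph0_le_mk I) (z 0).1.1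
    (z 0).2.on (fun n => (z n).1.1) (fun n => ⟨hmono 0 n (Nat.zero_le n), (z n).2.on⟩)
    (fun n m => (le_total m n).imp (hmono m n) (hmono n m))
  let C : ℕ → (ℕ → L) → Cond J L I := fun i => (z (i + 1)).1.2 i
  have hW : ∀ n x, WW e a q C n x = WW e a q (z n).1.2 n x := fun n x =>
    WW_congr e a q (fun i hi => by rw [hstab i n hi]) (fun _ _ => rfl)
  refine ⟨b, C, fun n => ⟨hbA, fun x => ?_, fun x y hy hy' => ?_, fun i _ x => ?_,
    fun i _ x x' hx => ?_⟩⟩
  · rw [hW]
    exact (z n).2.fn x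
  · rw [hW] at hy
    exact hb n ((z n).2.sub x y hy hy')
  · exact (z (i + 1)).2.ac i (Nat.lt_succ_self i) x
  · exact (z (i + 1)).2.dep i (Nat.lt_succ_self i) x x' hx

end tree

section win

variable {J L I K : Type} [Infinite I] [Nonempty K] [Inhabited L] (e : K × ℕ × K → J)
  (A : Set J)

theorem one_wins (he : Function.Injective e) (heA : ∀ y, e y ∉ A)
    (hK : Cardinal.mk I < Cardinal.mk K) (hL : ∀ n, Cardinal.mk (Fin n → L) ≤ Cardinal.mk I)
    (S : (ℕ → L → Set (Cond J L I)) → Set (Cond J L I))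
    (hA : ∀ z : ℕ → L, ∀ b : Cond J L I, On A b → (∃ r ≤ b, r ∈ Mem (check _ z) S) →
      ∃ r ≤ b, On A r ∧ r ∈ Mem (check _ z) S)
    (q0 : Cond J L I)
    (hH : ∀ t : (n : ℕ) → (Fin n → L) → L, ∀ r ≤ q0, ∃ r' ≤ r, ∃ x,
      r' ∈ Mem (check _ (playT t x)) S) : q0 ∈ OneWins S (sig e) := by
  refine ⟨isStrat_sig e q0, Set.mem_iInter.2 fun F => mem_fimp.2 fun r0 hr0 hF => ?_⟩
  have hF' : ∀ n, r0 ∈ IsFun (F n) := Set.mem_iInter.1 hF
  obtain ⟨q, hq, h1⟩ := distributive (fun n => {r | ∃ τ, r ∈ Least τ (F n)})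
    (fun i r ⟨τ, hτ⟩ s hs => ⟨τ, down_Least _ _ _ hτ _ hs⟩) r0
    (fun i r _ => exists_least (F i) r)
  choose τ hτ using h1
  have hqF : ∀ n, q ∈ IsFun (F n) := fun n => down_IsFun _ _ (hF' n) _ hq
  obtain ⟨a, ha⟩ : ∃ a : K, ∀ n b m, (e (a, n, b), m) ∉ q.s := by
    by_contra hc
    push Not at hc
    choose n b m hm using hc
    have h1 : Cardinal.mk K ≤ Cardinal.mk q.s :=
      mk_le_of_injective (f := fun a => (⟨(e (a, n a, b a), m a), hm a⟩ : q.s)) fun a a' h => by
        have h2 := he (Prod.mk.inj (Subtype.ext_iff.1 h)).1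
        exact (Prod.mk.inj h2).1
    exact absurd (h1.trans q.small) (not_le.2 hK)
  obtain ⟨b, C, hI⟩ := tree e A a q τ he heA hK hL ha
  have hqW : ∀ n x, q.s ⊆ WW e a q C n x := fun n x => Set.subset_union_left
  have hCW : ∀ n x, (C n x).s ⊆ WW e a q C (n + 1) x := fun n x => by
    rw [WW_succ]; exact Set.subset_union_right
  have hval : ∀ i x, ∃ m, C i x ∈ meets (τ i a m) := by
    intro i x
    rcases AC_sub _ ((hI (i + 1)).ac i (Nat.lt_succ_self i) x) with h | h
    · exact h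
    · exfalso
      let p : Cond J L I := ⟨WW e a q C (i + 1) x, (hI (i + 1)).fn x, WW_small e a q C _ x⟩
      have hp : p ≤ q := hqW _ x
      obtain ⟨r, hr, m, hm⟩ := (mem_IsFun.1 (hqF i)).1 a p hp
      exact h m r (le_trans hr (hCW i x)) ((mem_Same.1 (hτ i).1 a m r (hr.trans hp)).2 hm)
  let t : (n : ℕ) → (Fin n → L) → L := fun n v =>
    Classical.epsilon fun m => C (n - 1) (ext v) ∈ meets (τ (n - 1) a m)
  have ht : ∀ i (x : ℕ → L), C i x ∈ meets (τ i a (t (i + 1) fun j => x j)) := by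
    intro i x
    have h1 : C i (ext fun j : Fin (i + 1) => x j) = C i x :=
      (hI (i + 1)).dep i (Nat.lt_succ_self i) _ _ fun j hj => ext_restrict (i + 1) x (by omega)
    have h2 := Classical.epsilon_spec (hval i (ext fun j : Fin (i + 1) => x j))
    rw [← h1]
    exact h2
  let p0 : Cond J L I := ⟨b.s ∪ WW e a q C 0 default,
    fnl_union A (hI 0).on ((hI 0).fn _) ((hI 0).sub _), small_union b.small (WW_small e a q C _ _)⟩
  have hp0 : p0 ≤ q := (hqW 0 default).trans Set.subset_union_right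
  have hp0b : p0 ≤ b := Set.subset_union_left
  obtain ⟨r1, hr1, x, hx⟩ := hH t p0 (hp0.trans (hq.trans hr0))
  obtain ⟨r2, hr2, hr2A, hx2⟩ := hA _ b (hI 0).on ⟨r1, hr1.trans hp0b, hx⟩
  have hfn : Fnl (⋃ n, WW e a q C n x) := by
    intro j m m' h1 h2
    obtain ⟨n, hn⟩ := Set.mem_iUnion.1 h1
    obtain ⟨n', hn'⟩ := Set.mem_iUnion.1 h2
    exact (hI (max n n')).fn x j m m' (WW_mono e a q C x (le_max_left _ _) hn)
      (WW_mono e a q C x (le_max_right _ _) hn')
  let r : Cond J L I := ⟨r2.s ∪ ⋃ n, WW e a q C n x,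
    fnl_union A hr2A hfn (fun y hy hy' => by
      obtain ⟨n, hn⟩ := Set.mem_iUnion.1 hy
      exact hr2 ((hI n).sub x y hn hy')),
    small_union r2.small (small_iUnion (by rw [mk_nat]; exact aleph0_le_mk I)
      fun n => WW_small e a q C n x)⟩
  have hrW : ∀ n, WW e a q C n x ⊆ r.s := fun n =>
    (Set.subset_iUnion (fun n => WW e a q C n x) n).trans Set.subset_union_right
  have hrq : r ≤ q := (hqW 0 x).trans (hrW 0)
  have hrC : ∀ i, r ≤ C i x := fun i => (hCW i x).trans (hrW _)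
  have hr2' : r ≤ r2 := Set.subset_union_left
  refine ⟨r, hrq.trans hq, mem_fex_of_mem a (down_Mem _ _)
    (mem_congr (same_symm (same_check ?_ ?_)) (down_Mem _ _ _ hx2 _ hr2'))⟩
  · intro k
    by_cases hk : Even k
    · simp only [playT, if_pos hk]
      refine meets_of_mem ⟨fun i => τ i, fun i => C i x,
        fun i => down_Least _ _ _ (hτ i) _ hrq,
        fun i => ⟨(hI (k / 2)).ac i i.2 x, hrC i⟩, hrW (k / 2 + 1) ?_⟩
      rw [WW_succ]
      exact Or.inl (Or.inr rfl)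
    · simp only [playT, if_neg hk]
      exact (mem_Same.1 (hτ _).1 a _ r hrq).1 (down_meets _ _ (ht (k / 2) x) _ (hrC _))
  · intro k
    by_cases hk : Even k
    · simp only [if_pos hk]
      exact fun m m' s hs => (mem_IsFun.1 (isFun_sig e _ _ r)).2 a m m' s hs
    · simp only [if_neg hk]
      exact fun m m' s hs => (mem_IsFun.1 (hqF _)).2 a m m' s (hs.trans hrq)

end win

/-- The main theorem. -/
theorem main (L I K : Type) [Infinite I] [Inhabited L] (hK : Cardinal.mk I < Cardinal.mk K)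
    (hL : Cardinal.mk L ≤ Cardinal.mk I) :
    ∃ J : Type, ∀ (p : Cond J L I) (S : (ℕ → L → Set (Cond J L I)) → Set (Cond J L I)),
      p ∈ Determined K S := by
  have hI0 : ℵ₀ ≤ Cardinal.mk I := aleph0_le_mk I
  have hK0 : ℵ₀ ≤ Cardinal.mk K := hI0.trans hK.le
  have : Infinite K := Cardinal.aleph0_le_mk_iff.1 hK0
  have hXK : Cardinal.mk (Set K) = 2 ^ Cardinal.mk K := mk_set
  have hKX : Cardinal.mk K ≤ Cardinal.mk (Set K) := by rw [hXK]; exact (cantor _).le
  have hXI : Cardinal.mk (Set K) ^ Cardinal.mk I ≤ Cardinal.mk (Set K) := by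
    rw [hXK, ← power_mul]
    exact power_le_power_left two_ne_zero ((mul_le_mul' le_rfl hK.le).trans (mul_eq_self hK0).le)
  have hLn : ∀ n, Cardinal.mk (Fin n → L) ≤ Cardinal.mk I := by
    intro n
    rw [← power_def, mk_fin]
    exact (power_le_power_right hL).trans (power_nat_le hI0)
  have hZ : Cardinal.mk (ℕ → L) ≤ Cardinal.mk (Set K) := by
    rw [← power_def, mk_nat]
    refine le_trans (power_le_power_right (hL.trans (hK.le.trans hKX))) (le_trans ?_ hXI)
    exact power_le_power_left (by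
      intro h0
      rw [h0] at hKX
      exact absurd (hK0.trans hKX) (not_le.2 aleph0_pos)) hI0
  refine ⟨Set (Set K), fun p S q _ hq => ?_⟩
  obtain ⟨A, hA1, hA2⟩ := exists_support (J := Set (Set K)) (L := L) (I := I) (X := Set K)
    (fun z : ℕ → L => Mem (check _ z) S) hXI
    ((natCast_lt_aleph0 (n := 2)).le.trans (hK0.trans hKX)) hZ (hL.trans (hK.le.trans hKX))
  have hlt : Cardinal.mk (Set K) < Cardinal.mk (Set (Set K)) := by
    rw [mk_set (α := Set K)]; exact cantor _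
  have hc : Cardinal.mk (K × ℕ × K) ≤ Cardinal.mk (Aᶜ : Set (Set (Set K))) := by
    rw [mk_compl_of_infinite A (hA1.trans_lt hlt)]
    simp only [mk_prod, lift_id, mk_nat]
    refine le_trans ?_ (hKX.trans hlt.le)
    exact (mul_le_mul' le_rfl ((mul_le_mul' hK0 le_rfl).trans (mul_eq_self hK0).le)).trans
      (mul_eq_self hK0).le
  obtain ⟨e0⟩ := (Cardinal.le_def _ _).1 hc
  have hwin := one_wins (fun y => (e0 y).1) A
    (fun y y' h => e0.injective (Subtype.ext h)) (fun y => (e0 y).2) hK hLn S hA2 q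
    (fun t r hr => not_two distributive hq.2 t r hr)
  exact hq.1 q le_rfl (mem_fex_of_mem _ (down_OneWins _ _) hwin)

end Pool.Agent.H450Z.GS
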