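import Pool.Agent.H450Z.GSBasic

set_option autoImplicit false

namespace Pool.Agent.H450Z.GS

open Cardinal

/-- the set of pairs is the graph of a function on its domain -/
def Fnl {J L : Type} (s : Set (J × L)) : Prop := ∀ j m m', (j, m) ∈ s → (j, m') ∈ s → m = m'

theorem Fnl.mono {J L : Type} {s t : Set (J × L)} (h : Fnl t) (hst : s ⊆ t) : Fnl s :=
  fun j m m' h1 h2 => h j m m' (hst h1) (hst h2)

/-- functions from subsets of `J` of size at most that of `I` to `L` -/
structure Cond (J L I : Type) : Type where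
  s : Set (J × L)
  fn : Fnl s
  small : Cardinal.mk s ≤ Cardinal.mk I

variable {J L I : Type}

instance : Preorder (Cond J L I) where
  le q p := p.s ⊆ q.s
  le_refl _ := Set.Subset.refl _
  le_trans _ _ _ h1 h2 := Set.Subset.trans h2 h1

theorem Cond.le_def {p q : Cond J L I} : q ≤ p ↔ p.s ⊆ q.s := Iff.rfl

/-- the empty condition -/
def Cond.top (J L I : Type) : Cond J L I := ⟨∅, fun _ _ _ h => h.elim, by simp⟩

/-- the domain of the condition lies in `A` -/
def On (A : Set J) (p : Cond J L I) : Prop := ∀ x ∈ p.s, x.1 ∈ A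

variable [Infinite I]

theorem small_union {α : Type} {s t : Set α} (hs : Cardinal.mk s ≤ Cardinal.mk I)
    (ht : Cardinal.mk t ≤ Cardinal.mk I) : Cardinal.mk (s ∪ t : Set α) ≤ Cardinal.mk I :=
  (mk_union_le s t).trans ((add_le_add hs ht).trans (add_eq_self (aleph0_le_mk I)).le)

theorem small_iUnion {α κ : Type} {s : κ → Set α} (hκ : Cardinal.mk κ ≤ Cardinal.mk I)
    (hs : ∀ k, Cardinal.mk (s k) ≤ Cardinal.mk I) :
    Cardinal.mk (⋃ k, s k : Set α) ≤ Cardinal.mk I := by
  refine mk_iUnion_le_sum_mk.trans ?_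
  refine (Cardinal.sum_le_sum _ (fun _ => Cardinal.mk I) hs).trans ?_
  rw [Cardinal.sum_const']
  exact (mul_le_mul' hκ le_rfl).trans (mul_eq_self (aleph0_le_mk I)).le

theorem small_singleton {α : Type} (x : α) : Cardinal.mk ({x} : Set α) ≤ Cardinal.mk I := by
  rw [mk_singleton]
  exact one_le_aleph0.trans (aleph0_le_mk I)

theorem exists_lb (A : Set J) {κ : Type} (hκ : Cardinal.mk κ ≤ Cardinal.mk I) (a0 : Cond J L I)
    (ha0 : On A a0) (f : κ → Cond J L I) (hf : ∀ k, f k ≤ a0 ∧ On A (f k))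
    (hc : ∀ k k', f k ≤ f k' ∨ f k' ≤ f k) : ∃ u ≤ a0, On A u ∧ ∀ k, u ≤ f k := by
  refine ⟨⟨a0.s ∪ ⋃ k, (f k).s, ?_, small_union a0.small (small_iUnion hκ fun k => (f k).small)⟩,
    Set.subset_union_left, ?_, fun k => ?_⟩
  · rintro j m m' (h1 | h1) (h2 | h2)
    · exact a0.fn j m m' h1 h2
    · obtain ⟨k, hk⟩ := Set.mem_iUnion.1 h2
      exact (f k).fn j m m' ((hf k).1 h1) hk
    · obtain ⟨k, hk⟩ := Set.mem_iUnion.1 h1
      exact (f k).fn j m m' hk ((hf k).1 h2)
    · obtain ⟨k, hk⟩ := Set.mem_iUnion.1 h1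
      obtain ⟨k', hk'⟩ := Set.mem_iUnion.1 h2
      rcases hc k k' with h | h
      · exact (f k).fn j m m' hk (h hk')
      · exact (f k').fn j m m' (h hk) hk'
  · rintro x (h | h)
    · exact ha0 x h
    · obtain ⟨k, hk⟩ := Set.mem_iUnion.1 h
      exact (hf k).2 x hk
  · exact (Set.subset_iUnion (fun k => (f k).s) k).trans Set.subset_union_right

theorem closure (A : Set J) {ι : Type} (hι : Cardinal.mk ι ≤ Cardinal.mk I) (a0 : Cond J L I)
    (ha0 : On A a0) (D : ι → Set (Cond J L I)) (hD : ∀ i, Down (D i))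
    (hd : ∀ i, ∀ a ≤ a0, On A a → ∃ a' ≤ a, On A a' ∧ a' ∈ D i) :
    ∃ a ≤ a0, On A a ∧ ∀ i, a ∈ D i := by
  classical
  have hwf : WellFounded (WellOrderingRel (α := ι)) := IsWellFounded.wf
  let step : (i : ι) → ((j : ι) → WellOrderingRel j i → Cond J L I) → Cond J L I := fun i f =>
    if h : ∃ a' : Cond J L I, a' ≤ a0 ∧ On A a' ∧ a' ∈ D i ∧ ∀ j hj, a' ≤ f j hj then h.choose
    else a0
  let q : ι → Cond J L I := hwf.fix step
  have hq : ∀ i, q i = step i (fun j _ => q j) := fun i => hwf.fix_eq step i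
  have good : ∀ i, q i ≤ a0 ∧ On A (q i) ∧ q i ∈ D i ∧ ∀ j, WellOrderingRel j i → q i ≤ q j := by
    intro i
    induction i using hwf.induction with
    | _ i ih =>
      have hex : ∃ a' : Cond J L I, a' ≤ a0 ∧ On A a' ∧ a' ∈ D i ∧
          ∀ j, WellOrderingRel j i → a' ≤ q j := by
        obtain ⟨u, hu0, huA, hu⟩ := exists_lb A (κ := {j // WellOrderingRel j i})
          ((mk_subtype_le _).trans hι) a0 ha0 (fun k => q k.1)
          (fun k => ⟨(ih k.1 k.2).1, (ih k.1 k.2).2.1⟩) (fun k k' => by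
            rcases trichotomous_of WellOrderingRel k.1 k'.1 with h | h | h
            · exact Or.inr ((ih k'.1 k'.2).2.2.2 _ h)
            · rw [h]; exact Or.inl le_rfl
            · exact Or.inl ((ih k.1 k.2).2.2.2 _ h))
        obtain ⟨a', h1, h2, h3⟩ := hd i u hu0 huA
        exact ⟨a', h1.trans hu0, h2, h3, fun j hj => h1.trans (hu ⟨j, hj⟩)⟩
      rw [hq i]
      simp only [step]
      rw [dif_pos hex]
      exact hex.choose_spec
  obtain ⟨u, hu0, huA, hu⟩ := exists_lb A hι a0 ha0 q (fun k => ⟨(good k).1, (good k).2.1⟩)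
    (fun k k' => by
      rcases trichotomous_of WellOrderingRel k k' with h | h | h
      · exact Or.inr ((good k').2.2.2 _ h)
      · rw [h]; exact Or.inl le_rfl
      · exact Or.inl ((good k).2.2.2 _ h))
  exact ⟨u, hu0, huA, fun i => hD i _ (good i).2.2.1 _ (hu i)⟩

theorem closure_univ {ι : Type} (hι : Cardinal.mk ι ≤ Cardinal.mk I) (a0 : Cond J L I)
    (D : ι → Set (Cond J L I)) (hD : ∀ i, Down (D i))
    (hd : ∀ i, ∀ a ≤ a0, ∃ a' ≤ a, a' ∈ D i) : ∃ a ≤ a0, ∀ i, a ∈ D i := by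
  obtain ⟨a, h1, _, h2⟩ := closure Set.univ hι a0 (fun _ _ => trivial) D hD (fun i a ha _ => by
    obtain ⟨a', h1, h2⟩ := hd i a ha
    exact ⟨a', h1, fun _ _ => trivial, h2⟩)
  exact ⟨a, h1, h2⟩

theorem distributive : CountablyDistributive (Cond J L I) := fun D hD p hd =>
  closure_univ (by rw [mk_nat]; exact aleph0_le_mk I) p D hD hd

theorem noNew {X : Type} (hX : Cardinal.mk X ≤ Cardinal.mk I) (p : Cond J L I) :
    p ∈ NoNewSubsets (Cond J L I) X := by
  refine Set.mem_iInter.2 fun N => mem_fex.2 fun q _ => ?_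
  obtain ⟨r, hr, hr'⟩ := closure_univ hX q (fun x => meets (N x) ∪ fnot (meets (N x)))
    (fun x s hs t ht => hs.elim (fun h => Or.inl (down_meets _ _ h _ ht))
      (fun h => Or.inr (down_fnot _ _ h _ ht)))
    (fun x a _ => by
      by_cases h : a ∈ fnot (meets (N x))
      · exact ⟨a, le_rfl, Or.inr h⟩
      · obtain ⟨b, hb, hb'⟩ := not_mem_fnot h
        exact ⟨b, hb, Or.inl hb'⟩)
  refine ⟨r, hr, {x | r ∈ meets (N x)}, Set.mem_iInter.2 fun x => ⟨mem_fimp.2 ?_, mem_fimp.2 ?_⟩⟩
  · intro s hs h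
    refine ⟨s, le_rfl, ?_⟩
    rcases hr' x with h1 | h1
    · exact h1
    · exact absurd h (h1 s hs)
  · intro s hs h
    exact ⟨s, le_rfl, down_meets _ _ h _ hs⟩

/-! ### a small set of coordinates which supports a family of statements -/

theorem exists_support [Nonempty J] {Z X : Type} (φ : Z → Set (Cond J L I))
    (hI : Cardinal.mk X ^ Cardinal.mk I ≤ Cardinal.mk X) (h2 : 2 ≤ Cardinal.mk X)
    (hZ : Cardinal.mk Z ≤ Cardinal.mk X) (hL : Cardinal.mk L ≤ Cardinal.mk X) :
    ∃ A : Set J, Cardinal.mk A ≤ Cardinal.mk X ∧ ∀ z, ∀ a : Cond J L I, On A a →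
      (∃ r ≤ a, r ∈ φ z) → ∃ r ≤ a, On A r ∧ r ∈ φ z := by
  classical
  obtain ⟨j0⟩ := ‹Nonempty J›
  -- enumerations of small sets
  have henum : ∀ s : Set (J × L), Cardinal.mk s ≤ Cardinal.mk I →
      ∃ (u : Set I) (f : I → J), ∀ x ∈ s, ∃ i ∈ u, f i = x.1 := by
    intro s hs
    obtain ⟨e⟩ := (Cardinal.le_def _ _).1 hs
    refine ⟨Set.range e, fun i => if h : ∃ x, e x = i then h.choose.1.1 else j0, fun x hx => ?_⟩
    have h : ∃ y, e y = e ⟨x, hx⟩ := ⟨_, rfl⟩
    refine ⟨e ⟨x, hx⟩, ⟨_, rfl⟩, ?_⟩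
    simp only [dif_pos h]
    rw [e.injective h.choose_spec]
  let R : Z → Set (J × L) → I → J := fun z s =>
    if h : ∃ r : Cond J L I, s ⊆ r.s ∧ r ∈ φ z then (henum h.choose.s h.choose.small).choose_spec.choose
    else fun _ => j0
  let α : Type := Option (Z × I × (I → Option L))
  let β : α → Type := fun o => match o with
    | none => PEmpty
    | some _ => I
  let ev : WType β → J := WType.elim J fun x => match x with
    | ⟨none, _⟩ => j0
    | ⟨some (z, k, g), f⟩ => R z {x | ∃ i, g i = some x.2 ∧ f i = x.1} k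
  have hX0 : ℵ₀ ≤ Cardinal.mk X := by
    have : (2 : Cardinal) ^ Cardinal.mk I ≤ Cardinal.mk X :=
      (power_le_power_right h2).trans hI
    exact (aleph0_le_mk I).trans ((cantor _).le.trans this)
  have hIX : Cardinal.mk I ≤ Cardinal.mk X :=
    (cantor _).le.trans ((power_le_power_right h2).trans hI)
  have hα : Cardinal.mk α ≤ Cardinal.mk X := by
    have h1 : Cardinal.mk (I → Option L) ≤ Cardinal.mk X := by
      rw [← power_def]
      refine le_trans (power_le_power_right ?_) hI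
      rw [mk_option]
      exact (add_le_add hL (one_le_aleph0.trans hX0)).trans (add_eq_self hX0).le
    have h3 : Cardinal.mk (Z × I × (I → Option L)) ≤ Cardinal.mk X := by
      simp only [mk_prod, lift_id]
      exact (mul_le_mul' hZ ((mul_le_mul' hIX h1).trans (mul_eq_self hX0).le)).trans
        (mul_eq_self hX0).le
    simp only [α, mk_option]
    exact (add_le_add h3 (one_le_aleph0.trans hX0)).trans (add_eq_self hX0).le
  have hW : Cardinal.mk (WType β) ≤ Cardinal.mk X := by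
    refine WType.cardinalMk_le_of_le ?_
    refine (Cardinal.sum_le_sum _ (fun _ => Cardinal.mk X) ?_).trans ?_
    · rintro (_ | x)
      · simp only [β, mk_pempty, power_zero]
        exact one_le_aleph0.trans hX0
      · exact hI
    · rw [Cardinal.sum_const']
      exact (mul_le_mul' hα le_rfl).trans (mul_eq_self hX0).le
  refine ⟨Set.range ev, mk_range_le.trans hW, fun z a ha ⟨r, hr, hrφ⟩ => ?_⟩
  have hex : ∃ r : Cond J L I, a.s ⊆ r.s ∧ r ∈ φ z := ⟨r, hr, hrφ⟩
  refine ⟨hex.choose, hex.choose_spec.1, ?_, hex.choose_spec.2⟩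
  intro x hx
  obtain ⟨k, -, hk⟩ := (henum hex.choose.s hex.choose.small).choose_spec.choose_spec x hx
  -- code the condition `a`
  obtain ⟨e⟩ := (Cardinal.le_def _ _).1 a.small
  have hw : ∀ y : a.s, ∃ w, ev w = y.1.1 := fun y => ha y.1 y.2
  choose w hw using hw
  let g : I → Option L := fun i => if h : ∃ y, e y = i then some h.choose.1.2 else none
  let f : I → WType β := fun i => if h : ∃ y, e y = i then w h.choose else WType.mk none PEmpty.elim
  have hset : {x : J × L | ∃ i, g i = some x.2 ∧ ev (f i) = x.1} = a.s := by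
    ext y
    constructor
    · rintro ⟨i, h1, h2⟩
      by_cases h : ∃ y, e y = i
      · simp only [g, f, dif_pos h, hw] at h1 h2
        have : y = h.choose.1 := Prod.ext h2.symm (Option.some.inj h1).symm
        rw [this]
        exact h.choose.2
      · simp only [g, dif_neg h] at h1
        exact absurd h1 (by simp)
    · intro hy
      have h : ∃ y', e y' = e ⟨y, hy⟩ := ⟨_, rfl⟩
      have h' : h.choose = ⟨y, hy⟩ := e.injective h.choose_spec
      refine ⟨e ⟨y, hy⟩, ?_, ?_⟩
      · simp only [g, dif_pos h, h']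
      · simp only [f, dif_pos h, h', hw]
  refine ⟨WType.mk (some (z, k, g)) f, ?_⟩
  change R z {x : J × L | ∃ i, g i = some x.2 ∧ ev (f i) = x.1} k = x.1
  rw [hset]
  simp only [R, dif_pos hex]
  exact hk

end Pool.Agent.H450Z.GS
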