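import Pool.Agent.H450Z.GSMain

set_option autoImplicit false

namespace Pool.Agent.H450Z.GS

open Cardinal

/-- a transfinite diagonalisation -/
theorem exists_diag (ι : Type) (hι : Cardinal.mk ι ≤ 𝔠) (bad : ι → (ℕ → ℕ) → Set (ℕ → ℕ))
    (hbad : ∀ j v, (bad j v).Countable) :
    ∃ g : ι → ℕ → ℕ, ∀ i j, i ≠ j → g i ∉ bad j (g j) ∨ g j ∉ bad i (g i) := by
  classical
  obtain ⟨r, hr, hord⟩ := Cardinal.exists_ord_eq ι
  have hwf : WellFounded r := IsWellFounded.wf
  let step : (i : ι) → ((j : ι) → r j i → ℕ → ℕ) → ℕ → ℕ := fun i f =>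
    Classical.epsilon fun v => ∀ j hj, v ∉ bad j (f j hj)
  let g : ι → ℕ → ℕ := hwf.fix step
  have hg : ∀ i, g i = step i (fun j _ => g j) := fun i => hwf.fix_eq step i
  have key : ∀ i j, r j i → g i ∉ bad j (g j) := by
    intro i
    have hex : ∃ v, ∀ j (_ : r j i), v ∉ bad j (g j) := by
      by_contra hc
      push Not at hc
      have h1 : (Set.univ : Set (ℕ → ℕ)) ⊆ ⋃ j : {j // r j i}, bad j.1 (g j.1) := by
        intro v _
        obtain ⟨j, hj, hv⟩ := hc v
        exact Set.mem_iUnion.2 ⟨⟨j, hj⟩, hv⟩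
      have h2 : Cardinal.mk {j // r j i} < 𝔠 := by
        have h3 := Cardinal.card_typein_lt i hord
        rw [Ordinal.card_typein] at h3
        exact h3.trans_le hι
      have h4 : (𝔠 : Cardinal.{0}) ≤ Cardinal.mk {j // r j i} * ℵ₀ := by
        have h5 : Cardinal.mk (ℕ → ℕ) = 𝔠 := by simp
        rw [← h5, ← mk_univ]
        refine (mk_le_mk_of_subset h1).trans (mk_iUnion_le_sum_mk.trans ?_)
        refine (Cardinal.sum_le_sum _ (fun _ => ℵ₀) fun j => ?_).trans ?_
        · exact (hbad _ _).le_aleph0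
        · rw [Cardinal.sum_const']
      exact absurd h4 (not_le.2 (mul_lt_of_lt aleph0_le_continuum h2 aleph0_lt_continuum))
    rw [hg i]
    exact Classical.epsilon_spec hex
  refine ⟨g, fun i j hij => ?_⟩
  rcases trichotomous_of r i j with h | h | h
  · exact Or.inr (key j i h)
  · exact absurd h hij
  · exact Or.inl (key i j h)

/-- one-board strategies -/
abbrev St1 : Type := (n : ℕ) → (Fin n → ℕ) → ℕ

/-- the play of the one-board game in which TWO plays `y` and ONE follows `s` -/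
def playS (s : St1) (y : ℕ → ℕ) : ℕ → ℕ :=
  fun k => if Even k then s (k / 2) (fun i => y i) else y (k / 2)

theorem mk_St1 : Cardinal.mk St1 ≤ 𝔠 := by
  have h : Cardinal.mk St1 ≤ Cardinal.mk ((Σ n : ℕ, Fin n → ℕ) → ℕ) :=
    mk_le_of_injective (f := fun (s : St1) (x : Σ n : ℕ, Fin n → ℕ) => s x.1 x.2) fun s s' h => by
      funext n v
      exact congrFun h ⟨n, v⟩
  refine h.trans ?_
  rw [← power_def, mk_nat]
  refine (power_le_power_left aleph0_ne_zero mk_le_aleph0).trans ?_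
  simp

/-- a payoff set for which no strategy of TWO wins on one board, and for which every countable
family of one-board strategies of ONE is defeated by a single sequence of moves -/
theorem exists_S0 : ∃ S0 : Set (ℕ → ℕ), (∀ t : St1, ∃ x, playT t x ∈ S0) ∧
    ∀ s : ℕ → St1, ∃ y, ∀ a, playS (s a) y ∉ S0 := by
  have hι : Cardinal.mk (St1 ⊕ (ℕ → St1)) ≤ 𝔠 := by
    have h1 : Cardinal.mk (ℕ → St1) ≤ 𝔠 := by
      rw [← power_def, mk_nat]
      exact (power_le_power_right mk_St1).trans continuum_power_aleph0.le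
    simp only [mk_sum, lift_id]
    exact (add_le_add mk_St1 h1).trans (add_eq_self aleph0_le_continuum).le
  let bad : St1 ⊕ (ℕ → St1) → (ℕ → ℕ) → Set (ℕ → ℕ) := fun j v => match j with
    | Sum.inl t => {fun n => playT t v (2 * n + 1)}
    | Sum.inr s => Set.range fun a n => playS (s a) v (2 * n)
  obtain ⟨g, hg⟩ := exists_diag _ hι bad (by
    rintro (t | s) v
    · exact Set.countable_singleton _
    · exact Set.countable_range _)
  refine ⟨Set.range fun t => playT t (g (Sum.inl t)), fun t => ⟨_, t, rfl⟩,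
    fun s => ⟨g (Sum.inr s), ?_⟩⟩
  rintro a ⟨t, ht⟩
  rcases hg (Sum.inl t) (Sum.inr s) (by simp) with h | h
  · apply h
    refine ⟨a, funext fun n => ?_⟩
    have h1 := congrFun ht (2 * n)
    simp only at h1 ⊢
    rw [← h1]
    simp [playT]
  · apply h
    refine funext fun n => ?_
    have h1 := congrFun ht (2 * n + 1)
    simp only at h1
    rw [h1]
    have h2 : (2 * n + 1) / 2 = n := by omega
    simp [playS, h2]

variable {P : Type} [Preorder P]

/-- the canonical name of a ground model set of sequences -/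
def checkS (P : Type) (S0 : Set (ℕ → ℕ)) : (ℕ → ℕ → Set P) → Set P :=
  fun y => {_p | ∃ z ∈ S0, y = check P z}

theorem mem_checkS {S0 : Set (ℕ → ℕ)} {z : ℕ → ℕ} {p : P} :
    p ∈ Mem (check P z) (checkS P S0) ↔ z ∈ S0 := by
  constructor
  · intro h
    obtain ⟨r, _, y, h1, h2⟩ := mem_fex.1 h p le_rfl
    obtain ⟨_, _, _, ⟨z', hz', rfl⟩, _⟩ := h1 r le_rfl
    have : z' = z := funext fun n =>
      meets_check.1 ((mem_Same.1 h2 n (z n) r le_rfl).1 (meets_check.2 rfl))
    rwa [← this]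
  · intro h
    exact mem_fex.2 fun q _ => ⟨q, le_rfl, check P z, meets_of_mem ⟨z, h, rfl⟩, same_refl _ _⟩

theorem distrib_countable (hP : CountablyDistributive P) {ι : Type} [Countable ι] [Nonempty ι]
    (D : ι → Set P) (hD : ∀ i, Down (D i)) (p : P) (h : ∀ i, ∀ q ≤ p, ∃ r ≤ q, r ∈ D i) :
    ∃ q ≤ p, ∀ i, q ∈ D i := by
  obtain ⟨f, hf⟩ := exists_surjective_nat ι
  obtain ⟨q, hq, hq'⟩ := hP (fun n => D (f n)) (fun n => hD _) p (fun n => h _)
  refine ⟨q, hq, fun i => ?_⟩
  obtain ⟨n, rfl⟩ := hf i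
  exact hq' n

/-- the named move which plays `m` on every board -/
def cst (P : Type) (m : ℕ) : ℕ → ℕ → Set P := check P fun _ => m

theorem decide_strat (hP : CountablyDistributive P) {σ : Strat P ℕ ℕ} {p : P}
    (h : p ∈ IsStrat σ) : ∃ r ≤ p, ∃ s : ℕ → St1, ∀ a n (v : Fin n → ℕ),
      r ∈ meets (σ n (fun i => cst P (v i)) a (s a n v)) := by
  obtain ⟨r, hr, h1⟩ := distrib_countable hP
    (fun x : ℕ × (Σ n : ℕ, Fin n → ℕ) =>
      {r | ∃ m, r ∈ meets (σ x.2.1 (fun i => cst P (x.2.2 i)) x.1 m)})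
    (fun i s ⟨m, hm⟩ s' hs' => ⟨m, down_meets _ _ hm _ hs'⟩) p
    (fun x q hq => (mem_IsFun.1 (IsStrat.isFun h fun i => isFun_check _ p)).1 x.1 q hq)
  choose s hs using h1
  exact ⟨r, hr, fun a n v => s (a, ⟨n, v⟩), fun a n v => hs (a, ⟨n, v⟩)⟩

theorem undetermined (hP : CountablyDistributive P) {S0 : Set (ℕ → ℕ)}
    (h1 : ∀ t : St1, ∃ x, playT t x ∈ S0) (h2 : ∀ s : ℕ → St1, ∃ y, ∀ a, playS (s a) y ∉ S0)
    (p : P) : p ∈ fnot (Determined ℕ (checkS P S0)) := by
  intro q _ hq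
  refine hq q le_rfl ⟨fun q1 _ hA => ?_, fun q1 _ hB => ?_⟩
  · obtain ⟨q2, _, σ, hσ, hw⟩ := mem_fex.1 hA q1 le_rfl
    obtain ⟨r, hr, s, hs⟩ := decide_strat hP hσ
    obtain ⟨y, hy⟩ := h2 s
    obtain ⟨r1, hr1, h3⟩ := mem_fimp.1 (Set.mem_iInter.1 hw fun n => cst P (y n)) r hr
      (Set.mem_iInter.2 fun n => isFun_check _ r)
    obtain ⟨r2, hr2, a, h4⟩ := mem_fex.1 h3 r1 le_rfl
    refine hy a (mem_checkS.1 (mem_congr (same_check ?_ ?_) h4))
    · intro k
      by_cases hk : Even k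
      · simp only [playS, if_pos hk]
        exact down_meets _ _ (hs a _ _) _ (hr2.trans hr1)
      · simp only [playS, if_neg hk]
        exact meets_check.2 rfl
    · intro k
      by_cases hk : Even k
      · simp only [if_pos hk]
        exact fun m m' s' hs' => (mem_IsFun.1 (IsStrat.isFun hσ fun i => isFun_check _ q2)).2
          a m m' s' (hs'.trans (hr2.trans (hr1.trans hr)))
      · simp only [if_neg hk]
        exact fun m m' s' _ h5 h6 => (meets_check.1 h5).symm.trans (meets_check.1 h6)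
  · obtain ⟨q2, _, σ, hσ, hw⟩ := mem_fex.1 hB q1 le_rfl
    obtain ⟨r, hr, s, hs⟩ := decide_strat hP hσ
    obtain ⟨x, hx⟩ := h1 (s 0)
    obtain ⟨r1, hr1, h3⟩ := mem_fimp.1 (Set.mem_iInter.1 hw fun n => cst P (x n)) r hr
      (Set.mem_iInter.2 fun n => isFun_check _ r)
    refine Set.mem_iInter.1 h3 0 r1 le_rfl
      (mem_congr (same_symm (same_check ?_ ?_)) (mem_checkS.2 hx))
    · intro k
      by_cases hk : Even k
      · simp only [playT, if_pos hk]
        exact meets_check.2 rfl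
      · simp only [playT, if_neg hk]
        exact down_meets _ _ (hs 0 _ _) _ hr1
    · intro k
      by_cases hk : Even k
      · simp only [if_pos hk]
        exact fun m m' s' _ h5 h6 => (meets_check.1 h5).symm.trans (meets_check.1 h6)
      · simp only [if_neg hk]
        exact fun m m' s' hs' => (mem_IsFun.1 (IsStrat.isFun hσ fun i => isFun_check _ q2)).2
          0 m m' s' (hs'.trans (hr1.trans hr))

theorem general (L : Type) [Infinite L] :
    ∃ (P : Type) (_ : Preorder P), Nonempty P ∧ ∀ p : P, p ∈ NoNewSubsets P L ∧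
      ∀ S : (ℕ → L → Set P) → Set P, p ∈ Determined (Set L) S := by
  haveI : Inhabited L := Classical.inhabited_of_nonempty inferInstance
  obtain ⟨J, hJ⟩ := main L L (Set L) (by rw [mk_set]; exact cantor _) le_rfl
  exact ⟨Cond J L L, inferInstance, ⟨Cond.top J L L⟩, fun p => ⟨noNew le_rfl p, hJ p⟩⟩

theorem gap :
    ∃ (P : Type) (_ : Preorder P), Nonempty P ∧ ∀ p : P, p ∈ NoNewSubsets P ℕ ∧
      p ∈ fex fun S : (ℕ → ℕ → Set P) → Set P =>
        Determined (Set ℕ) S ∩ fnot (Determined ℕ S) := by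
  obtain ⟨J, hJ⟩ := main ℕ ℕ (Set ℕ) (by rw [mk_set]; exact cantor _) le_rfl
  obtain ⟨S0, h1, h2⟩ := exists_S0
  exact ⟨Cond J ℕ ℕ, inferInstance, ⟨Cond.top J ℕ ℕ⟩, fun p => ⟨noNew le_rfl p,
    mem_fex.2 fun q _ => ⟨q, le_rfl, checkS _ S0, hJ q _, undetermined distributive h1 h2 q⟩⟩⟩

end Pool.Agent.H450Z.GS
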