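import Pool.Agent.Helper550.Semi

set_option autoImplicit false

namespace Pool.Agent.H450Z.SG

open Complex Metric Polynomial Filter Topology
open Pool.Agent.Helper550.Semi (nz rouche nz_mul)

theorem harnack {f : ℂ → ℂ} {ρ B : ℝ} (hρ : 0 < ρ) (hB : 0 < B)
    (hf : DifferentiableOn ℂ f (ball 0 ρ)) (h0 : ∀ z ∈ ball (0 : ℂ) ρ, f z ≠ 0)
    (hb : ∀ z ∈ ball (0 : ℂ) ρ, ‖f z‖ ≤ ‖f 0‖ * Real.exp B) {z : ℂ} (hz : z ∈ ball (0 : ℂ) ρ) :
    ‖f 0‖ * Real.exp (-(2 * B * ‖z‖ / (ρ - ‖z‖))) ≤ ‖f z‖ ∧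
      ‖f z‖ ≤ ‖f 0‖ * Real.exp (2 * B * ‖z‖ / (ρ - ‖z‖)) := by
  have hd : DifferentiableOn ℂ (fun z => deriv f z / f z) (ball 0 ρ) :=
    (hf.deriv isOpen_ball).div hf h0
  obtain ⟨g, hg0, hg⟩ := hd.isExactOn_ball.with_val_at 0 0
  have hgd : DifferentiableOn ℂ g (ball 0 ρ) := fun w hw =>
    (hg w hw).differentiableAt.differentiableWithinAt
  have hder : ∀ w ∈ ball (0 : ℂ) ρ, HasDerivAt (fun w => f w * exp (-g w)) 0 w := by
    intro w hw
    have h1 := ((hf w hw).differentiableAt (isOpen_ball.mem_nhds hw)).hasDerivAt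
    have h2 := h1.mul (hg w hw).neg.cexp
    refine h2.congr_deriv ?_
    have := h0 w hw
    simp only [Pi.neg_apply]
    field_simp
    ring
  have hc : ∀ w ∈ ball (0 : ℂ) ρ, f w = f 0 * exp (g w) := by
    intro w hw
    have h1 := isOpen_ball.is_const_of_deriv_eq_zero (convex_ball (0 : ℂ) ρ).isPreconnected
      (fun w hw => (hder w hw).differentiableAt.differentiableWithinAt)
      (fun w hw => (hder w hw).deriv) hw (mem_ball_self hρ)
    simp only [hg0, neg_zero, exp_zero, mul_one] at h1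
    rw [← h1, mul_assoc, ← exp_add]
    simp
  have hn : ∀ w ∈ ball (0 : ℂ) ρ, ‖f w‖ = ‖f 0‖ * Real.exp (g w).re := by
    intro w hw
    rw [hc w hw, norm_mul, norm_exp]
  have hp : 0 < ‖f 0‖ := norm_pos_iff.2 (h0 0 (mem_ball_self hρ))
  have h1 := borelCaratheodory_zero hB hgd (fun w hw => by
    have h2 := hb w hw
    rw [hn w hw] at h2
    exact Real.exp_le_exp.1 (le_of_mul_le_mul_left h2 hp)) hρ hz hg0
  have h2 := abs_le.1 ((abs_re_le_norm (g z)).trans h1)
  rw [hn z hz]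
  exact ⟨by gcongr; exact h2.1, by gcongr; exact h2.2⟩

theorem cheb (s : Multiset ℝ) :
    ∃ r ∈ Set.Icc (1 : ℝ) 2, (1 / 4 : ℝ) ^ s.card ≤ (s.map fun a => |r - a|).prod := by
  let Q : ℝ[X] := (s.map fun a => X - C (2 * a - 3)).prod
  have hQm : Q.Monic := monic_multiset_prod_of_monic _ _ fun a _ => monic_X_sub_C _
  have hQd : Q.natDegree = s.card := by
    have := natDegree_multiset_prod_X_sub_C_eq_card (s.map fun a => 2 * a - 3)
    simpa only [Multiset.map_map, Function.comp_def, Multiset.card_map] using this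
  have hev : ∀ x : ℝ, (1 / 2 : ℝ) ^ s.card * |Q.eval x| =
      (s.map fun a => |(x + 3) / 2 - a|).prod := by
    intro x
    simp only [Q]
    clear hQm hQd Q
    induction s using Multiset.induction_on with
    | empty => simp
    | cons a s ih =>
      simp only [Multiset.map_cons, Multiset.prod_cons, Multiset.card_cons, eval_mul, abs_mul,
        pow_succ, ← ih, eval_sub, eval_X, eval_C]
      have : |(x + 3) / 2 - a| = 1 / 2 * |x - (2 * a - 3)| := by
        rw [show (x + 3) / 2 - a = 1 / 2 * (x - (2 * a - 3)) by ring, abs_mul]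
        norm_num
      rw [this]
      ring
  have : ∃ x ∈ Set.Icc (-1 : ℝ) 1, (1 / 2 : ℝ) ^ s.card ≤ |Q.eval x| := by
    by_contra hcon
    push Not at hcon
    rcases Nat.eq_zero_or_pos s.card with h0 | h0
    · have h1 := hcon 0 (by norm_num)
      have h2 : Q = 1 := hQm.natDegree_eq_zero.1 (hQd.trans h0)
      rw [h2, h0] at h1
      simp at h1
    · have h1 := Chebyshev.coeff_le_of_forall_abs_le_one (n := s.card) (P := C (2 ^ s.card) * Q)
        (by
          refine (degree_mul_le _ _).trans ?_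
          rw [degree_C (by positivity), zero_add, ← hQd]
          exact degree_le_natDegree)
        (fun x hx => by
          rw [eval_mul, eval_C, abs_mul, abs_of_pos (by positivity)]
          have h2 := (hcon x hx).le
          calc (2 : ℝ) ^ s.card * |Q.eval x| ≤ 2 ^ s.card * (1 / 2) ^ s.card := by gcongr
            _ = 1 := by rw [← mul_pow]; norm_num)
      rw [coeff_C_mul, ← hQd, hQm.coeff_natDegree, mul_one, hQd] at h1
      have h3 : (2 : ℝ) ^ (s.card - 1) < 2 ^ s.card :=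
        pow_lt_pow_right₀ (by norm_num) (by omega)
      linarith
  obtain ⟨x, hx, h1⟩ := this
  refine ⟨(x + 3) / 2, ⟨by linarith [hx.1], by linarith [hx.2]⟩, ?_⟩
  rw [← hev x, show (1 / 4 : ℝ) = 1 / 2 * (1 / 2) by norm_num, mul_pow]
  gcongr

theorem norm_prod_ge (s : Multiset ℂ) (z : ℂ) :
    (s.map fun a => |‖z‖ - ‖a‖|).prod ≤ ‖((s.map fun a => X - C a).prod).eval z‖ := by
  induction s using Multiset.induction_on with
  | empty => simp
  | cons a s ih =>
    simp only [Multiset.map_cons, Multiset.prod_cons, eval_mul, norm_mul, eval_sub, eval_X, eval_C]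
    exact mul_le_mul (abs_norm_sub_norm_le _ _) ih
      (Multiset.prod_nonneg fun x hx => by
        obtain ⟨b, _, rfl⟩ := Multiset.mem_map.1 hx
        exact abs_nonneg _) (norm_nonneg _)

theorem norm_prod_bounds (s : Multiset ℂ) (hs : ∀ a ∈ s, ‖a‖ < 4) :
    ‖((s.map fun a => X - C a).prod).eval 0‖ ≤ 4 ^ s.card ∧
      ∀ z : ℂ, ‖z‖ = 12 → 8 ^ s.card ≤ ‖((s.map fun a => X - C a).prod).eval z‖ := by
  induction s using Multiset.induction_on with
  | empty => simp
  | cons a s ih =>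
    obtain ⟨h1, h2⟩ := ih fun b hb => hs b (Multiset.mem_cons_of_mem hb)
    have ha := hs a (Multiset.mem_cons_self a s)
    simp only [Multiset.map_cons, Multiset.prod_cons, eval_mul, norm_mul, eval_sub, eval_X, eval_C,
      Multiset.card_cons, pow_succ', zero_sub, norm_neg]
    refine ⟨mul_le_mul ha.le h1 (norm_nonneg _) (by norm_num), fun z hz => ?_⟩
    refine mul_le_mul ?_ (h2 z hz) (by positivity) (norm_nonneg _)
    have := norm_sub_norm_le z a
    linarith

theorem minmod_poly (p : ℂ[X]) {A : ℝ} (hA : 1 ≤ A)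
    (hb : ∀ z : ℂ, ‖z‖ ≤ 12 → ‖p.eval z‖ ≤ Real.exp A) (h0 : Real.exp (-A) ≤ ‖p.eval 0‖) :
    ∃ r ∈ Set.Icc (1 : ℝ) 2, ∀ z : ℂ, ‖z‖ = r → Real.exp (-(17 * A)) ≤ ‖p.eval z‖ := by
  classical
  have hp : p ≠ 0 := by
    rintro rfl
    simp only [eval_zero, norm_zero] at h0
    exact (Real.exp_pos _).not_ge h0
  set s := p.roots.filter fun z => ‖z‖ < 4 with hs
  obtain ⟨U, hU⟩ := (Multiset.prod_X_sub_C_dvd_iff_le_roots hp s).2 (Multiset.filter_le _ _)
  set P := (s.map fun a => X - C a).prod with hP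
  have hs4 : ∀ a ∈ s, ‖a‖ < 4 := fun a ha => (Multiset.mem_filter.1 ha).2
  have hU0 : ∀ z ∈ ball (0 : ℂ) 4, U.eval z ≠ 0 := by
    intro z hz h
    have hne : P * U ≠ 0 := hU ▸ hp
    have h1 : p.roots = s + U.roots := by
      rw [hU, roots_mul hne, hP, roots_multiset_prod_X_sub_C]
    have h2 := congrArg (fun t => Multiset.card (Multiset.filter (fun z : ℂ => ‖z‖ < 4) t)) h1
    simp only [Multiset.filter_add, Multiset.card_add, ← hs] at h2
    rw [Multiset.filter_eq_self.2 hs4] at h2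
    have h3 : z ∈ Multiset.filter (fun z : ℂ => ‖z‖ < 4) U.roots :=
      Multiset.mem_filter.2 ⟨(mem_roots (right_ne_zero_of_mul hne)).2 h, mem_ball_zero_iff.1 hz⟩
    have := Multiset.card_pos_iff_exists_mem.2 ⟨z, h3⟩
    omega
  obtain ⟨hP0, hP12⟩ := norm_prod_bounds s hs4
  rw [← hP] at hP0 hP12
  set n := s.card with hn
  have hUb : ∀ z : ℂ, ‖z‖ ≤ 12 → ‖U.eval z‖ ≤ Real.exp A / 8 ^ n := by
    intro z hz
    refine norm_le_of_forall_mem_frontier_norm_le (U := ball (0 : ℂ) 12) isBounded_ball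
      U.differentiable.diffContOnCl (fun w hw => ?_)
      (by rw [closure_ball _ (by norm_num)]; exact mem_closedBall_zero_iff.2 hz)
    rw [frontier_ball _ (by norm_num), mem_sphere_zero_iff_norm] at hw
    have h1 := hb w hw.le
    rw [hU, eval_mul, norm_mul] at h1
    rw [le_div_iff₀ (by positivity), mul_comm]
    exact (mul_le_mul_of_nonneg_right (hP12 w hw) (norm_nonneg _)).trans h1
  have hU00 : Real.exp (-A) / 4 ^ n ≤ ‖U.eval 0‖ := by
    rw [hU, eval_mul, norm_mul] at h0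
    rw [div_le_iff₀ (by positivity), mul_comm]
    exact h0.trans (mul_le_mul_of_nonneg_right hP0 (norm_nonneg _))
  have h8 : (8 : ℝ) ^ n = 4 ^ n * 2 ^ n := by rw [← mul_pow]; norm_num
  have hn2 : (2 : ℝ) ^ n ≤ Real.exp (2 * A) := by
    have h1 := hU00.trans (hUb 0 (by simp))
    rw [div_le_div_iff₀ (by positivity) (by positivity), h8] at h1
    have h2 : Real.exp (-A) * 2 ^ n ≤ Real.exp A := by
      have h3 : (0 : ℝ) < 4 ^ n := by positivity
      nlinarith
    calc (2 : ℝ) ^ n = Real.exp A * (Real.exp (-A) * 2 ^ n) := by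
          rw [← mul_assoc, ← Real.exp_add]; simp
      _ ≤ Real.exp A * Real.exp A := by gcongr
      _ = _ := by rw [← Real.exp_add, two_mul]
  obtain ⟨r, hr, h1⟩ := cheb (s.map fun a => ‖a‖)
  refine ⟨r, hr, fun z hz => ?_⟩
  have h2 : (1 / 4 : ℝ) ^ n ≤ ‖P.eval z‖ := by
    refine le_trans ?_ (norm_prod_ge s z)
    simpa only [Multiset.card_map, Multiset.map_map, Function.comp_def, hz] using h1
  have h3 := (harnack (f := fun z => U.eval z) (ρ := 4) (B := 2 * A) (by norm_num) (by linarith)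
    U.differentiable.differentiableOn hU0 (fun w hw => by
      refine (hUb w (by linarith [mem_ball_zero_iff.1 hw])).trans ?_
      refine le_trans ?_ (mul_le_mul_of_nonneg_right hU00 (Real.exp_pos _).le)
      rw [div_mul_eq_mul_div, ← Real.exp_add, show -A + 2 * A = A by ring]
      gcongr
      norm_num) (z := z) (mem_ball_zero_iff.2 (by linarith [hr.2]))).1
  have h4 : Real.exp (-(4 * A)) ≤ Real.exp (-(2 * (2 * A) * ‖z‖ / (4 - ‖z‖))) := by
    rw [Real.exp_le_exp, neg_le_neg_iff, hz, div_le_iff₀ (by linarith [hr.2])]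
    nlinarith [hr.2]
  have h5 : Real.exp (-A) / 4 ^ n * Real.exp (-(4 * A)) ≤ ‖U.eval z‖ :=
    (mul_le_mul hU00 h4 (Real.exp_pos _).le (norm_nonneg _)).trans h3
  rw [hU, eval_mul, norm_mul]
  refine le_trans ?_ (mul_le_mul h2 h5 (by positivity) (norm_nonneg _))
  have h6 : (1 / 4 : ℝ) ^ n * (Real.exp (-A) / 4 ^ n * Real.exp (-(4 * A))) =
      Real.exp (-(5 * A)) / (2 ^ n) ^ 4 := by
    rw [show -(5 * A) = -A + -(4 * A) by ring, Real.exp_add, ← pow_mul, mul_comm n 4, pow_mul,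
      show (2 : ℝ) ^ 4 = 4 * 4 by norm_num, mul_pow, one_div, inv_pow]
    field_simp
  rw [h6, le_div_iff₀ (by positivity)]
  calc Real.exp (-(17 * A)) * (2 ^ n) ^ 4 ≤ Real.exp (-(17 * A)) * (Real.exp (2 * A)) ^ 4 := by
        gcongr
    _ = Real.exp (-(9 * A)) := by
        rw [← Real.exp_nat_mul, ← Real.exp_add]; congr 1; push_cast; ring
    _ ≤ _ := Real.exp_le_exp.2 (by linarith)

theorem polyapprox {f : ℂ → ℂ} (hf : Differentiable ℂ f) (ρ : ℝ) {ε : ℝ} (hε : 0 < ε) :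
    ∃ p : ℂ[X], ∀ z : ℂ, ‖z‖ ≤ ρ → ‖f z - p.eval z‖ ≤ ε := by
  have h1 := hf.differentiableOn.hasFPowerSeriesOnBall (c := 0) (R := ρ.toNNReal + 2)
    (by positivity)
  have h2 := h1.tendstoUniformlyOn (r' := ρ.toNNReal + 1) (by
    exact_mod_cast (by norm_num : ρ.toNNReal + 1 < ρ.toNNReal + 2))
  obtain ⟨n, hn⟩ := (Metric.tendstoUniformlyOn_iff.1 h2 ε hε).exists
  refine ⟨∑ k ∈ Finset.range n,
    C ((cauchyPowerSeries f 0 ((ρ.toNNReal + 2 : NNReal) : ℝ)).coeff k) * X ^ k, fun z hz => ?_⟩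
  have h3 := hn z (by
    rw [mem_ball_zero_iff]
    push_cast
    linarith [Real.le_coe_toNNReal ρ])
  rw [dist_eq_norm, zero_add] at h3
  refine le_trans (le_of_eq ?_) h3.le
  congr 2
  rw [eval_finset_sum, FormalMultilinearSeries.partialSum]
  refine Finset.sum_congr rfl fun k _ => ?_
  rw [FormalMultilinearSeries.apply_eq_pow_smul_coeff, eval_mul, eval_C, eval_pow, eval_X,
    smul_eq_mul, mul_comm]

theorem minmod {f : ℂ → ℂ} (hf : Differentiable ℂ f) {A : ℝ} (hA : 1 ≤ A)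
    (hb : ∀ z : ℂ, ‖z‖ ≤ 12 → ‖f z‖ ≤ Real.exp A) (h0 : Real.exp (-A) ≤ ‖f 0‖) :
    ∃ r ∈ Set.Icc (1 : ℝ) 2, ∀ z : ℂ, ‖z‖ = r → Real.exp (-(40 * A)) ≤ ‖f z‖ := by
  obtain ⟨p, hp⟩ := polyapprox hf 12 (Real.exp_pos (-(40 * A)))
  have two : ∀ a b : ℝ, a + 1 ≤ b → 2 * Real.exp a ≤ Real.exp b := by
    intro a b h
    calc 2 * Real.exp a ≤ Real.exp 1 * Real.exp a := by
          gcongr
          linarith [Real.add_one_le_exp 1]
      _ = Real.exp (a + 1) := by rw [← Real.exp_add, add_comm]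
      _ ≤ _ := Real.exp_le_exp.2 h
  obtain ⟨r, hr, h1⟩ := minmod_poly p (A := 2 * A) (by linarith) (fun z hz => by
    have h1 := hp z hz
    have h2 := hb z hz
    have h3 := norm_sub_norm_le (p.eval z) (f z)
    rw [norm_sub_rev] at h3
    have h4 := two A (2 * A) (by linarith)
    have h5 : Real.exp (-(40 * A)) ≤ Real.exp A := Real.exp_le_exp.2 (by linarith)
    linarith) (by
    have h1 := hp 0 (by simp)
    have h3 := norm_sub_norm_le (f 0) (p.eval 0)
    have h4 := two (-(2 * A)) (-A) (by linarith)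
    have h5 : Real.exp (-(40 * A)) ≤ Real.exp (-(2 * A)) := Real.exp_le_exp.2 (by linarith)
    linarith)
  refine ⟨r, hr, fun z hz => ?_⟩
  have h2 := h1 z hz
  have h3 := hp z (by linarith [hr.2])
  have h4 := norm_sub_norm_le (p.eval z) (f z)
  rw [norm_sub_rev] at h4
  have h5 := two (-(40 * A)) (-(17 * (2 * A))) (by linarith)
  linarith

theorem minprin {p : ℂ[X]} {r m : ℝ} (hr : 0 < r) (hm : 0 < m) (h0 : nz r p = 0)
    (hb : ∀ z : ℂ, ‖z‖ = r → m ≤ ‖p.eval z‖) {z : ℂ} (hz : ‖z‖ ≤ r) : m ≤ ‖p.eval z‖ := by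
  classical
  have hp : p ≠ 0 := by
    rintro rfl
    have := hb r (by simp [abs_of_pos hr])
    simp only [eval_zero, norm_zero] at this
    linarith
  have hne : ∀ w : ℂ, ‖w‖ ≤ r → p.eval w ≠ 0 := by
    intro w hw h
    rcases hw.eq_or_lt with h1 | h1
    · have := hb w h1
      rw [h, norm_zero] at this
      linarith
    · unfold nz at h0
      have h2 := Multiset.card_eq_zero.1 h0
      have h3 := Multiset.filter_eq_nil.1 h2 w ((mem_roots hp).2 h)
      exact h3 h1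
  have h1 : ‖(p.eval z)⁻¹‖ ≤ m⁻¹ := by
    refine norm_le_of_forall_mem_frontier_norm_le (f := fun z => (p.eval z)⁻¹)
      (U := ball (0 : ℂ) r) isBounded_ball (DifferentiableOn.diffContOnCl ?_) (fun w hw => ?_)
      (by rw [closure_ball _ hr.ne']; exact mem_closedBall_zero_iff.2 hz)
    · rw [closure_ball _ hr.ne']
      exact p.differentiable.differentiableOn.inv fun w hw => hne w (mem_closedBall_zero_iff.1 hw)
    · rw [frontier_ball _ hr.ne', mem_sphere_zero_iff_norm] at hw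
      rw [norm_inv]
      exact inv_anti₀ hm (hb w hw)
  rw [norm_inv] at h1
  exact (inv_le_inv₀ (norm_pos_iff.2 (hne z hz)) hm).1 h1

theorem zerofree {f : ℝ → ℂ → ℂ} {α β u r μ K : ℝ} (hr : 0 < r) (hμ : 0 < μ) (hK : 0 < K)
    (hf : ∀ s ∈ Set.Icc α β, Differentiable ℂ (f s))
    (hlow : ∀ s ∈ Set.Icc α β, ∀ z : ℂ, ‖z‖ = r → μ ≤ ‖f s z‖)
    (hcont : ∀ s0 ∈ Set.Icc α β, ∀ ε > 0, ∀ᶠ s in 𝓝[Set.Icc α β] s0,
      ∀ z : ℂ, ‖z‖ = r → ‖f s z - f s0 z‖ ≤ ε)
    (hu : u ∈ Set.Icc α β) (hu2 : u + u ∈ Set.Icc α β)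
    (hup : ∀ z : ℂ, ‖z‖ = r → ‖f u z‖ ≤ K)
    (hprod : ∀ z : ℂ, ‖z‖ = r → ‖f u z * f u z - f (u + u) z‖ ≤ μ / 2) :
    ∀ s ∈ Set.Icc α β, ∀ z : ℂ, ‖z‖ ≤ r → μ / 2 ≤ ‖f s z‖ := by
  let ε := min (μ / 8) (min 1 (μ / (8 * (2 * K + 1))))
  have hε : 0 < ε := by positivity
  have hε1 : ε ≤ μ / 8 := min_le_left _ _
  have hε2 : ε ≤ 1 := (min_le_right _ _).trans (min_le_left _ _)
  have hε3 : ε * (2 * K + 1) ≤ μ / 8 := by
    have : ε ≤ μ / (8 * (2 * K + 1)) := (min_le_right _ _).trans (min_le_right _ _)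
    rw [le_div_iff₀ (by positivity)] at this
    linarith
  have : ∀ s, ∃ p : ℂ[X], s ∈ Set.Icc α β → ∀ z : ℂ, ‖z‖ ≤ r → ‖f s z - p.eval z‖ ≤ ε := by
    intro s
    by_cases hs : s ∈ Set.Icc α β
    · obtain ⟨p, hp⟩ := polyapprox (hf s hs) r hε
      exact ⟨p, fun _ => hp⟩
    · exact ⟨0, fun h => (hs h).elim⟩
  choose p hp using this
  have hpl : ∀ s ∈ Set.Icc α β, ∀ z : ℂ, ‖z‖ = r → μ - ε ≤ ‖(p s).eval z‖ := by
    intro s hs z hz
    have h1 := norm_sub_norm_le (f s z) ((p s).eval z)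
    linarith [hp s hs z hz.le, hlow s hs z hz]
  have hcn : ContinuousOn (fun s => nz r (p s)) (Set.Icc α β) := by
    intro s0 hs0
    apply ContinuousWithinAt.congr_of_eventuallyEq (continuousWithinAt_const (b := nz r (p s0)))
    · filter_upwards [hcont s0 hs0 ε hε, self_mem_nhdsWithin] with s hs hs'
      symm
      refine rouche hr fun z hz => ?_
      have h1 : (p s0).eval z - (p s).eval z = (f s z - (p s).eval z) - (f s0 z - (p s0).eval z)
          - (f s z - f s0 z) := by ring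
      have h2 := norm_sub_le ((f s z - (p s).eval z) - (f s0 z - (p s0).eval z)) (f s z - f s0 z)
      have h3 := norm_sub_le (f s z - (p s).eval z) (f s0 z - (p s0).eval z)
      rw [h1]
      linarith [hp s hs' z hz.le, hp s0 hs0 z hz.le, hs z hz, hpl s0 hs0 z hz]
    · rfl
  have hsq : nz r (p (u + u)) = nz r (p u) + nz r (p u) := by
    have h4 : p u ≠ 0 := by
      intro h0
      have h5 := hpl u hu r (by simp [abs_of_pos hr])
      rw [h0, eval_zero, norm_zero] at h5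
      linarith
    rw [← nz_mul (mul_ne_zero h4 h4)]
    refine rouche hr fun z hz => ?_
    rw [eval_mul]
    have h1 : (p (u + u)).eval z - (p u).eval z * (p u).eval z =
        (f u z - (p u).eval z) * (2 * f u z - (f u z - (p u).eval z))
          - (f u z * f u z - f (u + u) z) - (f (u + u) z - (p (u + u)).eval z) := by ring
    have h2 := norm_sub_le ((f u z - (p u).eval z) * (2 * f u z - (f u z - (p u).eval z))
          - (f u z * f u z - f (u + u) z)) (f (u + u) z - (p (u + u)).eval z)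
    have h3 := norm_sub_le ((f u z - (p u).eval z) * (2 * f u z - (f u z - (p u).eval z)))
          (f u z * f u z - f (u + u) z)
    have h5 : ‖(f u z - (p u).eval z) * (2 * f u z - (f u z - (p u).eval z))‖ ≤
        ε * (2 * K + 1) := by
      rw [norm_mul]
      refine mul_le_mul (hp u hu z hz.le) ((norm_sub_le _ _).trans ?_) (norm_nonneg _) hε.le
      rw [norm_mul, Complex.norm_ofNat]
      linarith [hup z hz, hp u hu z hz.le]
    rw [h1]
    linarith [hp _ hu2 z hz.le, hprod z hz, hpl _ hu2 z hz]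
  have h0 : nz r (p u) = 0 := by
    have := isPreconnected_Icc.constant hcn hu2 hu
    omega
  intro s hs z hz
  have h1 : nz r (p s) = 0 := (isPreconnected_Icc.constant hcn hs hu).trans h0
  have h2 := minprin hr (by linarith) h1 (hpl s hs) hz
  have h3 := norm_sub_norm_le ((p s).eval z) (f s z)
  rw [norm_sub_rev] at h3
  linarith [hp s hs z hz]

end Pool.Agent.H450Z.SG
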