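import Pool.Agent.H450Z.SGCx

set_option autoImplicit false
set_option maxHeartbeats 400000

namespace Pool.Agent.H450Z.SG

open Complex Metric Filter Topology

noncomputable def Lap (c : ℚ → ℂ) (z : ℂ) : ℂ := ∑' r : ℚ, c r * exp (-(r * z))

noncomputable def nrm (c : ℚ → ℂ) : ℝ := ∑' r : ℚ, ‖c r‖

structure Gd (T : ℝ) (c : ℚ → ℂ) : Prop where
  sm : Summable fun r => ‖c r‖
  supp : ∀ r, c r ≠ 0 → 0 < r ∧ (r : ℝ) ≤ T

theorem nrm_nonneg (c : ℚ → ℂ) : 0 ≤ nrm c := tsum_nonneg fun _ => norm_nonneg _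

theorem norm_term (a : ℂ) (r : ℚ) (z : ℂ) :
    ‖a * exp (-(r * z))‖ = ‖a‖ * Real.exp (-(r * z.re)) := by
  rw [norm_mul, norm_exp]
  congr 2
  simp [← Complex.ofReal_ratCast]

variable {T : ℝ} {c d : ℚ → ℂ}

theorem Gd.term_le (h : Gd T c) (r : ℚ) {z : ℂ} {R : ℝ} (hz : ‖z‖ ≤ R) :
    ‖c r * exp (-(r * z))‖ ≤ ‖c r‖ * Real.exp (|T| * R) := by
  rw [norm_term]
  by_cases h0 : c r = 0
  · simp [h0]
  · obtain ⟨h1, h2⟩ := h.supp r h0
    have h3 : (0 : ℝ) < r := by exact_mod_cast h1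
    have h4 := (abs_le.1 ((abs_re_le_norm z).trans hz)).1
    have h5 : 0 ≤ R := (norm_nonneg _).trans hz
    gcongr
    have h6 : r * R ≤ |T| * R := by gcongr; exact h2.trans (le_abs_self T)
    nlinarith

theorem Gd.summable_norm (h : Gd T c) (z : ℂ) : Summable fun r : ℚ => ‖c r * exp (-(r * z))‖ :=
  Summable.of_nonneg_of_le (fun _ => norm_nonneg _) (fun r => h.term_le r le_rfl)
    (h.sm.mul_right _)

theorem Gd.mul (h : Gd T c) {m : ℚ → ℂ} {M : ℝ} (hm : ∀ r, c r ≠ 0 → ‖m r‖ ≤ M) :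
    Gd T fun r => m r * c r := by
  refine ⟨Summable.of_nonneg_of_le (fun _ => norm_nonneg _) (fun r => ?_) (h.sm.mul_left M),
    fun r hr => h.supp r (right_ne_zero_of_mul hr)⟩
  by_cases h0 : c r = 0
  · simp [h0]
  · rw [norm_mul]
    exact mul_le_mul_of_nonneg_right (hm r h0) (norm_nonneg _)

theorem Gd.der (h : Gd T c) : Gd T fun r => -(r : ℂ) * c r :=
  h.mul (M := T) fun r hr => by
    obtain ⟨h1, h2⟩ := h.supp r hr
    have h3 : (0 : ℝ) < r := by exact_mod_cast h1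
    rw [norm_neg, ← Complex.ofReal_ratCast, Complex.norm_real, Real.norm_eq_abs, abs_of_pos h3]
    exact h2

theorem Gd.hasDerivAt (h : Gd T c) (z : ℂ) :
    HasDerivAt (Lap c) (Lap (fun r => -(r : ℂ) * c r) z) z := by
  refine hasDerivAt_tsum_of_isPreconnected (t := ball 0 (‖z‖ + 1)) (y₀ := z)
    (h.der.sm.mul_right (Real.exp (|T| * (‖z‖ + 1)))) isOpen_ball
    (convex_ball _ _).isPreconnected (fun r y _ => ?_)
    (fun r y hy => h.der.term_le r (mem_ball_zero_iff.1 hy).le) (by simp)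
    (h.summable_norm z).of_norm (by simp)
  have h1 := (((hasDerivAt_id y).const_mul (r : ℂ)).neg.cexp).const_mul (c r)
  refine h1.congr_deriv ?_
  simp only [Pi.neg_apply, id]
  ring

theorem Gd.differentiable (h : Gd T c) : Differentiable ℂ (Lap c) := fun z =>
  (h.hasDerivAt z).differentiableAt

theorem iteratedDeriv_Lap (N : ℕ) : ∀ {c : ℚ → ℂ}, Gd T c →
    iteratedDeriv N (Lap c) = Lap fun r => (-(r : ℂ)) ^ N * c r := by
  induction N with
  | zero => intro c _; simp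
  | succ N ih =>
    intro c h
    have h1 : deriv (Lap c) = Lap fun r => -(r : ℂ) * c r := funext fun z => (h.hasDerivAt z).deriv
    rw [iteratedDeriv_succ', h1, ih h.der]
    congr 1
    funext r
    ring

theorem Gd.norm_le (h : Gd T c) {β : ℝ} (hβ : ∀ r, c r ≠ 0 → β ≤ r) {z : ℂ} (hz : 0 ≤ z.re) :
    ‖Lap c z‖ ≤ nrm c * Real.exp (-(β * z.re)) := by
  refine tsum_of_norm_bounded (h.sm.hasSum.mul_right _) fun r => ?_
  rw [norm_term]
  by_cases h0 : c r = 0
  · simp [h0]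
  · gcongr
    exact hβ r h0

theorem Gd.norm_le' (h : Gd T c) {z : ℂ} (hz : 0 ≤ z.re) : ‖Lap c z‖ ≤ nrm c := by
  have := h.norm_le (β := 0) (fun r hr => by exact_mod_cast (h.supp r hr).1.le) hz
  simpa using this

theorem Gd.decay (h : Gd T c) {β : ℝ} (hβ : ∀ r, c r ≠ 0 → β < r) {ε : ℝ} (hε : 0 < ε) :
    ∀ᶠ x : ℝ in atTop, ‖Lap c x‖ ≤ ε * Real.exp (-(β * x)) := by
  have h1 := tendsto_tsum_of_dominated_convergence (𝓕 := atTop)
    (f := fun (x : ℝ) (r : ℚ) => ‖c r‖ * Real.exp (-((r - β) * x))) (g := fun _ => 0) h.sm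
    (fun r => by
      by_cases h0 : c r = 0
      · simp [h0]
      · have h2 : 0 < (r : ℝ) - β := sub_pos.2 (hβ r h0)
        have h3 := (Real.tendsto_exp_neg_atTop_nhds_zero.comp
          (tendsto_id.const_mul_atTop h2)).const_mul ‖c r‖
        simpa using h3)
    (by
      filter_upwards [eventually_ge_atTop 0] with x hx r
      rw [Real.norm_of_nonneg (by positivity)]
      by_cases h0 : c r = 0
      · simp [h0]
      · have h2 : 0 < (r : ℝ) - β := sub_pos.2 (hβ r h0)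
        exact mul_le_of_le_one_right (norm_nonneg _)
          (Real.exp_le_one_iff.2 (neg_nonpos.2 (by positivity))))
  rw [tsum_zero] at h1
  filter_upwards [h1.eventually (ge_mem_nhds hε)] with x hx
  have h2 : ∀ r : ℚ, ‖c r * exp (-(r * (x : ℂ)))‖ =
      ‖c r‖ * Real.exp (-((r - β) * x)) * Real.exp (-(β * x)) := by
    intro r
    rw [norm_term, mul_assoc, ← Real.exp_add, ofReal_re]
    congr 2
    ring
  refine (norm_tsum_le_tsum_norm (h.summable_norm x)).trans ?_
  simp only [h2]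
  rw [tsum_mul_right]
  gcongr

theorem Gd.peak (h : Gd T c) {r0 : ℚ} (h0 : c r0 ≠ 0) :
    ∀ᶠ N : ℕ in atTop, ∀ z : ℂ, z.re = N / r0 →
      ‖c r0‖ / 2 * (r0 * Real.exp (-1)) ^ N ≤ ‖Lap (fun r => (-(r : ℂ)) ^ N * c r) z‖ := by
  classical
  have hr0 : (0 : ℝ) < r0 := by exact_mod_cast (h.supp r0 h0).1
  let ρ : ℚ → ℝ := fun r => r / r0 * Real.exp (1 - r / r0)
  have hρ : ∀ r : ℚ, r ≠ r0 → c r ≠ 0 → 0 ≤ ρ r ∧ ρ r < 1 := by
    intro r h1 h2
    have h3 : (0 : ℝ) < r := by exact_mod_cast (h.supp r h2).1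
    refine ⟨by positivity, ?_⟩
    have h4 : (r : ℝ) / r0 - 1 ≠ 0 := by
      rw [sub_ne_zero, Ne, div_eq_one_iff_eq hr0.ne']
      exact_mod_cast h1
    have h5 := Real.add_one_lt_exp h4
    calc ρ r < Real.exp (r / r0 - 1) * Real.exp (1 - r / r0) :=
          mul_lt_mul_of_pos_right (by linarith) (Real.exp_pos _)
      _ = 1 := by rw [← Real.exp_add]; simp
  have h1 := tendsto_tsum_of_dominated_convergence (𝓕 := atTop)
    (f := fun (N : ℕ) (r : ℚ) => if r = r0 then 0 else ‖c r‖ * ρ r ^ N) (g := fun _ => 0) h.sm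
    (fun r => by
      by_cases h1 : r = r0
      · simp [h1]
      by_cases h2 : c r = 0
      · simp [h2]
      · simpa [h1] using
          (tendsto_pow_atTop_nhds_zero_of_lt_one (hρ r h1 h2).1 (hρ r h1 h2).2).const_mul ‖c r‖)
    (Eventually.of_forall fun N r => by
      by_cases h1 : r = r0
      · simp [h1]
      by_cases h2 : c r = 0
      · simp [h2]
      · rw [if_neg h1, Real.norm_of_nonneg (mul_nonneg (norm_nonneg _) (pow_nonneg (hρ r h1 h2).1 _))]
        exact mul_le_of_le_one_right (norm_nonneg _) (pow_le_one₀ (hρ r h1 h2).1 (hρ r h1 h2).2.le))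
  rw [tsum_zero] at h1
  filter_upwards [h1.eventually (ge_mem_nhds (half_pos (norm_pos_iff.2 h0)))] with N hN z hz
  have hG : Gd T fun r => (-(r : ℂ)) ^ N * c r := h.mul (M := T ^ N) fun r hr => by
    obtain ⟨h1, h2⟩ := h.supp r hr
    have h3 : (0 : ℝ) < r := by exact_mod_cast h1
    rw [norm_pow, norm_neg, ← Complex.ofReal_ratCast, Complex.norm_real, Real.norm_eq_abs,
      abs_of_pos h3]
    gcongr
  have h2 : ∀ r : ℚ, ‖(-(r : ℂ)) ^ N * c r * exp (-(r * z))‖ =
      ‖c r‖ * ρ r ^ N * (r0 * Real.exp (-1)) ^ N := by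
    intro r
    by_cases h2 : c r = 0
    · simp [h2]
    have h3 : (0 : ℝ) < r := by exact_mod_cast (h.supp r h2).1
    rw [norm_term, norm_mul, norm_pow, norm_neg, ← Complex.ofReal_ratCast, Complex.norm_real,
      Real.norm_eq_abs, abs_of_pos h3, hz, mul_assoc ‖c r‖, ← mul_pow,
      show -((r : ℝ) * (N / r0)) = N * (-(r / r0)) by ring, Real.exp_nat_mul]
    have : ρ r * (r0 * Real.exp (-1)) = r * Real.exp (-(r / r0)) := by
      simp only [ρ]
      rw [show -((r : ℝ) / r0) = (1 - r / r0) + -1 by ring, Real.exp_add]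
      field_simp
    rw [this, mul_pow]
    ring
  have hρ0 : ρ r0 = 1 := by simp [ρ, hr0.ne']
  rw [Lap, (hG.summable_norm z).of_norm.tsum_eq_add_tsum_ite r0]
  have hs : Summable fun r : ℚ =>
      ‖if r = r0 then 0 else (-(r : ℂ)) ^ N * c r * exp (-(r * z))‖ :=
    Summable.of_nonneg_of_le (fun _ => norm_nonneg _) (fun r => by
        split_ifs
        · rw [norm_zero]; exact norm_nonneg _
        · exact le_rfl)
      (hG.summable_norm z)
  have h3 := norm_tsum_le_tsum_norm hs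
  have h4 : ∀ r : ℚ, ‖if r = r0 then 0 else (-(r : ℂ)) ^ N * c r * exp (-(r * z))‖ =
      (if r = r0 then 0 else ‖c r‖ * ρ r ^ N) * (r0 * Real.exp (-1)) ^ N := by
    intro r
    split_ifs
    · simp
    · exact h2 r
  simp only [h4] at h3
  rw [tsum_mul_right] at h3
  have h5 := h2 r0
  rw [hρ0, one_pow, mul_one] at h5
  have h6 := norm_sub_norm_le ((-(r0 : ℂ)) ^ N * c r0 * exp (-(r0 * z)))
    (-∑' r : ℚ, if r = r0 then 0 else (-(r : ℂ)) ^ N * c r * exp (-(r * z)))
  rw [sub_neg_eq_add, norm_neg, h5] at h6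
  have h7 : (∑' r : ℚ, if r = r0 then 0 else ‖c r‖ * ρ r ^ N) * (r0 * Real.exp (-1)) ^ N ≤
      ‖c r0‖ / 2 * (r0 * Real.exp (-1)) ^ N := by gcongr
  linarith

theorem exp_ne_one {q : ℚ} (hq : q ≠ 0) : exp (-(q * I)) ≠ 1 := by
  intro h
  obtain ⟨n, hn⟩ := exp_eq_one_iff.1 h
  have h1 : -(q : ℝ) = n * (2 * Real.pi) := by
    have := congrArg Complex.im hn
    simpa [← Complex.ofReal_ratCast] using this
  have hn0 : (n : ℝ) ≠ 0 := by
    intro h0
    rw [h0, zero_mul, neg_eq_zero] at h1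
    exact hq (by exact_mod_cast h1)
  refine irrational_pi ⟨-q / (2 * n), ?_⟩
  push_cast
  field_simp
  linarith

theorem coef_le {e : ℚ → ℂ} (he : Summable fun r => ‖e r‖) {M : ℝ}
    (hM : ∀ y : ℝ, ‖∑' r : ℚ, e r * exp (-(r * (y * I)))‖ ≤ M) (r0 : ℚ) : ‖e r0‖ ≤ M := by
  classical
  let u : ℚ → ℂ := fun r => exp (-(((r - r0 : ℚ) : ℂ) * I))
  have hu : ∀ r, ‖u r‖ = 1 := fun r => by
    simp [u, norm_exp, ← Complex.ofReal_ratCast]
  let m : ℚ → ℂ := fun r => (1 + u r) / 2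
  have hm1 : ∀ r, ‖m r‖ ≤ 1 := fun r => by
    simp only [m, norm_div, Complex.norm_ofNat]
    linarith [norm_add_le 1 (u r), hu r, norm_one (α := ℂ)]
  have hm2 : ∀ r, r ≠ r0 → ‖m r‖ < 1 := fun r hr => by
    have h1 := exp_ne_one (sub_ne_zero.2 hr)
    have h2 := parallelogram_law_with_norm ℂ (1 : ℂ) (u r)
    have h3 : 0 < ‖1 - u r‖ := norm_pos_iff.2 (sub_ne_zero.2 h1.symm)
    simp only [m, norm_div, Complex.norm_ofNat]
    rw [hu, norm_one] at h2
    nlinarith [norm_nonneg (1 + u r)]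
  have hn : ∀ (N : ℕ) (r : ℚ) (y : ℝ), ‖e r * m r ^ N * exp (-(r * (y * I)))‖ ≤ ‖e r‖ := by
    intro N r y
    rw [norm_term, norm_mul, norm_pow]
    simp only [mul_re, ofReal_re, I_re, mul_zero, ofReal_im, I_im, sub_self, neg_zero,
      Real.exp_zero, mul_one]
    exact mul_le_of_le_one_right (norm_nonneg _) (pow_le_one₀ (norm_nonneg _) (hm1 r))
  have hs : ∀ (N : ℕ) (y : ℝ), Summable fun r : ℚ => e r * m r ^ N * exp (-(r * (y * I))) :=
    fun N y => Summable.of_norm_bounded he (fun r => hn N r y)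
  have key : ∀ (N : ℕ) (y : ℝ), ‖∑' r : ℚ, e r * m r ^ N * exp (-(r * (y * I)))‖ ≤ M := by
    intro N
    induction N with
    | zero => simpa using hM
    | succ N ih =>
      intro y
      have h1 : ∀ r : ℚ, e r * m r ^ (N + 1) * exp (-(r * (y * I))) =
          (1 / 2) * (e r * m r ^ N * exp (-(r * (y * I)))) +
          (exp (r0 * I) / 2) * (e r * m r ^ N * exp (-(r * ((y + 1 : ℝ) * I)))) := by
        intro r
        have h2 : exp (r0 * I) * exp (-(r * ((y + 1 : ℝ) * I))) =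
            u r * exp (-(r * (y * I))) := by
          simp only [u]
          rw [← exp_add, ← exp_add]
          congr 1
          push_cast
          ring
        calc _ = (1 / 2) * (e r * m r ^ N * exp (-(r * (y * I)))) +
            (e r * m r ^ N / 2) * (u r * exp (-(r * (y * I)))) := by
              rw [pow_succ]; simp only [m]; ring
          _ = _ := by rw [← h2]; ring
      simp only [h1]
      rw [((hs N y).mul_left _).tsum_add ((hs N (y + 1)).mul_left _), tsum_mul_left, tsum_mul_left]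
      refine (norm_add_le _ _).trans ?_
      have h3 : ‖exp (r0 * I)‖ = 1 := by simp [norm_exp, ← Complex.ofReal_ratCast]
      rw [norm_mul, norm_mul, norm_div, norm_div, h3, norm_one, Complex.norm_ofNat]
      linarith [ih y, ih (y + 1)]
  have h1 := tendsto_tsum_of_dominated_convergence (𝓕 := atTop)
    (f := fun (N : ℕ) (r : ℚ) => e r * m r ^ N * exp (-(r * ((0 : ℝ) * I))))
    (g := fun r => if r = r0 then e r else 0) he
    (fun r => by
      by_cases h1 : r = r0
      · simp [h1, m, u]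
      · simpa [h1] using (tendsto_pow_atTop_nhds_zero_of_norm_lt_one (hm2 r h1)).const_mul (e r))
    (Eventually.of_forall fun N r => hn N r 0)
  rw [tsum_ite_eq] at h1
  exact le_of_tendsto' h1.norm fun N => key N 0

theorem Gd.coef (h : Gd T c) {x M : ℝ} (hM : ∀ y : ℝ, ‖Lap c (x + y * I)‖ ≤ M) (r0 : ℚ) :
    ‖c r0‖ * Real.exp (-(r0 * x)) ≤ M := by
  have := coef_le (h.summable_norm x) (M := M) (fun y => by
    refine le_trans (le_of_eq ?_) (hM y)
    rw [Lap]
    congr 2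
    funext r
    rw [mul_assoc, ← exp_add]
    congr 2
    ring) r0
  rwa [norm_term] at this

theorem Gd.sub (h : Gd T c) (h' : Gd T d) : Gd T fun r => c r - d r := by
  refine ⟨Summable.of_nonneg_of_le (fun _ => norm_nonneg _) (fun r => norm_sub_le _ _)
    (h.sm.add h'.sm), fun r hr => ?_⟩
  by_cases h0 : c r = 0
  · exact h'.supp r fun h1 => hr (by rw [h0, h1, sub_zero])
  · exact h.supp r h0

theorem Gd.norm_sub_le (h : Gd T c) (h' : Gd T d) {z : ℂ} (hz : 0 ≤ z.re) :
    ‖Lap c z - Lap d z‖ ≤ nrm fun r => c r - d r := by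
  refine le_trans (le_of_eq ?_) ((h.sub h').norm_le' hz)
  rw [Lap, Lap, Lap, ← (h.summable_norm z).of_norm.tsum_sub (h'.summable_norm z).of_norm]
  congr 2
  funext r
  ring

theorem Gd.prod (h : Gd T c) (h' : Gd T d) {e : ℚ → ℂ}
    (he : ∀ r : ℚ, e r = if (r : ℝ) ≤ T then ∑' p, c p * d (r - p) else 0) {z : ℂ}
    (hz : 0 ≤ z.re) :
    ‖Lap c z * Lap d z - Lap e z‖ ≤ nrm c * nrm d * Real.exp (-(T * z.re)) := by
  classical
  let H : ℚ × ℚ → ℂ := fun x => c x.1 * exp (-(x.1 * z)) * (d x.2 * exp (-(x.2 * z)))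
  have hH : Summable fun x => ‖H x‖ :=
    Summable.mul_norm (f := fun r : ℚ => c r * exp (-(r * z)))
      (g := fun r : ℚ => d r * exp (-(r * z))) (h.summable_norm z) (h'.summable_norm z)
  let H1 : ℚ × ℚ → ℂ := fun x => if ((x.1 + x.2 : ℚ) : ℝ) ≤ T then H x else 0
  have hH1 : Summable H1 := Summable.of_norm_bounded hH fun x => by
    simp only [H1]; split_ifs <;> simp
  let E : ℚ × ℚ ≃ ℚ × ℚ :=
    ⟨fun x => (x.2, x.1 - x.2), fun x => (x.1 + x.2, x.1), fun x => by simp, fun x => by simp⟩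
  have h1 : Lap e z = ∑' x, H1 x := by
    have hE : Summable fun x => H1 (E x) := E.summable_iff.2 hH1
    rw [← E.tsum_eq, hE.tsum_prod, Lap]
    refine tsum_congr fun r => ?_
    have : ∀ p : ℚ, H1 (E (r, p)) =
        (if (r : ℝ) ≤ T then c p * d (r - p) else 0) * exp (-(r * z)) := by
      intro p
      simp only [H1, H, E, Equiv.coe_fn_mk, add_sub_cancel]
      split_ifs
      · rw [mul_mul_mul_comm, ← exp_add]
        congr 2
        push_cast
        ring
      · simp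
    simp only [this]
    rw [tsum_mul_right, he]
    split_ifs <;> simp
  rw [h1, Lap, Lap, tsum_mul_tsum_of_summable_norm (h.summable_norm z) (h'.summable_norm z),
    ← hH.of_norm.tsum_sub hH1, nrm, nrm,
    h.sm.tsum_mul_tsum h'.sm (h.sm.mul_of_nonneg h'.sm (fun _ => norm_nonneg _)
      fun _ => norm_nonneg _)]
  refine tsum_of_norm_bounded ((h.sm.mul_of_nonneg h'.sm (fun _ => norm_nonneg _)
      fun _ => norm_nonneg _).hasSum.mul_right _) fun x => ?_
  simp only [H1]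
  split_ifs with h2
  · simp only [H, sub_self, norm_zero]
    positivity
  · simp only [H, sub_zero]
    rw [norm_mul, norm_term, norm_term, mul_mul_mul_comm, ← Real.exp_add]
    gcongr
    push_cast at h2
    nlinarith [not_le.1 h2]

end Pool.Agent.H450Z.SG
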