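import Pool.Agent.H450Z.SGLap

set_option autoImplicit false
set_option maxHeartbeats 400000

namespace Pool.Agent.H450Z.SG

open Complex Metric Filter Topology Asymptotics

/-- Phragmen-Lindeloef for functions of exponential type -/
theorem PL {q : ℂ → ℂ} {M B Q : ℝ} (hq : DifferentiableOn ℂ q {z | 0 ≤ z.re})
    (hB : 0 ≤ B) (hg : ∀ z : ℂ, 0 ≤ z.re → ‖q z‖ ≤ M * Real.exp (B * z.re))
    (hre : ∃ M', ∀ᶠ x : ℝ in atTop, ‖q x‖ ≤ M') (him : ∀ y : ℝ, ‖q (y * I)‖ ≤ Q) {z : ℂ}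
    (hz : 0 ≤ z.re) : ‖q z‖ ≤ Q := by
  refine PhragmenLindelof.right_half_plane_of_bounded_on_real
    (DifferentiableOn.diffContOnCl ?_) ⟨1, one_lt_two, B, ?_⟩ ?_ him hz
  · rwa [closure_setOf_lt_re]
  · refine IsBigO.of_bound |M| ?_
    refine mem_inf_of_right (mem_principal.2 fun w hw => ?_)
    have h1 : 0 < w.re := hw
    show ‖q w‖ ≤ |M| * ‖Real.exp (B * ‖w‖ ^ (1 : ℝ))‖
    rw [Real.rpow_one, Real.norm_of_nonneg (Real.exp_pos _).le]
    refine (hg w h1.le).trans ?_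
    gcongr
    · exact le_abs_self M
    · exact re_le_norm w
  · obtain ⟨M', h⟩ := hre
    exact ⟨M', h⟩

variable {T : ℝ} {c : ℚ → ℂ}

theorem osc {f : ℂ → ℂ} (hf : Differentiable ℂ f) {K m C X0 : ℝ} (hm : 0 < m) (hC : 0 < C)
    (hX : 0 ≤ X0) (hup : ∀ z : ℂ, X0 ≤ z.re → ‖f z‖ ≤ K)
    (hlow : ∀ z : ℂ, X0 ≤ z.re → m * Real.exp (-(C * z.re)) ≤ ‖f z‖) (x y1 y2 : ℝ)
    (hx : X0 ≤ x) : ‖f (x + y1 * I)‖ ≤ K / m * Real.exp (C * X0) * ‖f (x + y2 * I)‖ := by
  have hpos : ∀ z : ℂ, X0 ≤ z.re → 0 < ‖f z‖ := fun z hz =>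
    (by positivity : 0 < m * Real.exp (-(C * z.re))).trans_le (hlow z hz)
  have hK : 0 < K := (hpos X0 (by simp)).trans_le (hup X0 (by simp))
  have hrat : ∀ z w : ℂ, X0 ≤ z.re → X0 ≤ w.re → ‖f z‖ ≤ ‖f w‖ * (K / m * Real.exp (C * w.re)) := by
    intro z w hz hw
    refine (hup z hz).trans (le_trans (le_of_eq ?_)
      (mul_le_mul_of_nonneg_right (hlow w hw) (by positivity)))
    rw [Real.exp_neg]
    field_simp
  let q : ℂ → ℂ := fun z => f (z + X0 + y1 * I) / f (z + X0 + y2 * I)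
  have hre : ∀ (z : ℂ) (y : ℝ), (z + X0 + y * I).re = z.re + X0 := fun z y => by simp
  have hq : ∀ z : ℂ, 0 ≤ z.re → ‖q z‖ ≤ K / m * Real.exp (C * X0) * Real.exp (C * z.re) := by
    intro z hz
    simp only [q]
    rw [norm_div, div_le_iff₀' (hpos _ (by rw [hre]; linarith)), mul_assoc (K / m),
      ← Real.exp_add]
    have := hrat (z + X0 + y1 * I) (z + X0 + y2 * I) (by rw [hre]; linarith) (by rw [hre]; linarith)
    rwa [hre, mul_add, add_comm (C * z.re)] at this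
  have h1 := PL (q := q) (Q := K / m * Real.exp (C * X0)) (z := (x - X0 : ℝ)) ?_ hC.le hq ?_ ?_
    (by simpa using hx)
  · simp only [q] at h1
    have e : ∀ y : ℝ, ((x - X0 : ℝ) : ℂ) + X0 + y * I = x + y * I := fun y => by push_cast; ring
    rwa [e, e, norm_div, div_le_iff₀ (hpos _ (by simpa using hx))] at h1
  · refine DifferentiableOn.div (by fun_prop) (by fun_prop) fun z hz => ?_
    exact norm_pos_iff.1 (hpos _ (by rw [hre]; linarith [show 0 ≤ z.re from hz]))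
  · let L := |y1 - y2|
    let B0 := |Real.log (K / m)| + C * X0 + C
    refine ⟨Real.exp (4 * L * B0), ?_⟩
    filter_upwards [eventually_ge_atTop 1, eventually_ge_atTop (2 * L)] with t ht1 ht2
    have hL : 0 ≤ L := abs_nonneg _
    have hn : ‖((y1 - y2 : ℝ) : ℂ) * I‖ = L := by
      rw [norm_mul, norm_I, mul_one, Complex.norm_real, Real.norm_eq_abs]
    have hw : ∀ ζ ∈ ball (0 : ℂ) t, X0 ≤ (ζ + (t + X0 + y2 * I)).re := by
      intro ζ hζ
      have := (abs_le.1 ((abs_re_le_norm ζ).trans (mem_ball_zero_iff.1 hζ).le)).1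
      rw [add_re, hre, ofReal_re]
      linarith
    have hB0 : 0 < B0 := by positivity
    have h2 := (harnack (f := fun ζ => f (ζ + (t + X0 + y2 * I))) (ρ := t) (B := B0 * t)
      (by linarith) (by positivity) (by fun_prop) (fun ζ hζ => norm_pos_iff.1 (hpos _ (hw ζ hζ)))
      (fun ζ hζ => by
        refine (hrat _ _ (hw ζ hζ) (hw 0 (mem_ball_self (by linarith)))).trans ?_
        gcongr
        rw [zero_add, hre, ofReal_re, ← Real.exp_log (show 0 < K / m by positivity),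
          ← Real.exp_add, Real.exp_le_exp]
        have h3 := le_abs_self (Real.log (K / m))
        have h4 : 0 ≤ |Real.log (K / m)| + C * X0 := by positivity
        simp only [B0]
        nlinarith)
      (z := ((y1 - y2 : ℝ) : ℂ) * I) (by rw [mem_ball_zero_iff, hn]; linarith)).2
    simp only [q]
    rw [norm_div, div_le_iff₀' (hpos _ (by rw [hre, ofReal_re]; linarith))]
    have e : ((y1 - y2 : ℝ) : ℂ) * I + (t + X0 + y2 * I) = t + X0 + y1 * I := by
      push_cast; ring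
    simp only [e, zero_add, hn] at h2
    refine h2.trans ?_
    gcongr
    rw [div_le_iff₀ (by linarith)]
    have h5 : 0 ≤ L * B0 := by positivity
    nlinarith
  · intro y
    have := hq (y * I) (by simp)
    simpa using this

theorem first_atom (h : Gd T c) {m C X0 : ℝ} (hm : 0 < m) (hC : 0 < C) (hX : 0 ≤ X0)
    (hlow : ∀ z : ℂ, X0 ≤ z.re → m * Real.exp (-(C * z.re)) ≤ ‖Lap c z‖) :
    ∃ r1, c r1 ≠ 0 ∧ ∀ r, c r ≠ 0 → r1 ≤ r := by
  have hpos : ∀ z : ℂ, X0 ≤ z.re → 0 < ‖Lap c z‖ := fun z hz =>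
    (by positivity : 0 < m * Real.exp (-(C * z.re))).trans_le (hlow z hz)
  let S : Set ℝ := {x | ∃ r : ℚ, c r ≠ 0 ∧ (r : ℝ) = x}
  have hS : S.Nonempty := by
    by_contra h0
    have h1 : ∀ r, c r = 0 := fun r => by_contra fun h2 => h0 ⟨r, r, h2, rfl⟩
    have := hpos X0 (by simp)
    simp [Lap, h1] at this
  have hbdd : ∀ x ∈ S, 0 ≤ x := by
    rintro x ⟨r, h1, rfl⟩
    exact_mod_cast (h.supp r h1).1.le
  have hβ0 : 0 ≤ sInf S := le_csInf hS hbdd
  have hβ : ∀ r, c r ≠ 0 → sInf S ≤ r := fun r hr => csInf_le ⟨0, hbdd⟩ ⟨r, hr, rfl⟩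
  by_contra hcon
  have hβ' : ∀ r, c r ≠ 0 → sInf S < r := fun r hr => (hβ r hr).lt_of_ne fun h1 =>
    hcon ⟨r, hr, fun r' hr' => by exact_mod_cast h1 ▸ hβ r' hr'⟩
  set Q := nrm c / m * Real.exp (C * X0) with hQ
  have hosc := osc h.differentiable hm hC hX (fun z hz => h.norm_le' (hX.trans hz)) hlow
  rw [← hQ] at hosc
  have hco : ∀ (r : ℚ) (z : ℂ), X0 ≤ z.re →
      ‖c r‖ * Real.exp (-(r * z.re)) ≤ Q * ‖Lap c z‖ := by
    intro r z hz
    have := h.coef (fun y => hosc z.re y z.im hz) r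
    rwa [re_add_im] at this
  set M0 := Real.exp (C * X0) / m with hM0
  have hM0p : 0 < M0 := by positivity
  have hinv : ∀ r : ℚ, c r ≠ 0 → ∀ x : ℝ, 0 ≤ x →
      Real.exp (-(r * x)) ≤ M0 * ‖Lap c (x + X0)‖ := by
    intro r hr x hx
    have hre : ∀ z : ℂ, (z + X0).re = z.re + X0 := fun z => by simp
    have hne : ∀ z : ℂ, ‖exp (-(r * z))‖ = Real.exp (-(r * z.re)) := fun z => by
      simpa using norm_term 1 r z
    have hb : ∀ z : ℂ, 0 ≤ z.re → ‖exp (-(r * z)) / Lap c (z + X0)‖ ≤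
        Q * Real.exp (r * X0) / ‖c r‖ := by
      intro z hz
      have h1 := hco r (z + X0) (by rw [hre]; linarith)
      rw [norm_div, hne, div_le_div_iff₀ (hpos _ (by rw [hre]; linarith)) (norm_pos_iff.2 hr)]
      rw [hre] at h1
      calc Real.exp (-(r * z.re)) * ‖c r‖
          = ‖c r‖ * Real.exp (-(r * (z.re + X0))) * Real.exp (r * X0) := by
            rw [mul_assoc, ← Real.exp_add, mul_comm]; congr 2; ring
        _ ≤ Q * ‖Lap c (z + X0)‖ * Real.exp (r * X0) := by gcongr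
        _ = _ := by ring
    have h1 := PL (q := fun z => exp (-(r * z)) / Lap c (z + X0)) (B := 0) (Q := M0) (z := x)
      (M := Q * Real.exp (r * X0) / ‖c r‖) ?_ le_rfl (fun z hz => by simpa using hb z hz)
      ⟨_, (eventually_ge_atTop 0).mono fun x hx => hb x (by simpa using hx)⟩ ?_ (by simpa using hx)
    · rwa [norm_div, hne, div_le_iff₀ (hpos _ (by rw [hre, ofReal_re]; linarith))] at h1
    · have := h.differentiable
      refine DifferentiableOn.div (by fun_prop) (by fun_prop) fun z hz => ?_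
      exact norm_pos_iff.1 (hpos _ (by rw [hre]; linarith [show 0 ≤ z.re from hz]))
    · intro y
      have h2 := hlow (y * I + X0) (by simp)
      have h3 : ((y : ℂ) * I).re = 0 := by simp
      rw [norm_div, hne, div_le_iff₀ (hpos _ (by simp)), h3]
      rw [hre, h3, zero_add] at h2
      refine le_trans (le_of_eq ?_) (mul_le_mul_of_nonneg_left h2 hM0p.le)
      rw [hM0, Real.exp_neg (C * X0)]
      simp only [mul_zero, neg_zero, Real.exp_zero]
      field_simp
  obtain ⟨x, hx1, hx2⟩ := ((h.decay hβ' (ε := 1 / (4 * M0)) (by positivity)).and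
    (eventually_ge_atTop X0)).exists
  obtain ⟨_, ⟨r, hr, rfl⟩, h1⟩ := exists_lt_of_csInf_lt hS
    (show sInf S < sInf S + 1 / (2 * (x + 1)) by
      have : 0 < 1 / (2 * (x + 1)) := by have := hX.trans hx2; positivity
      linarith)
  have h2 := hinv r hr (x - X0) (by linarith)
  have e : ((x - X0 : ℝ) : ℂ) + X0 = x := by push_cast; ring
  rw [e] at h2
  have hx0 : 0 ≤ x := hX.trans hx2
  have h3 : Real.exp (-(r * (x - X0))) ≤ 1 / 4 * Real.exp (-(sInf S * x)) := by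
    refine h2.trans ((mul_le_mul_of_nonneg_left hx1 hM0p.le).trans (le_of_eq ?_))
    field_simp
  have h4 : (r : ℝ) * x ≤ sInf S * x + 1 / 2 := by
    have h5 : 1 / (2 * (x + 1)) * x ≤ 1 / 2 := by
      rw [div_mul_eq_mul_div, div_le_div_iff₀ (by positivity) (by norm_num)]
      linarith
    nlinarith
  have h5 : Real.exp (-(sInf S * x)) * Real.exp (-(1 / 2)) ≤ Real.exp (-(r * (x - X0))) := by
    rw [← Real.exp_add, Real.exp_le_exp]
    have : 0 ≤ (r : ℝ) * X0 := mul_nonneg (hβ0.trans (hβ r hr)) hX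
    nlinarith
  have h6 := Real.add_one_le_exp (-(1 / 2 : ℝ))
  have h7 := Real.exp_pos (-(sInf S * x))
  nlinarith

/-- a point with a large value near every point of the line `re z = N / r0` -/
theorem near (h : Gd T c) {r0 : ℚ} (h0 : c r0 ≠ 0) :
    ∀ᶠ N : ℕ in atTop, ∀ z0 : ℂ, z0.re = N / r0 →
      ∃ w : ℂ, ‖w - z0‖ = N / r0 / 100 ∧ Real.exp (-(7 * N)) ≤ ‖Lap c w‖ := by
  have hr0 : (0 : ℝ) < r0 := by exact_mod_cast (h.supp r0 h0).1
  have h1 : ∀ᶠ N : ℕ in atTop, Real.exp (-N) ≤ ‖c r0‖ / 2 :=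
    (Real.tendsto_exp_neg_atTop_nhds_zero.comp tendsto_natCast_atTop_atTop).eventually
      (ge_mem_nhds (half_pos (norm_pos_iff.2 h0)))
  filter_upwards [h.peak h0, h1, eventually_gt_atTop 0] with N hN hN1 hN0 z0 hz0
  have hNp : (0 : ℝ) < N := by exact_mod_cast hN0
  have hR : (0 : ℝ) < N / r0 / 100 := by positivity
  obtain ⟨w, hw, hmax⟩ := (isCompact_sphere z0 (N / r0 / 100)).exists_isMaxOn
    (NormedSpace.sphere_nonempty.2 hR.le) (f := fun z => ‖Lap c z‖)
    h.differentiable.continuous.norm.continuousOn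
  refine ⟨w, mem_sphere_iff_norm.1 hw, ?_⟩
  have h2 := norm_iteratedDeriv_le_of_forall_mem_sphere_norm_le N hR
    h.differentiable.diffContOnCl (fun z hz => hmax hz)
  rw [iteratedDeriv_Lap N h] at h2
  have h3 := (hN z0 hz0).trans h2
  rw [le_div_iff₀ (by positivity)] at h3
  have h4 : (N.factorial : ℝ) ≤ N ^ N := by exact_mod_cast Nat.factorial_le_pow N
  have h5 : ‖c r0‖ / 2 * (r0 * Real.exp (-1)) ^ N * (N / r0 / 100) ^ N =
      N ^ N * (‖c r0‖ / 2 * (Real.exp (-1) / 100) ^ N) := by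
    rw [mul_assoc, ← mul_pow, mul_left_comm, ← mul_pow]
    congr 2
    field_simp
  rw [h5] at h3
  have h6 := le_of_mul_le_mul_left
    (h3.trans (mul_le_mul_of_nonneg_right h4 (norm_nonneg _))) (by positivity)
  refine le_trans ?_ h6
  have h7 : Real.exp (-6) ≤ Real.exp (-1) / 100 := by
    rw [le_div_iff₀ (by norm_num), show (-1 : ℝ) = -6 + 5 by norm_num, Real.exp_add]
    gcongr
    have h8 := Real.exp_one_gt_d9
    calc (100 : ℝ) ≤ 2.7 ^ 5 := by norm_num
      _ ≤ Real.exp 1 ^ 5 := by gcongr; linarith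
      _ = Real.exp 5 := by rw [← Real.exp_nat_mul]; norm_num
  calc Real.exp (-(7 * N)) = Real.exp (-N) * Real.exp (-6) ^ N := by
        rw [← Real.exp_nat_mul, ← Real.exp_add]; congr 1; ring
    _ ≤ _ := by gcongr

theorem lower {b : ℝ → ℚ → ℂ} {τ δ : ℝ} {r0 : ℚ} (hδ : 0 < δ) (hδ3 : δ ≤ τ / 3)
    (hG : ∀ t > 0, Gd (800 * r0) (b t)) (h0 : b τ r0 ≠ 0)
    (hmul : ∀ s > 0, ∀ t > 0, ∀ r : ℚ,
      b (s + t) r = if (r : ℝ) ≤ 800 * r0 then ∑' p, b s p * b t (r - p) else 0)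
    (hcont : ∀ t > 0, Tendsto (fun s => nrm fun r => b s r - b t r) (𝓝 t) (𝓝 0)) :
    ∃ m > 0, ∃ X0 ≥ 0, ∀ s ∈ Set.Icc δ (τ - δ), ∀ z : ℂ, X0 ≤ z.re →
      m * Real.exp (-(280 * r0 * z.re)) ≤ ‖Lap (b s) z‖ := by
  have hτ : 0 < τ := by linarith
  have hr0 : (0 : ℝ) < r0 := by exact_mod_cast ((hG τ hτ).supp r0 h0).1
  have hnc : ContinuousOn (fun t => nrm (b t)) (Set.Icc δ τ) := by
    intro t ht
    have ht0 : 0 < t := hδ.trans_le ht.1
    refine ContinuousAt.continuousWithinAt ?_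
    rw [ContinuousAt, tendsto_iff_norm_sub_tendsto_zero]
    refine squeeze_zero' (Eventually.of_forall fun _ => norm_nonneg _) ?_ (hcont t ht0)
    filter_upwards [lt_mem_nhds ht0] with s hs
    rw [nrm, nrm, ← (hG s hs).sm.tsum_sub (hG t ht0).sm]
    exact tsum_of_norm_bounded ((hG s hs).sub (hG t ht0)).sm.hasSum fun r =>
      abs_norm_sub_norm_le _ _
  obtain ⟨K0, hK0⟩ := isCompact_Icc.bddAbove_image hnc
  set K := max K0 1 with hK
  have hK1 : 1 ≤ K := le_max_right _ _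
  have hKb : ∀ t ∈ Set.Icc δ τ, nrm (b t) ≤ K := fun t ht =>
    (hK0 (Set.mem_image_of_mem _ ht)).trans (le_max_left _ _)
  have hev : ∀ᶠ N : ℕ in atTop, 8 * K ^ 3 ≤ Real.exp N :=
    (Real.tendsto_exp_atTop.comp tendsto_natCast_atTop_atTop).eventually (eventually_ge_atTop _)
  obtain ⟨N0, hN0⟩ := eventually_atTop.1 ((near (hG τ hτ) h0).and
    (hev.and (eventually_ge_atTop 100)))
  refine ⟨1 / (4 * K), by positivity, N0 / r0, by positivity, fun s hs z hz => ?_⟩
  have hzp : 0 ≤ z.re := le_trans (by positivity) hz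
  set N := ⌊r0 * z.re⌋₊ with hN
  have hN1 : N0 ≤ N := Nat.le_floor (by rwa [div_le_iff₀' hr0] at hz)
  have hN2 : (N : ℝ) ≤ r0 * z.re := Nat.floor_le (by positivity)
  have hN3 : r0 * z.re < N + 1 := Nat.lt_floor_add_one _
  obtain ⟨h1, h2, h3⟩ := hN0 N hN1
  have h3' : (100 : ℝ) ≤ N := by exact_mod_cast h3
  set X : ℝ := N / r0 with hXd
  have hX : 0 < X := by positivity
  have hXr : r0 * X = N := by rw [hXd]; field_simp
  obtain ⟨w, hw1, hw2⟩ := h1 (X + z.im * I) (by simp [hXd])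
  have hwre : X - X / 100 ≤ w.re := by
    have := (abs_le.1 ((abs_re_le_norm _).trans hw1.le)).1
    simp only [sub_re, add_re, ofReal_re, mul_re, I_re, mul_zero, ofReal_im, I_im, mul_one,
      sub_self, add_zero] at this
    linarith
  let g : ℝ → ℂ → ℂ := fun t ζ => Lap (b t) (w + (X / 50 : ℝ) * ζ)
  have hre : ∀ ζ : ℂ, ‖ζ‖ ≤ 12 → X / 2 ≤ (w + (X / 50 : ℝ) * ζ).re := by
    intro ζ hζ
    have := (abs_le.1 ((abs_re_le_norm ζ).trans hζ)).1
    rw [add_re, re_ofReal_mul]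
    nlinarith
  have hgd : ∀ t > 0, Differentiable ℂ (g t) := fun t ht => by
    have := (hG t ht).differentiable
    simp only [g]
    fun_prop
  have hgu : ∀ t ∈ Set.Icc δ τ, ∀ ζ : ℂ, ‖ζ‖ ≤ 12 → ‖g t ζ‖ ≤ K := fun t ht ζ hζ =>
    ((hG t (hδ.trans_le ht.1)).norm_le' (by linarith [hre ζ hζ])).trans (hKb t ht)
  have hK3 : K ≤ K ^ 3 := le_self_pow₀ hK1 (by norm_num)
  obtain ⟨r, hr, hmm⟩ := minmod (hgd τ hτ) (A := 7 * N) (by linarith)
    (fun ζ hζ => (hgu τ ⟨by linarith, le_rfl⟩ ζ hζ).trans (by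
      have : Real.exp N ≤ Real.exp (7 * N) := Real.exp_le_exp.2 (by linarith)
      linarith)) (by simpa [g] using hw2)
  set μ := Real.exp (-(280 * N)) / (2 * K) with hμ
  have hμp : 0 < μ := by positivity
  have hpr : ∀ s ∈ Set.Icc δ τ, ∀ t ∈ Set.Icc δ τ, ∀ ζ : ℂ, ‖ζ‖ ≤ 12 →
      ‖g s ζ * g t ζ - g (s + t) ζ‖ ≤ μ / 2 := by
    intro s hs t ht ζ hζ
    have hs0 := hδ.trans_le hs.1
    have ht0 := hδ.trans_le ht.1
    refine ((hG s hs0).prod (hG t ht0) (hmul s hs0 t ht0) (by linarith [hre ζ hζ])).trans ?_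
    have h4 : Real.exp (-(800 * r0 * (w + (X / 50 : ℝ) * ζ).re)) ≤
        Real.exp (-(280 * N)) * Real.exp (-N) := by
      rw [← Real.exp_add, Real.exp_le_exp]
      nlinarith [hre ζ hζ]
    have h5 : Real.exp (-N) ≤ 1 / (8 * K ^ 3) := by
      rw [Real.exp_neg, ← one_div]
      exact one_div_le_one_div_of_le (by positivity) h2
    calc _ ≤ K * K * (Real.exp (-(280 * N)) * (1 / (8 * K ^ 3))) := by
          refine mul_le_mul (mul_le_mul (hKb s hs) (hKb t ht) (nrm_nonneg _) (by positivity))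
            (h4.trans (by gcongr)) (Real.exp_pos _).le (by positivity)
      _ = μ / 4 := by rw [hμ]; field_simp; ring
      _ ≤ μ / 2 := by linarith
  have hI : ∀ s ∈ Set.Icc δ (τ - δ), s ∈ Set.Icc δ τ := fun s hs => ⟨hs.1, by linarith [hs.2]⟩
  have hz := zerofree (f := g) (α := δ) (β := τ - δ) (u := τ / 3) (r := r) (μ := μ) (K := K)
    (by linarith [hr.1]) hμp (by linarith) (fun s hs => hgd s (hδ.trans_le hs.1))
    (fun s hs ζ hζ => by
      have hζ' : ‖ζ‖ ≤ 12 := by linarith [hr.2]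
      have ht : τ - s ∈ Set.Icc δ τ := ⟨by linarith [hs.2], by linarith [hs.1]⟩
      have h4 := hpr s (hI s hs) (τ - s) ht ζ hζ'
      rw [add_sub_cancel] at h4
      have h5 := hmm ζ hζ
      have h6 := norm_sub_norm_le (g τ ζ) (g s ζ * g (τ - s) ζ)
      rw [norm_sub_rev, norm_mul] at h6
      have h7 : ‖g s ζ‖ * ‖g (τ - s) ζ‖ ≤ ‖g s ζ‖ * K := by gcongr; exact hgu _ ht ζ hζ'
      have h8 : Real.exp (-(40 * (7 * N))) = 2 * K * μ := by
        rw [hμ, show (40 : ℝ) * (7 * N) = 280 * N by ring]; field_simp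
      refine le_of_mul_le_mul_right ?_ (show 0 < K by linarith)
      nlinarith)
    (fun s0 hs0 ε hε => by
      have hs0' := hδ.trans_le hs0.1
      filter_upwards [mem_nhdsWithin_of_mem_nhds ((hcont s0 hs0').eventually (ge_mem_nhds hε)),
        self_mem_nhdsWithin] with s hs hs' ζ hζ
      exact ((hG s (hδ.trans_le hs'.1)).norm_sub_le (hG s0 hs0')
        (by linarith [hre ζ (by linarith [hr.2])])).trans hs)
    ⟨hδ3, by linarith⟩ ⟨by linarith, by linarith⟩
    (fun ζ hζ => hgu _ ⟨hδ3, by linarith⟩ ζ (by linarith [hr.2]))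
    (fun ζ hζ => hpr _ ⟨hδ3, by linarith⟩ _ ⟨hδ3, by linarith⟩ ζ (by linarith [hr.2]))
    s hs ((z - w) / (X / 50 : ℝ)) (by
      refine le_trans ?_ hr.1
      rw [norm_div, Complex.norm_real, Real.norm_of_nonneg (by positivity),
        div_le_one (by positivity)]
      have h4 : z - w = (z - (X + z.im * I)) - (w - (X + z.im * I)) := by ring
      have h5 : z - (X + z.im * I) = (z.re - X : ℝ) := by
        apply Complex.ext <;> simp
      have h6 : X ≤ z.re := by rwa [hXd, div_le_iff₀' hr0]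
      have h7 : z.re - X ≤ X / 100 := by
        refine le_of_mul_le_mul_left ?_ hr0
        nlinarith
      rw [h4, h5]
      refine (norm_sub_le _ _).trans ?_
      rw [hw1, Complex.norm_real, Real.norm_of_nonneg (by linarith)]
      linarith)
  have e : w + (X / 50 : ℝ) * ((z - w) / (X / 50 : ℝ)) = z := by
    have : ((X / 50 : ℝ) : ℂ) ≠ 0 := ofReal_ne_zero.2 (by positivity)
    field_simp
    ring
  simp only [g, e] at hz
  refine le_trans ?_ hz
  rw [hμ, div_div, mul_comm, mul_one_div, show 2 * K * 2 = 4 * K by ring]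
  exact div_le_div_of_nonneg_right (Real.exp_le_exp.2 (by linarith)) (by positivity)

theorem main (a : ℝ → ℚ → ℂ) (hsupp : ∀ t > 0, ∀ r ≤ 0, a t r = 0)
    (hsum : ∀ t > 0, Summable fun r : ℚ => ‖a t r‖ * Real.exp (-(r : ℝ) ^ 2))
    (hmul : ∀ s > 0, ∀ t > 0, ∀ r, a (s + t) r = ∑' p, a s p * a t (r - p))
    (hcont : ∀ t > 0, Tendsto (fun s => ∑' r : ℚ, ‖a s r - a t r‖ * Real.exp (-(r : ℝ) ^ 2))
      (𝓝 t) (𝓝 0)) : ∀ t > 0, ∀ r, a t r = 0 := by
  classical
  intro τ hτ r0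
  by_contra h0
  have hpos : ∀ t > 0, ∀ r, a t r ≠ 0 → 0 < r := fun t ht r hr =>
    not_le.1 fun h => hr (hsupp t ht r h)
  set T : ℝ := 800 * r0 with hT
  have hr0 : (0 : ℝ) < r0 := by exact_mod_cast hpos τ hτ r0 h0
  let b : ℝ → ℚ → ℂ := fun t r => if (r : ℝ) ≤ T then a t r else 0
  have hb : ∀ t r, b t r ≠ 0 → a t r ≠ 0 ∧ (r : ℝ) ≤ T := by
    intro t r h
    simp only [b] at h
    split_ifs at h with h1
    · exact ⟨h, h1⟩
    · exact (h rfl).elim
  have hw : ∀ (r : ℚ) (x : ℂ), (r ≤ 0 → x = 0) → ‖if (r : ℝ) ≤ T then x else 0‖ ≤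
      Real.exp (T ^ 2) * (‖x‖ * Real.exp (-(r : ℝ) ^ 2)) := by
    intro r x hx
    split_ifs with h1
    · rcases le_or_gt r 0 with h2 | h2
      · simp [hx h2]
      · have h3 : (0 : ℝ) < r := by exact_mod_cast h2
        rw [mul_left_comm, ← Real.exp_add]
        refine le_mul_of_one_le_right (norm_nonneg _) (Real.one_le_exp ?_)
        nlinarith
    · rw [norm_zero]; positivity
  have hG : ∀ t > 0, Gd T (b t) := fun t ht =>
    ⟨Summable.of_nonneg_of_le (fun _ => norm_nonneg _) (fun r => hw r _ (hsupp t ht r))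
      ((hsum t ht).mul_left _), fun r hr => ⟨hpos t ht r (hb t r hr).1, (hb t r hr).2⟩⟩
  have hbm : ∀ s > 0, ∀ t > 0, ∀ r : ℚ,
      b (s + t) r = if (r : ℝ) ≤ T then ∑' p, b s p * b t (r - p) else 0 := by
    intro s hs t ht r
    simp only [b]
    split_ifs with h1
    · rw [hmul s hs t ht]
      refine tsum_congr fun p => ?_
      by_cases h2 : a s p = 0
      · simp [h2]
      by_cases h3 : a t (r - p) = 0
      · simp [h3]
      have h4 : (0 : ℝ) < p := by exact_mod_cast hpos s hs p h2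
      have h5 : (0 : ℝ) < (r - p : ℚ) := by exact_mod_cast hpos t ht _ h3
      rw [if_pos (by push_cast at h5; linarith), if_pos (by push_cast; linarith)]
    · rfl
  have hbc : ∀ t > 0, Tendsto (fun s => nrm fun r => b s r - b t r) (𝓝 t) (𝓝 0) := by
    intro t ht
    have h1 := (hcont t ht).const_mul (Real.exp (T ^ 2))
    rw [mul_zero] at h1
    refine squeeze_zero' (Eventually.of_forall fun _ => nrm_nonneg _) ?_ h1
    filter_upwards [lt_mem_nhds ht] with s hs
    rw [← tsum_mul_left]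
    refine ((hG s hs).sub (hG t ht)).sm.tsum_le_tsum (fun r => ?_) (Summable.mul_left _ ?_)
    · refine le_trans (le_of_eq ?_) (hw r (a s r - a t r) fun h => by
        rw [hsupp s hs r h, hsupp t ht r h, sub_zero])
      simp only [b]
      split_ifs <;> simp
    · refine Summable.of_nonneg_of_le (fun _ => by positivity) (fun r => ?_)
        ((hsum s hs).add (hsum t ht))
      rw [← add_mul]
      gcongr
      exact norm_sub_le _ _
  have hfa : ∀ s : Set.Ioo (0 : ℝ) τ, ∃ r1, a s r1 ≠ 0 ∧ ∀ r, a s r ≠ 0 → r1 ≤ r := by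
    rintro ⟨s, hs0, hs1⟩
    obtain ⟨m, hm, X0, hX0, h1⟩ := lower (δ := min s (min (τ - s) (τ / 3))) (b := b) (r0 := r0)
      (lt_min hs0 (lt_min (by linarith) (by linarith)))
      ((min_le_right _ _).trans (min_le_right _ _)) hG
      (by simp only [b]; rwa [if_pos (by linarith)]) hbm hbc
    obtain ⟨r1, h2, h3⟩ := first_atom (hG s hs0) hm (by positivity) hX0 (h1 s ⟨min_le_left _ _, by
      linarith [(min_le_right s _).trans (min_le_left (τ - s) (τ / 3))]⟩)
    refine ⟨r1, (hb s r1 h2).1, fun r hr => ?_⟩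
    by_cases h4 : (r : ℝ) ≤ T
    · exact h3 r (by simp only [b]; rwa [if_pos h4])
    · exact_mod_cast (hb s r1 h2).2.trans (not_le.1 h4).le
  choose β hβ1 hβ2 using hfa
  have hmono : StrictMono β := by
    intro s s' hss
    have h1 : (0 : ℝ) < s' - s := sub_pos.2 hss
    have h2 := hβ1 s'
    rw [show (s' : ℝ) = s + (s' - s) by ring, hmul _ s.2.1 _ h1] at h2
    obtain ⟨p, hp⟩ : ∃ p, a s p * a (s' - s) (β s' - p) ≠ 0 := by
      by_contra h3
      push Not at h3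
      simp [h3] at h2
    have h3 := hβ2 s p (left_ne_zero_of_mul hp)
    have h4 := hpos _ h1 _ (right_ne_zero_of_mul hp)
    linarith
  have h1 : Countable (Set.Ioo (0 : ℝ) τ) := hmono.injective.countable
  have h2 := Cardinal.mk_Ioo_real hτ
  have h3 := Cardinal.mk_le_aleph0_iff.2 h1
  rw [h2] at h3
  exact Cardinal.aleph0_lt_continuum.not_ge h3

end Pool.Agent.H450Z.SG
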